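import Mathlib

/-!
The abstract properties of the set of `D`-vertices of the generic structure.
-/

namespace Run7.h540

/-- A set with a back-and-forth system and a notion of genericity. -/
structure Geo (D : Type) where
  Sim : ∀ {α : Type}, (α → D) → (α → D) → Prop
  Gen : ∀ {α β : Type}, (α → D) → (β → D) → Prop
  refl : ∀ {α : Type} [Finite α] (s : α → D), Sim s s
  symm : ∀ {α : Type} {s t : α → D}, Sim s t → Sim t s
  trans : ∀ {α : Type} {s t r : α → D}, Sim s t → Sim t r → Sim s r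
  comp : ∀ {α β : Type} {s t : α → D} (g : β → α), Sim s t → Sim (s ∘ g) (t ∘ g)
  eq : ∀ {α : Type} {s t : α → D}, Sim s t → ∀ {i j : α}, s i = s j → t i = t j
  forth : ∀ {α β : Type} [Finite α] [Finite β] {s t : α → D}, Sim s t → ∀ x : β → D,
    ∃ y : β → D, Sim (Sum.elim s x) (Sum.elim t y)
  fin : ∀ (α : Type) [Finite α], ∃ F : Set (α → D), F.Finite ∧ ∀ t, ∃ s ∈ F, Sim s t
  gen_inv : ∀ {α β : Type} [Finite α] [Finite β] {u u' : α → D} {t t' : β → D},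
    Sim (Sum.elim u t) (Sum.elim u' t') → Gen u t → Gen u' t'
  gen_comp : ∀ {α β γ : Type} [Finite α] [Finite β] [Finite γ] {u : α → D} {t : β → D}
    (g : γ → β), Gen u t → Gen u (t ∘ g)
  gen_add : ∀ {α β : Type} [Finite α] [Finite β] {u : α → D} {t : β → D} (x : Fin 1 → D),
    Gen u t → Gen x (Sum.elim t u) → Gen (Sum.elim u x) t
  gen_empty : ∀ {β : Type} [Finite β] (u : Fin 0 → D) (t : β → D), Gen u t
  ext : ∀ {α β γ : Type} [Finite α] [Finite β] [Finite γ] {u : α → D} {t : β → D},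
    Gen u t → ∀ e : γ → D, ∃ u' : α → D, Gen u' (Sum.elim t e) ∧
      Sim (Sum.elim u' t) (Sum.elim u t)
  pair : ∀ {α β : Type} [Finite α] [Finite β] (u : ℕ → α → D) (t : ℕ → β → D),
    Gen (u 0) (t 0) → (∀ i, Sim (Sum.elim (u i) (t i)) (Sum.elim (u 0) (t 0))) →
      ∃ i j : ℕ, i ≠ j ∧ ∃ u' : α → D, Gen u' (Sum.elim (t i) (t j)) ∧
        Sim (Sum.elim u' (t i)) (Sum.elim (u 0) (t 0)) ∧
        Sim (Sum.elim u' (t j)) (Sum.elim (u 0) (t 0))
  alg : ∀ {β : Type} [Finite β] (u : Fin 1 → D) (t : β → D), ¬ Gen u t →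
    {x : Fin 1 → D | Sim (Sum.elim x t) (Sum.elim u t)}.Finite
  free : ∀ {α β γ : Type} [Finite α] [Finite β] [Finite γ] (a : α → D) (t : β → D)
    (e : γ → D), ∃ t' : β → D, Sim (Sum.elim t' a) (Sum.elim t a) ∧
      ∀ x : Fin 1 → D, ¬ Gen x (Sum.elim t' a) → ¬ Gen x (Sum.elim e a) → ¬ Gen x a
  /-- the failing type, and the generic type -/
  pu : Fin 101 → D
  pv : Fin 101 → D
  qu : Fin 101 → D
  qv : Fin 101 → D
  gen_q : Gen qu qv
  ladder : ∀ m : ℕ, ∃ u v : Fin m → Fin 101 → D, ∀ i j : Fin m,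
    (i < j → Sim (Sum.elim (u i) (v j)) (Sum.elim pu pv)) ∧
    (j ≤ i → Sim (Sum.elim (u i) (v j)) (Sum.elim qu qv))
  div : ∀ m : ℕ, ∃ v : Fin m → Fin 101 → D, (∀ i, Sim (v i) pv) ∧
    ∀ s : Finset (Fin m), s.card = 102 →
      ¬ ∃ u : Fin 101 → D, ∀ i ∈ s, Sim (Sum.elim u (v i)) (Sum.elim pu pv)

end Run7.h540
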