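import Pool.Agent.Run7.h540.Base
import Pool.Agent.Run7.h540.Geo

/-! Definitions inside a rich structure. -/

namespace Run7.h540
open Classical

/-- The `D`-vertices. -/
def DV (M : Str ℕ) (Ω : Set ℕ) : Type := {v : ℕ // v ∈ Ω ∧ M.col v = Col.D}

/-- The back-and-forth relation between tuples of elements. -/
def SimV (M : Str ℕ) (Ω : Set ℕ) {α : Type} (s t : α → ℕ) : Prop :=
  ∃ (A : Finset ℕ) (f : ℕ → ℕ), M.Cl A Ω ∧ Emb M M A f ∧ M.Cl (A.image f) Ω ∧
    ∀ i, s i ∈ A ∧ f (s i) = t i

/-- The range of a tuple, as a finset. -/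
noncomputable def rg {α : Type} (s : α → ℕ) : Finset ℕ :=
  if h : (Set.range s).Finite then h.toFinset else ∅

/-- The closure. -/
noncomputable def clo (M : Str ℕ) (Ω : Set ℕ) (S : Finset ℕ) : Finset ℕ :=
  if h : ∃ C, M.IsC S C Ω then h.choose else S

/-- The dimension. -/
noncomputable def dm (M : Str ℕ) (Ω : Set ℕ) (S : Finset ℕ) : ℤ := M.dl (clo M Ω S)

/-- Genericity of the tuple `u` over the tuple `t`. -/
def GenV (M : Str ℕ) (Ω : Set ℕ) {α β : Type} (u : α → ℕ) (t : β → ℕ) : Prop :=
  dm M Ω (rg u ∪ rg t) = dm M Ω (rg t) + Nat.card α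

/-- The structure of a pair: two points, each with 101 attached vertices of colour `D`; the two
points are related if `r` holds. -/
def PairS (r : Prop) : Str (Bool × Option (Fin 101)) where
  col := fun x => match x with
    | (_, none) => Col.X
    | (_, some _) => Col.D
  adj := fun x y => (∃ s k, x = (s, some k) ∧ y = (s, none)) ∨
    (r ∧ x = (false, none) ∧ y = (true, none))

end Run7.h540
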