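import Pool.Agent.Run7.h540.Base

/-! Counting: adding one vertex, submodularity. -/

namespace Run7.h540
open Classical
namespace Str

variable {V : Type} [DecidableEq V] {G : Str V} {Z : Set V} {A B C S T H : Finset V}

section count

variable (r : V → V → Prop) (t : V → V → V → Prop)

/-- pairs in `S` -/
noncomputable def c2 (S : Finset V) : ℕ := ((S ×ˢ S).filter fun p => r p.1 p.2).card
/-- triples in `S` -/
noncomputable def c3 (S : Finset V) : ℕ :=
  ((S ×ˢ (S ×ˢ S)).filter fun p => t p.1 p.2.1 p.2.2).card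

omit [DecidableEq V] in
theorem c2_eq (S : Finset V) : c2 r S = ∑ a ∈ S, ∑ b ∈ S, if r a b then 1 else 0 := by
  rw [c2, Finset.card_filter, Finset.sum_product]

omit [DecidableEq V] in
theorem c3_eq (S : Finset V) :
    c3 t S = ∑ a ∈ S, ∑ b ∈ S, ∑ c ∈ S, if t a b c then 1 else 0 := by
  rw [c3, Finset.card_filter, Finset.sum_product]
  simp only [Finset.sum_product]

theorem c2_insert {v : V} (hv : v ∉ S) (h : ¬ r v v) :
    c2 r (insert v S) = c2 r S + (S.filter fun b => r v b).card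
      + (S.filter fun a => r a v).card := by
  rw [c2_eq, c2_eq, Finset.sum_insert hv]
  simp only [Finset.sum_insert hv, Finset.sum_add_distrib, if_neg h, Finset.card_filter]
  ring

theorem c3_insert {v : V} (hv : v ∉ S) (h1 : ∀ a, ¬ t v v a) (h2 : ∀ a, ¬ t v a v)
    (h3 : ∀ a, ¬ t a v v) :
    c3 t (insert v S) = c3 t S + (∑ b ∈ S, ∑ c ∈ S, if t v b c then 1 else 0)
      + (∑ b ∈ S, ∑ c ∈ S, if t b v c then 1 else 0)
      + (∑ b ∈ S, ∑ c ∈ S, if t b c v then 1 else 0) := by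
  rw [c3_eq, c3_eq, Finset.sum_insert hv]
  simp only [Finset.sum_insert hv, Finset.sum_add_distrib, if_neg (h1 _), if_neg (h2 _),
    if_neg (h3 _), Finset.sum_const_zero]
  ring

/-- pairs of `A ∪ B` not inside `A` or `B` -/
noncomputable def x2 (A B : Finset V) : Finset (V × V) :=
  ((A ∪ B) ×ˢ (A ∪ B)).filter fun p => r p.1 p.2 ∧ ¬ (p.1 ∈ A ∧ p.2 ∈ A) ∧ ¬ (p.1 ∈ B ∧ p.2 ∈ B)

/-- triples of `A ∪ B` not inside `A` or `B` -/
noncomputable def x3 (A B : Finset V) : Finset (V × V × V) :=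
  ((A ∪ B) ×ˢ ((A ∪ B) ×ˢ (A ∪ B))).filter fun p => t p.1 p.2.1 p.2.2 ∧
    ¬ (p.1 ∈ A ∧ p.2.1 ∈ A ∧ p.2.2 ∈ A) ∧ ¬ (p.1 ∈ B ∧ p.2.1 ∈ B ∧ p.2.2 ∈ B)

theorem c2_union (A B : Finset V) :
    c2 r (A ∪ B) + c2 r (A ∩ B) = c2 r A + c2 r B + (x2 r A B).card := by
  unfold c2 x2
  have e0 := Finset.card_union_add_card_inter ((A ×ˢ A).filter fun p => r p.1 p.2)
    ((B ×ˢ B).filter fun p => r p.1 p.2)
  rw [← e0, ← Finset.filter_union, ← Finset.filter_inter_distrib]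
  have e1 : (A ×ˢ A ∩ B ×ˢ B) = (A ∩ B) ×ˢ (A ∩ B) := by
    rw [Finset.product_inter_product]
  rw [e1]
  have e2 : ((A ∪ B) ×ˢ (A ∪ B)).filter (fun p => r p.1 p.2) =
      (A ×ˢ A ∪ B ×ˢ B).filter (fun p => r p.1 p.2) ∪
      ((A ∪ B) ×ˢ (A ∪ B)).filter (fun p => r p.1 p.2 ∧ ¬ (p.1 ∈ A ∧ p.2 ∈ A) ∧
        ¬ (p.1 ∈ B ∧ p.2 ∈ B)) := by
    ext ⟨a, b⟩
    simp only [Finset.mem_filter, Finset.mem_union, Finset.mem_product]
    tauto
  rw [e2, Finset.card_union_of_disjoint]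
  · ring
  · rw [Finset.disjoint_left]
    rintro ⟨a, b⟩ h1 h2
    simp only [Finset.mem_filter, Finset.mem_union, Finset.mem_product] at h1 h2
    tauto

theorem c3_union (A B : Finset V) :
    c3 t (A ∪ B) + c3 t (A ∩ B) = c3 t A + c3 t B + (x3 t A B).card := by
  unfold c3 x3
  have e0 := Finset.card_union_add_card_inter ((A ×ˢ (A ×ˢ A)).filter fun p => t p.1 p.2.1 p.2.2)
    ((B ×ˢ (B ×ˢ B)).filter fun p => t p.1 p.2.1 p.2.2)
  rw [← e0, ← Finset.filter_union, ← Finset.filter_inter_distrib]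
  have e1 : (A ×ˢ (A ×ˢ A) ∩ B ×ˢ (B ×ˢ B)) = (A ∩ B) ×ˢ ((A ∩ B) ×ˢ (A ∩ B)) := by
    rw [Finset.product_inter_product, Finset.product_inter_product]
  rw [e1]
  have e2 : ((A ∪ B) ×ˢ ((A ∪ B) ×ˢ (A ∪ B))).filter (fun p => t p.1 p.2.1 p.2.2) =
      (A ×ˢ (A ×ˢ A) ∪ B ×ˢ (B ×ˢ B)).filter (fun p => t p.1 p.2.1 p.2.2) ∪
      ((A ∪ B) ×ˢ ((A ∪ B) ×ˢ (A ∪ B))).filter (fun p => t p.1 p.2.1 p.2.2 ∧
        ¬ (p.1 ∈ A ∧ p.2.1 ∈ A ∧ p.2.2 ∈ A) ∧ ¬ (p.1 ∈ B ∧ p.2.1 ∈ B ∧ p.2.2 ∈ B)) := by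
    ext ⟨a, b, c⟩
    simp only [Finset.mem_filter, Finset.mem_union, Finset.mem_product]
    tauto
  rw [e2, Finset.card_union_of_disjoint]
  · ring
  · rw [Finset.disjoint_left]
    rintro ⟨a, b, c⟩ h1 h2
    simp only [Finset.mem_filter, Finset.mem_union, Finset.mem_product] at h1 h2
    tauto

end count

omit [DecidableEq V] in
theorem eE_eq (G : Str V) (S : Finset V) : G.eE S = c2 G.E S := rfl
omit [DecidableEq V] in
theorem eQ_eq (G : Str V) (S : Finset V) : G.eQ S = c2 G.Q S := rfl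
omit [DecidableEq V] in
theorem eR_eq (G : Str V) (S : Finset V) : G.eR S = c2 G.R S := rfl

/-- triangles -/
def Tri (G : Str V) (a b l : V) : Prop := G.R a b ∧ G.Q a l ∧ G.Q b l

omit [DecidableEq V] in
theorem tr_eq (G : Str V) (S : Finset V) : G.tr S = c3 G.Tri S := by
  unfold tr c3
  congr 1
  ext p
  simp only [Finset.mem_filter, Tri]

omit [DecidableEq V] in
theorem Q_irrefl (a : V) : ¬ G.Q a a := fun h => by
  have := h.1.symm.trans h.2.1; cases this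
omit [DecidableEq V] in
theorem E_irrefl (a : V) : ¬ G.E a a := fun h => by
  have := h.1.symm.trans h.2.1; cases this
omit [DecidableEq V] in
theorem R_irrefl (a : V) : ¬ G.R a a := fun h => h.2.2.1 rfl
omit [DecidableEq V] in
theorem Q_asymm {a b : V} (h : G.Q a b) : ¬ G.Q b a := fun h' => by
  have := h.1.symm.trans h'.2.1; cases this

theorem eQ_insert {v : V} (hv : v ∉ S) : G.eQ (insert v S) = G.eQ S + G.qd v S := by
  rw [eQ_eq, eQ_eq, c2_insert _ hv (Q_irrefl v), add_assoc, qd]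
  congr 1
  rw [← Finset.card_union_of_disjoint, ← Finset.filter_or]
  · congr 1
    ext a
    simp only [Finset.mem_filter]
    tauto
  · rw [Finset.disjoint_left]
    intro a h1 h2
    simp only [Finset.mem_filter] at h1 h2
    exact Q_asymm h1.2 h2.2

theorem dl_insert {v : V} (hv : v ∉ S) : G.dl (insert v S) = G.dl S + G.wt v
    - (S.filter fun b => G.E v b).card - (S.filter fun a => G.E a v).card
    - 100 * G.qd v S
    - (S.filter fun b => G.R v b).card - (S.filter fun a => G.R a v).card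
    + (∑ b ∈ S, ∑ c ∈ S, if G.Tri v b c then (1 : ℤ) else 0)
    + (∑ b ∈ S, ∑ c ∈ S, if G.Tri b v c then (1 : ℤ) else 0)
    + (∑ b ∈ S, ∑ c ∈ S, if G.Tri b c v then (1 : ℤ) else 0) := by
  unfold dl
  rw [Finset.sum_insert hv, eQ_insert hv, eE_eq, eE_eq, eR_eq, eR_eq, tr_eq, tr_eq,
    c2_insert _ hv (E_irrefl v), c2_insert _ hv (R_irrefl v), c3_insert _ hv]
  · push_cast
    ring
  · intro a h; exact R_irrefl _ h.1
  · intro a h; exact Q_irrefl _ h.2.1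
  · intro a h; exact Q_irrefl _ h.2.2

end Str
end Run7.h540
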