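import Pool.Agent.Run7.h540.A1

/-! The single step inequality. -/

namespace Run7.h540
open Classical
namespace Str

variable {V : Type} [DecidableEq V] {G : Str V} {Z : Set V} {A B C S T H : Finset V}

omit [DecidableEq V] in
theorem two_mul_le (n : ℕ) : 2 * n ≤ 2 + (n * n - n) := by
  rcases n with _ | _ | n
  · simp
  · simp
  · have : (n + 1 + 1) * (n + 1 + 1) - (n + 1 + 1) = (n + 1 + 1) * (n + 1) := by
      rw [← Nat.mul_sub_one]; rfl
    rw [this]; nlinarith

theorem lines_bound (h1 : G.A1 Z) {v : V} (hS : ↑S ⊆ Z) (hv : v ∈ Z) (hB : B ⊆ S)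
    (hvB : v ∉ B) :
    2 * (∑ b ∈ B, ((S.filter fun l => G.Q v l).filter fun l => G.Q b l).card) ≤
      2 * B.card + ((S.filter fun l => G.Q v l).card * (S.filter fun l => G.Q v l).card
        - (S.filter fun l => G.Q v l).card) := by
  set Ls := S.filter fun l => G.Q v l with hLs
  have key : ∑ b ∈ B, ((Ls.filter fun l => G.Q b l).offDiag).card ≤ Ls.offDiag.card := by
    rw [← Finset.card_biUnion]
    · apply Finset.card_le_card
      intro p hp
      simp only [Finset.mem_biUnion, Finset.mem_offDiag, Finset.mem_filter] at hp ⊢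
      obtain ⟨b, _, hp⟩ := hp
      exact ⟨hp.1.1, hp.2.1.1, hp.2.2⟩
    · intro b hb b' hb' hne
      simp only [Function.onFun]
      rw [Finset.disjoint_left]
      rintro ⟨l, l'⟩ hp hp'
      simp only [Finset.mem_offDiag, Finset.mem_filter, hLs] at hp hp'
      have hl : l ∈ Z := hS hp.1.1.1
      have hl' : l' ∈ Z := hS hp.2.1.1.1
      have := h1 l hl l' hl' hp.2.2 {v, b, b'} (by
        intro x hx
        simp only [Finset.coe_insert, Finset.coe_singleton, Set.mem_insert_iff,
          Set.mem_singleton_iff] at hx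
        rcases hx with rfl | rfl | rfl
        · exact hv
        · exact hS (hB hb)
        · exact hS (hB hb')) (by
        intro x hx
        simp only [Finset.mem_insert, Finset.mem_singleton] at hx
        rcases hx with rfl | rfl | rfl
        · exact ⟨hp.1.1.2, hp.2.1.1.2⟩
        · exact ⟨hp.1.2, hp.2.1.2⟩
        · exact ⟨hp'.1.2, hp'.2.1.2⟩)
      have h3 : ({v, b, b'} : Finset V).card = 3 := by
        rw [Finset.card_eq_three]
        exact ⟨v, b, b', fun h => hvB (h ▸ hb), fun h => hvB (h ▸ hb'), hne, rfl⟩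
      omega
  rw [Finset.offDiag_card] at key
  calc 2 * (∑ b ∈ B, (Ls.filter fun l => G.Q b l).card)
      = ∑ b ∈ B, 2 * (Ls.filter fun l => G.Q b l).card := by rw [Finset.mul_sum]
    _ ≤ ∑ b ∈ B, (2 + ((Ls.filter fun l => G.Q b l).offDiag).card) := by
        apply Finset.sum_le_sum
        intro b _
        rw [Finset.offDiag_card]
        exact two_mul_le _
    _ = 2 * B.card + ∑ b ∈ B, ((Ls.filter fun l => G.Q b l).offDiag).card := by
        rw [Finset.sum_add_distrib, Finset.sum_const, smul_eq_mul, mul_comm]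
    _ ≤ _ := by omega

omit [DecidableEq V] in
theorem sum_ite_and (t : V → V → Prop) [∀ b c, Decidable (t b c)] (p : V → Prop)
    (q q' : V → V → Prop) (S : Finset V) (h : ∀ b c, t b c ↔ p b ∧ q' b c ∧ q b c) :
    (∑ b ∈ S, ∑ c ∈ S, if t b c then (1 : ℤ) else 0) =
      ((∑ b ∈ S.filter p, ((S.filter fun c => q' b c).filter fun c => q b c).card : ℕ) : ℤ) := by
  rw [Finset.sum_filter]
  push_cast
  apply Finset.sum_congr rfl
  intro b _
  by_cases hp : p b
  · rw [if_pos hp, Finset.filter_filter, Finset.card_filter]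
    push_cast
    apply Finset.sum_congr rfl
    intro c _
    by_cases h2 : t b c
    · rw [if_pos h2, if_pos ((h b c).1 h2).2]
    · rw [if_neg h2, if_neg fun h' => h2 ((h b c).2 ⟨hp, h'⟩)]
  · rw [if_neg hp]
    apply Finset.sum_eq_zero
    intro c _
    rw [if_neg fun h' => hp ((h b c).1 h').1]

omit [DecidableEq V] in
theorem thr_D {v : V} (h : G.col v = Col.D) : G.thr v = 0 := by unfold thr; rw [h]
omit [DecidableEq V] in
theorem thr_X {v : V} (h : G.col v = Col.X) : G.thr v = 1 := by unfold thr; rw [h]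
omit [DecidableEq V] in
theorem thr_L {v : V} (h : G.col v = Col.L) : G.thr v = 2 := by unfold thr; rw [h]

omit [DecidableEq V] in
theorem qd_D {v : V} (h : G.col v = Col.D) (S : Finset V) : G.qd v S = 0 := by
  unfold qd
  rw [Finset.card_eq_zero, Finset.filter_eq_empty_iff]
  rintro u _ (h' | h')
  · have := h.symm.trans h'.2.1; cases this
  · have := h.symm.trans h'.1; cases this

omit [DecidableEq V] in
theorem qd_X {v : V} (h : G.col v = Col.X) (S : Finset V) :
    G.qd v S = (S.filter fun l => G.Q v l).card := by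
  unfold qd
  congr 1
  apply Finset.filter_congr
  intro u _
  constructor
  · rintro (h' | h')
    · have := h.symm.trans h'.2.1; cases this
    · exact h'
  · exact Or.inr

omit [DecidableEq V] in
theorem qd_L {v : V} (h : G.col v = Col.L) (S : Finset V) :
    G.qd v S = (S.filter fun a => G.Q a v).card := by
  unfold qd
  congr 1
  apply Finset.filter_congr
  intro u _
  constructor
  · rintro (h' | h')
    · exact h'
    · have := h.symm.trans h'.1; cases this
  · exact Or.inl

/-- single step -/
theorem dl_insert_le (h1 : G.A1 Z) {v : V} (hS : ↑S ⊆ Z) (hv : v ∈ Z) (hvS : v ∉ S) :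
    G.dl (insert v S) ≤ G.dl S + G.wt v - 100 * G.qd v S + G.qd v S * (G.qd v S - 1) := by
  rw [dl_insert hvS]
  have nn1 : (0 : ℤ) ≤ ((S.filter fun b => G.E v b).card : ℤ) := by positivity
  have nn2 : (0 : ℤ) ≤ ((S.filter fun b => G.E b v).card : ℤ) := by positivity
  have nn3 : (0 : ℤ) ≤ ((S.filter fun b => G.R v b).card : ℤ) := by positivity
  have nn4 : (0 : ℤ) ≤ ((S.filter fun b => G.R b v).card : ℤ) := by positivity
  rcases hc : G.col v with _ | _ | _
  · -- colour D
    have z1 : (∑ b ∈ S, ∑ c ∈ S, if G.Tri v b c then (1 : ℤ) else 0) = 0 := by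
      apply Finset.sum_eq_zero; intro b _; apply Finset.sum_eq_zero; intro c _
      rw [if_neg]; rintro ⟨h, -, -⟩
      have := hc.symm.trans h.1; cases this
    have z2 : (∑ b ∈ S, ∑ c ∈ S, if G.Tri b v c then (1 : ℤ) else 0) = 0 := by
      apply Finset.sum_eq_zero; intro b _; apply Finset.sum_eq_zero; intro c _
      rw [if_neg]; rintro ⟨h, -, -⟩
      have := hc.symm.trans h.2.1; cases this
    have z3 : (∑ b ∈ S, ∑ c ∈ S, if G.Tri b c v then (1 : ℤ) else 0) = 0 := by
      apply Finset.sum_eq_zero; intro b _; apply Finset.sum_eq_zero; intro c _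
      rw [if_neg]; rintro ⟨-, h, -⟩
      have := hc.symm.trans h.2.1; cases this
    rw [z1, z2, z3, qd_D hc]
    push_cast
    linarith
  · -- colour X
    have z3 : (∑ b ∈ S, ∑ c ∈ S, if G.Tri b c v then (1 : ℤ) else 0) = 0 := by
      apply Finset.sum_eq_zero; intro b _; apply Finset.sum_eq_zero; intro c _
      rw [if_neg]; rintro ⟨-, h, -⟩
      have := hc.symm.trans h.2.1; cases this
    have k1 := lines_bound (G := G) (B := S.filter fun b => G.R v b) h1 hS hv
      (Finset.filter_subset _ _) (by simp [hvS])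
    have k2 := lines_bound (G := G) (B := S.filter fun b => G.R b v) h1 hS hv
      (Finset.filter_subset _ _) (by simp [hvS])
    have e1 : (∑ b ∈ S, ∑ c ∈ S, if G.Tri v b c then (1 : ℤ) else 0) =
        ((∑ b ∈ S.filter fun b => G.R v b,
          ((S.filter fun l => G.Q v l).filter fun l => G.Q b l).card : ℕ) : ℤ) := by
      exact sum_ite_and (fun b c => G.Tri v b c) _ _ _ S fun b c => Iff.rfl
    have e2 : (∑ b ∈ S, ∑ c ∈ S, if G.Tri b v c then (1 : ℤ) else 0) =
        ((∑ b ∈ S.filter fun b => G.R b v,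
          ((S.filter fun l => G.Q v l).filter fun l => G.Q b l).card : ℕ) : ℤ) := by
      exact sum_ite_and (fun b c => G.Tri b v c) _ _ _ S fun b c => by
        unfold Tri; tauto
    rw [← qd_X hc] at k1 k2
    have hq : G.qd v S ≤ G.qd v S * G.qd v S := Nat.le_mul_self _
    have k1' : 2 * ((∑ b ∈ S.filter fun b => G.R v b,
          ((S.filter fun l => G.Q v l).filter fun l => G.Q b l).card : ℕ) : ℤ) ≤
        2 * ((S.filter fun b => G.R v b).card : ℤ) + (G.qd v S * G.qd v S - G.qd v S) := by
      have := (Nat.cast_le (α := ℤ)).2 k1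
      push_cast [Nat.cast_sub hq] at this ⊢
      linarith
    have k2' : 2 * ((∑ b ∈ S.filter fun b => G.R b v,
          ((S.filter fun l => G.Q v l).filter fun l => G.Q b l).card : ℕ) : ℤ) ≤
        2 * ((S.filter fun b => G.R b v).card : ℤ) + (G.qd v S * G.qd v S - G.qd v S) := by
      have := (Nat.cast_le (α := ℤ)).2 k2
      push_cast [Nat.cast_sub hq] at this ⊢
      linarith
    rw [e1, e2, z3]
    nlinarith
  · -- colour L
    have z1 : (∑ b ∈ S, ∑ c ∈ S, if G.Tri v b c then (1 : ℤ) else 0) = 0 := by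
      apply Finset.sum_eq_zero; intro b _; apply Finset.sum_eq_zero; intro c _
      rw [if_neg]; rintro ⟨h, -, -⟩
      have := hc.symm.trans h.1; cases this
    have z2 : (∑ b ∈ S, ∑ c ∈ S, if G.Tri b v c then (1 : ℤ) else 0) = 0 := by
      apply Finset.sum_eq_zero; intro b _; apply Finset.sum_eq_zero; intro c _
      rw [if_neg]; rintro ⟨h, -, -⟩
      have := hc.symm.trans h.2.1; cases this
    have e3 : (∑ b ∈ S, ∑ c ∈ S, if G.Tri b c v then (1 : ℤ) else 0) ≤
        (((S.filter fun a => G.Q a v).offDiag.card : ℕ) : ℤ) := by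
      have : (∑ b ∈ S, ∑ c ∈ S, if G.Tri b c v then (1 : ℤ) else 0) =
          ((((S ×ˢ S).filter fun p => G.Tri p.1 p.2 v).card : ℕ) : ℤ) := by
        rw [Finset.card_filter, Finset.sum_product]
        push_cast
        rfl
      rw [this]
      norm_cast
      apply Finset.card_le_card
      rintro ⟨b, c⟩ hp
      simp only [Finset.mem_filter, Finset.mem_product, Finset.mem_offDiag, Tri] at hp ⊢
      exact ⟨⟨hp.1.1, hp.2.2.1⟩, ⟨hp.1.2, hp.2.2.2⟩, hp.2.1.2.2.1⟩
    rw [Finset.offDiag_card, ← qd_L hc] at e3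
    have hq : G.qd v S ≤ G.qd v S * G.qd v S := Nat.le_mul_self _
    push_cast [Nat.cast_sub hq] at e3
    rw [z1, z2]
    nlinarith

end Str
end Run7.h540
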