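import Pool.Agent.Run7.h540.A1b

/-! Submodularity. -/

namespace Run7.h540
open Classical
namespace Str

variable {V : Type} [DecidableEq V] {G : Str V} {Z : Set V} {A B C S T H : Finset V}

theorem edges_le (h2 : G.A2 Z) : ∀ (n : ℕ) (F : Finset V), F.card = n → ↑F ⊆ Z →
    G.eQ F ≤ 5 * F.card := by
  intro n
  induction n with
  | zero =>
    intro F hF _
    rw [Finset.card_eq_zero] at hF
    subst hF
    simp [eQ]
  | succ n ih =>
    intro F hF hZ
    obtain ⟨v, hv, h5⟩ := h2 F hZ (Finset.card_pos.1 (by omega))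
    have hc : (F.erase v).card = n := by rw [Finset.card_erase_of_mem hv]; omega
    have h := ih (F.erase v) hc (fun x hx => hZ (Finset.mem_of_mem_erase hx))
    have e : G.eQ F = G.eQ (F.erase v) + G.qd v (F.erase v) := by
      conv_lhs => rw [← Finset.insert_erase hv]
      exact eQ_insert (Finset.notMem_erase v F)
    have h6 : G.qd v (F.erase v) ≤ G.qd v F :=
      Finset.card_le_card (Finset.filter_subset_filter _ (Finset.erase_subset v F))
    rw [e]
    omega

omit [DecidableEq V] in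
theorem PC.line_unique (hA : G.PC A Z) {b : V} (hb : b ∈ Z) (hbA : b ∉ A) {l l' : V}
    (hl : l ∈ A) (hl' : l' ∈ A) (h : G.Q b l) (h' : G.Q b l') : l = l' := by
  have := hA.2 b hb hbA
  rw [thr_X h.1, qd_X h.1, Finset.card_le_one] at this
  exact this l (by simp [hl, h]) l' (by simp [hl', h'])

theorem PC.pts (hA : G.PC A Z) {l : V} (hl : l ∈ Z) (hlA : l ∉ A) {a b b' : V}
    (ha : a ∈ A) (hb : b ∈ A) (hb' : b' ∈ A) (h : G.Q a l) (h1 : G.Q b l) (h2 : G.Q b' l)
    (hab : a ≠ b) (hab' : a ≠ b') : b = b' := by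
  have := hA.2 l hl hlA
  rw [thr_L h.2.1, qd_L h.2.1] at this
  by_contra hne
  have h3 : ({a, b, b'} : Finset V).card = 3 := by
    rw [Finset.card_eq_three]
    exact ⟨a, b, b', hab, hab', hne, rfl⟩
  have h4 : ({a, b, b'} : Finset V) ⊆ A.filter fun a => G.Q a l := by
    intro x hx
    simp only [Finset.mem_insert, Finset.mem_singleton] at hx
    rw [Finset.mem_filter]
    rcases hx with rfl | rfl | rfl
    · exact ⟨ha, h⟩
    · exact ⟨hb, h1⟩
    · exact ⟨hb', h2⟩
  have := Finset.card_le_card h4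
  omega

theorem A1.three (h1 : G.A1 Z) {l l' a b c : V} (hl : l ∈ Z) (hl' : l' ∈ Z) (hne : l ≠ l')
    (ha : a ∈ Z) (hb : b ∈ Z) (hc : c ∈ Z) (hab : a ≠ b) (hac : a ≠ c)
    (q1 : G.Q a l) (q2 : G.Q a l') (q3 : G.Q b l) (q4 : G.Q b l') (q5 : G.Q c l)
    (q6 : G.Q c l') : b = c := by
  by_contra hbc
  have := h1 l hl l' hl' hne {a, b, c} (by
    intro x hx
    simp only [Finset.coe_insert, Finset.coe_singleton, Set.mem_insert_iff,
      Set.mem_singleton_iff] at hx
    rcases hx with rfl | rfl | rfl <;> assumption) (by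
    intro x hx
    simp only [Finset.mem_insert, Finset.mem_singleton] at hx
    rcases hx with rfl | rfl | rfl
    · exact ⟨q1, q2⟩
    · exact ⟨q3, q4⟩
    · exact ⟨q5, q6⟩)
  have h3 : ({a, b, c} : Finset V).card = 3 := by
    rw [Finset.card_eq_three]
    exact ⟨a, b, c, hab, hac, hbc, rfl⟩
  omega

/-- pairs joined by two crossing lines -/
noncomputable def dbl (G : Str V) (A B : Finset V) : Finset (V × V) :=
  ((A \ B) ×ˢ (B \ A)).filter fun p => ∃ l ∈ A \ B, ∃ l' ∈ B \ A,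
    G.Q p.1 l ∧ G.Q p.2 l ∧ G.Q p.1 l' ∧ G.Q p.2 l'

theorem dbl_le (h1 : G.A1 Z) (h2 : G.A2 Z) (hA : G.PC A Z) (hB : G.PC B Z) :
    (dbl G A B).card ≤ 10 * (x2 G.Q A B).card := by
  set Pa := (A \ B).filter fun a => ∃ l' ∈ B \ A, G.Q a l' with hPa
  set C1 := (A \ B).filter fun l => ∃ b ∈ B \ A, G.Q b l with hC1
  have ePa : Pa.card ≤ (x2 G.Q A B).card := by
    refine le_trans (Finset.card_le_card (t := (x2 G.Q A B).image Prod.fst) ?_)
      Finset.card_image_le
    intro a ha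
    rw [hPa, Finset.mem_filter] at ha
    obtain ⟨ha, l', hl', hq⟩ := ha
    rw [Finset.mem_image]
    refine ⟨(a, l'), ?_, rfl⟩
    simp only [x2, Finset.mem_filter, Finset.mem_product, Finset.mem_union, Finset.mem_sdiff]
      at ha hl' ⊢
    tauto
  have eC1 : C1.card ≤ (x2 G.Q A B).card := by
    refine le_trans (Finset.card_le_card (t := (x2 G.Q A B).image Prod.snd) ?_)
      Finset.card_image_le
    intro l hl
    rw [hC1, Finset.mem_filter] at hl
    obtain ⟨hl, b, hb, hq⟩ := hl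
    rw [Finset.mem_image]
    refine ⟨(b, l), ?_, rfl⟩
    simp only [x2, Finset.mem_filter, Finset.mem_product, Finset.mem_union, Finset.mem_sdiff]
      at hl hb ⊢
    tauto
  have hF : ↑(Pa ∪ C1) ⊆ Z := by
    intro x hx
    rw [Finset.mem_coe, Finset.mem_union] at hx
    rcases hx with hx | hx
    · exact hA.1 (Finset.mem_coe.2 (Finset.mem_sdiff.1 (Finset.mem_filter.1 hx).1).1)
    · exact hA.1 (Finset.mem_coe.2 (Finset.mem_sdiff.1 (Finset.mem_filter.1 hx).1).1)
  have hE := edges_le h2 _ (Pa ∪ C1) rfl hF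
  have hU : (Pa ∪ C1).card ≤ 2 * (x2 G.Q A B).card := by
    have := Finset.card_union_le Pa C1
    omega
  have hP : (dbl G A B).card ≤ G.eQ (Pa ∪ C1) := by
    set c1 : V → V := fun b => if h : ∃ l ∈ A \ B, G.Q b l then h.choose else b with hc1
    have hc1' : ∀ b, (∃ l ∈ A \ B, G.Q b l) → c1 b ∈ A \ B ∧ G.Q b (c1 b) := by
      intro b hb
      simp only [hc1, dif_pos hb]
      exact hb.choose_spec
    unfold eQ
    apply Finset.card_le_card_of_injOn (fun p => (p.1, c1 p.2))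
    · rintro ⟨a, b⟩ hp
      simp only [Finset.mem_coe, dbl, Finset.mem_filter, Finset.mem_product] at hp
      obtain ⟨⟨ha, hb⟩, l, hl, l', hl', q1, q2, q3, q4⟩ := hp
      have hc := hc1' b ⟨l, hl, q2⟩
      have hbZ : b ∈ Z := hB.1 (Finset.mem_sdiff.1 hb).1
      have hbA : b ∉ A := (Finset.mem_sdiff.1 hb).2
      have e : c1 b = l := hA.line_unique hbZ hbA (Finset.mem_sdiff.1 hc.1).1
        (Finset.mem_sdiff.1 hl).1 hc.2 q2
      simp only [Finset.coe_filter, Set.mem_ofPred_eq, Finset.mem_product, Finset.mem_union]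
      rw [e]
      refine ⟨⟨Or.inl ?_, Or.inr ?_⟩, q1⟩
      · rw [hPa, Finset.mem_filter]; exact ⟨ha, l', hl', q3⟩
      · rw [hC1, Finset.mem_filter]; exact ⟨hl, b, hb, q2⟩
    · rintro ⟨a, b⟩ hp ⟨a', b'⟩ hp' heq
      simp only [Finset.mem_coe, dbl, Finset.mem_filter, Finset.mem_product] at hp hp'
      simp only [Prod.mk.injEq] at heq
      obtain ⟨rfl, heq⟩ := heq
      obtain ⟨⟨ha, hb⟩, l, hl, l', hl', q1, q2, q3, q4⟩ := hp
      obtain ⟨⟨_, hb'⟩, m, hm, m', hm', r1, r2, r3, r4⟩ := hp'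
      have hc := hc1' b ⟨l, hl, q2⟩
      have hc' := hc1' b' ⟨m, hm, r2⟩
      have hbZ : b ∈ Z := hB.1 (Finset.mem_sdiff.1 hb).1
      have hbA : b ∉ A := (Finset.mem_sdiff.1 hb).2
      have hbZ' : b' ∈ Z := hB.1 (Finset.mem_sdiff.1 hb').1
      have hbA' : b' ∉ A := (Finset.mem_sdiff.1 hb').2
      have e : c1 b = l := hA.line_unique hbZ hbA (Finset.mem_sdiff.1 hc.1).1
        (Finset.mem_sdiff.1 hl).1 hc.2 q2
      have e' : c1 b' = m := hA.line_unique hbZ' hbA' (Finset.mem_sdiff.1 hc'.1).1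
        (Finset.mem_sdiff.1 hm).1 hc'.2 r2
      have elm : l = m := by rw [← e, ← e', heq]
      subst elm
      have haZ : a ∈ Z := hA.1 (Finset.mem_sdiff.1 ha).1
      have haB : a ∉ B := (Finset.mem_sdiff.1 ha).2
      have em : l' = m' := hB.line_unique haZ haB (Finset.mem_sdiff.1 hl').1
        (Finset.mem_sdiff.1 hm').1 q3 r3
      subst em
      have hne : l ≠ l' := fun h => (Finset.mem_sdiff.1 hl').2 (h ▸ (Finset.mem_sdiff.1 hl).1)
      have hab : a ≠ b := fun h => hbA (h ▸ (Finset.mem_sdiff.1 ha).1)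
      have hab' : a ≠ b' := fun h => hbA' (h ▸ (Finset.mem_sdiff.1 ha).1)
      have := h1.three (hA.1 (Finset.mem_sdiff.1 hl).1) (hB.1 (Finset.mem_sdiff.1 hl').1) hne
        haZ hbZ hbZ' hab hab' q1 q3 q2 q4 r2 r4
      rw [this]
  omega

/-- triangles with a crossing pair -/
theorem t1_le (hA : G.PC A Z) (hB : G.PC B Z) :
    ((x3 G.Tri A B).filter fun p => (p.1, p.2.1) ∈ x2 G.R A B).card ≤
      (x2 G.R A B).card + 2 * (dbl G A B).card := by
  set T1 := (x3 G.Tri A B).filter fun p => (p.1, p.2.1) ∈ x2 G.R A B with hT1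
  set P' := (x2 G.R A B).filter fun p => p ∈ dbl G A B ∨ p.swap ∈ dbl G A B with hP'
  have hP'c : P'.card ≤ 2 * (dbl G A B).card := by
    have : P' ⊆ dbl G A B ∪ (dbl G A B).image Prod.swap := by
      intro p hp
      rw [hP', Finset.mem_filter] at hp
      rw [Finset.mem_union, Finset.mem_image]
      rcases hp.2 with h | h
      · exact Or.inl h
      · exact Or.inr ⟨_, h, Prod.swap_swap p⟩
    have h1 := Finset.card_le_card this
    have h2 := Finset.card_union_le (dbl G A B) ((dbl G A B).image Prod.swap)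
    have h3 : ((dbl G A B).image Prod.swap).card ≤ (dbl G A B).card := Finset.card_image_le
    omega
  have hmap : ∀ p ∈ T1, (p.1, p.2.1) ∈ x2 G.R A B := fun p hp => (Finset.mem_filter.1 hp).2
  rw [Finset.card_eq_sum_card_fiberwise hmap]
  have hfib : ∀ p ∈ x2 G.R A B, (T1.filter fun q => (q.1, q.2.1) = p).card ≤
      1 + (if p ∈ P' then 1 else 0) := by
    rintro ⟨a, b⟩ hab
    set N := (A ∪ B).filter fun l => G.Q a l ∧ G.Q b l with hN
    have hle : (T1.filter fun q => (q.1, q.2.1) = (a, b)).card ≤ N.card := by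
      apply Finset.card_le_card_of_injOn (fun q => q.2.2)
      · rintro ⟨a', b', l⟩ hq
        simp only [Finset.mem_coe, Finset.mem_filter, hT1, x3, Finset.mem_product,
          Prod.mk.injEq] at hq
        obtain ⟨⟨⟨h1, h2, h3⟩, _⟩, rfl, rfl⟩ := hq
        simp only [hN, Finset.coe_filter, Set.mem_ofPred_eq]
        exact ⟨h1.2.2, h2.2.1, h2.2.2⟩
      · rintro ⟨a', b', l⟩ hq ⟨a'', b'', l'⟩ hq' heq
        simp only [Finset.mem_coe, Finset.mem_filter, Prod.mk.injEq] at hq hq' heq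
        obtain ⟨_, rfl, rfl⟩ := hq
        obtain ⟨_, rfl, rfl⟩ := hq'
        rw [heq]
    refine le_trans hle ?_
    by_cases hN1 : N.card ≤ 1
    · exact le_trans hN1 (Nat.le_add_right _ _)
    · obtain ⟨l, hl, l', hl', hne⟩ := Finset.one_lt_card.1 (by omega : 1 < N.card)
      have hab' := hab
      simp only [x2, Finset.mem_filter, Finset.mem_product, Finset.mem_union] at hab'
      obtain ⟨⟨haG, hbG⟩, hR, hnA, hnB⟩ := hab'
      simp only [hN, Finset.mem_filter, Finset.mem_union] at hl hl'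
      -- uniqueness
      have key : ∀ a b : V, a ∈ A → a ∉ B → b ∈ B → b ∉ A →
          (∀ l l', l ∈ A → l' ∈ A → G.Q b l → G.Q b l' → l = l') ∧
          (∀ l l', l ∈ B → l' ∈ B → G.Q a l → G.Q a l' → l = l') := by
        intro a b ha ha' hb hb'
        exact ⟨fun l l' h1 h2 h3 h4 => hA.line_unique (hB.1 hb) hb' h1 h2 h3 h4,
          fun l l' h1 h2 h3 h4 => hB.line_unique (hA.1 ha) ha' h1 h2 h3 h4⟩
      have main : N.card ≤ 2 ∧ ((a, b) ∈ dbl G A B ∨ (b, a) ∈ dbl G A B) := by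
        have cases : (a ∈ A ∧ a ∉ B ∧ b ∈ B ∧ b ∉ A) ∨ (a ∈ B ∧ a ∉ A ∧ b ∈ A ∧ b ∉ B) := by
          tauto
        rcases cases with ⟨c1, c2, c3, c4⟩ | ⟨c1, c2, c3, c4⟩
        · obtain ⟨uA, uB⟩ := key a b c1 c2 c3 c4
          have hsep : (l ∈ A ∧ l ∉ B ∧ l' ∈ B ∧ l' ∉ A) ∨ (l' ∈ A ∧ l' ∉ B ∧ l ∈ B ∧ l ∉ A) := by
            have x1 : ¬ (l ∈ A ∧ l' ∈ A) := fun h => hne (uA _ _ h.1 h.2 hl.2.2 hl'.2.2)
            have x2 : ¬ (l ∈ B ∧ l' ∈ B) := fun h => hne (uB _ _ h.1 h.2 hl.2.1 hl'.2.1)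
            tauto
          constructor
          · have : N ⊆ {l, l'} := by
              intro m hm
              simp only [hN, Finset.mem_filter, Finset.mem_union] at hm
              rw [Finset.mem_insert, Finset.mem_singleton]
              rcases hsep with hs | hs
              · rcases hm.1 with h | h
                · exact Or.inl (uA _ _ h hs.1 hm.2.2 hl.2.2)
                · exact Or.inr (uB _ _ h hs.2.2.1 hm.2.1 hl'.2.1)
              · rcases hm.1 with h | h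
                · exact Or.inr (uA _ _ h hs.1 hm.2.2 hl'.2.2)
                · exact Or.inl (uB _ _ h hs.2.2.1 hm.2.1 hl.2.1)
            exact le_trans (Finset.card_le_card this) Finset.card_le_two
          · left
            simp only [dbl, Finset.mem_filter, Finset.mem_product, Finset.mem_sdiff]
            rcases hsep with hs | hs
            · exact ⟨⟨⟨c1, c2⟩, c3, c4⟩, l, ⟨hs.1, hs.2.1⟩, l', hs.2.2, hl.2.1, hl.2.2,
                hl'.2.1, hl'.2.2⟩
            · exact ⟨⟨⟨c1, c2⟩, c3, c4⟩, l', ⟨hs.1, hs.2.1⟩, l, hs.2.2, hl'.2.1, hl'.2.2,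
                hl.2.1, hl.2.2⟩
        · obtain ⟨uA, uB⟩ := key b a c3 c4 c1 c2
          have hsep : (l ∈ A ∧ l ∉ B ∧ l' ∈ B ∧ l' ∉ A) ∨ (l' ∈ A ∧ l' ∉ B ∧ l ∈ B ∧ l ∉ A) := by
            have x1 : ¬ (l ∈ A ∧ l' ∈ A) := fun h => hne (uA _ _ h.1 h.2 hl.2.1 hl'.2.1)
            have x2 : ¬ (l ∈ B ∧ l' ∈ B) := fun h => hne (uB _ _ h.1 h.2 hl.2.2 hl'.2.2)
            tauto
          constructor
          · have : N ⊆ {l, l'} := by
              intro m hm
              simp only [hN, Finset.mem_filter, Finset.mem_union] at hm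
              rw [Finset.mem_insert, Finset.mem_singleton]
              rcases hsep with hs | hs
              · rcases hm.1 with h | h
                · exact Or.inl (uA _ _ h hs.1 hm.2.1 hl.2.1)
                · exact Or.inr (uB _ _ h hs.2.2.1 hm.2.2 hl'.2.2)
              · rcases hm.1 with h | h
                · exact Or.inr (uA _ _ h hs.1 hm.2.1 hl'.2.1)
                · exact Or.inl (uB _ _ h hs.2.2.1 hm.2.2 hl.2.2)
            exact le_trans (Finset.card_le_card this) Finset.card_le_two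
          · right
            simp only [dbl, Finset.mem_filter, Finset.mem_product, Finset.mem_sdiff]
            rcases hsep with hs | hs
            · exact ⟨⟨⟨c3, c4⟩, c1, c2⟩, l, ⟨hs.1, hs.2.1⟩, l', hs.2.2, hl.2.2, hl.2.1,
                hl'.2.2, hl'.2.1⟩
            · exact ⟨⟨⟨c3, c4⟩, c1, c2⟩, l', ⟨hs.1, hs.2.1⟩, l, hs.2.2, hl'.2.2, hl'.2.1,
                hl.2.2, hl.2.1⟩
      have hmem : (a, b) ∈ P' := by
        rw [hP', Finset.mem_filter]
        exact ⟨hab, main.2⟩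
      rw [if_pos hmem]
      exact main.1
  refine le_trans (Finset.sum_le_sum hfib) ?_
  rw [Finset.sum_add_distrib, Finset.sum_const, smul_eq_mul, mul_one, ← Finset.card_filter]
  have : ((x2 G.R A B).filter fun p => p ∈ P').card ≤ P'.card := by
    apply Finset.card_le_card
    intro p hp
    exact (Finset.mem_filter.1 hp).2
  omega

/-- triangles whose pair does not cross -/
theorem t2_le (hA : G.PC A Z) (hB : ↑B ⊆ Z) :
    ((A ×ˢ (A ×ˢ (B \ A))).filter fun p => G.Tri p.1 p.2.1 p.2.2 ∧ (p.1 ∉ B ∨ p.2.1 ∉ B)).card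
      ≤ 2 * (((A \ B) ×ˢ (B \ A)).filter fun p => G.Q p.1 p.2).card := by
  set W := ((A \ B) ×ˢ (B \ A)).filter fun p => G.Q p.1 p.2 with hW
  set X1 := (A ×ˢ (A ×ˢ (B \ A))).filter fun p => G.Tri p.1 p.2.1 p.2.2 ∧ p.1 ∉ B with hX1
  set X2 := (A ×ˢ (A ×ˢ (B \ A))).filter fun p => G.Tri p.1 p.2.1 p.2.2 ∧ p.2.1 ∉ B with hX2
  have e : (A ×ˢ (A ×ˢ (B \ A))).filter (fun p => G.Tri p.1 p.2.1 p.2.2 ∧
      (p.1 ∉ B ∨ p.2.1 ∉ B)) ⊆ X1 ∪ X2 := by
    intro p hp
    simp only [hX1, hX2, Finset.mem_union, Finset.mem_filter] at hp ⊢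
    tauto
  have c1 : X1.card ≤ W.card := by
    apply Finset.card_le_card_of_injOn (fun p => (p.1, p.2.2))
    · rintro ⟨a, b, l⟩ hp
      simp only [hX1, hW, Finset.mem_coe, Finset.mem_filter, Finset.mem_product, Tri,
        Finset.mem_sdiff] at hp ⊢
      tauto
    · rintro ⟨a, b, l⟩ hp ⟨a', b', l'⟩ hp' heq
      simp only [hX1, Finset.mem_coe, Finset.mem_filter, Finset.mem_product, Tri,
        Finset.mem_sdiff] at hp hp'
      simp only [Prod.mk.injEq] at heq
      obtain ⟨rfl, rfl⟩ := heq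
      have := hA.pts (hB hp.1.2.2.1) hp.1.2.2.2 hp.1.1 hp.1.2.1 hp'.1.2.1 hp.2.1.2.1
        hp.2.1.2.2 hp'.2.1.2.2 hp.2.1.1.2.2.1 hp'.2.1.1.2.2.1
      rw [this]
  have c2 : X2.card ≤ W.card := by
    apply Finset.card_le_card_of_injOn (fun p => (p.2.1, p.2.2))
    · rintro ⟨a, b, l⟩ hp
      simp only [hX2, hW, Finset.mem_coe, Finset.mem_filter, Finset.mem_product, Tri,
        Finset.mem_sdiff] at hp ⊢
      tauto
    · rintro ⟨a, b, l⟩ hp ⟨a', b', l'⟩ hp' heq
      simp only [hX2, Finset.mem_coe, Finset.mem_filter, Finset.mem_product, Tri,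
        Finset.mem_sdiff] at hp hp'
      simp only [Prod.mk.injEq] at heq
      obtain ⟨rfl, rfl⟩ := heq
      have := hA.pts (hB hp.1.2.2.1) hp.1.2.2.2 hp.1.2.1 hp.1.1 hp'.1.1 hp.2.1.2.2
        hp.2.1.2.1 hp'.2.1.2.1 hp.2.1.1.2.2.1.symm hp'.2.1.1.2.2.1.symm
      rw [this]
  have := Finset.card_le_card e
  have := Finset.card_union_le X1 X2
  omega

/-- submodularity, with the number of crossing incidences -/
theorem dl_sub (h1 : G.A1 Z) (h2 : G.A2 Z) (hA : G.PC A Z) (hB : G.PC B Z) :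
    G.dl (A ∪ B) + G.dl (A ∩ B) + (G.cr (A \ B) (B \ A) : ℤ) ≤ G.dl A + G.dl B := by
  have uE := c2_union G.E A B
  have uQ := c2_union G.Q A B
  have uR := c2_union G.R A B
  have uT := c3_union G.Tri A B
  have uW : (∑ v ∈ A ∪ B, G.wt v) + (∑ v ∈ A ∩ B, G.wt v) = (∑ v ∈ A, G.wt v) + ∑ v ∈ B, G.wt v :=
    Finset.sum_union_inter
  set c := (x2 G.Q A B).card with hc
  have w1 : (((A \ B) ×ˢ (B \ A)).filter fun p => G.Q p.1 p.2).card ≤ c := by
    apply Finset.card_le_card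
    rintro ⟨a, b⟩ hp
    simp only [x2, Finset.mem_filter, Finset.mem_product, Finset.mem_union, Finset.mem_sdiff]
      at hp ⊢
    tauto
  have w2 : (((B \ A) ×ˢ (A \ B)).filter fun p => G.Q p.1 p.2).card ≤ c := by
    apply Finset.card_le_card
    rintro ⟨a, b⟩ hp
    simp only [x2, Finset.mem_filter, Finset.mem_product, Finset.mem_union, Finset.mem_sdiff]
      at hp ⊢
    tauto
  have hcr : G.cr (A \ B) (B \ A) ≤ c := by
    unfold cr
    apply Finset.card_le_card_of_injOn (fun p => if G.Q p.1 p.2 then p else p.swap)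
    · rintro ⟨a, b⟩ hp
      simp only [Finset.mem_coe, Finset.mem_filter, Finset.mem_product, Finset.mem_sdiff] at hp
      by_cases hq : G.Q a b
      · simp only [hq, if_true, x2, Finset.mem_coe, Finset.mem_filter, Finset.mem_product,
          Finset.mem_union]
        tauto
      · simp only [hq, if_false, x2, Finset.mem_coe, Finset.mem_filter, Finset.mem_product,
          Finset.mem_union, Prod.swap_prod_mk]
        tauto
    · rintro ⟨a, b⟩ hp ⟨a', b'⟩ hp' heq
      simp only [Finset.mem_coe, Finset.mem_filter, Finset.mem_product, Finset.mem_sdiff]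
        at hp hp'
      by_cases hq : G.Q a b <;> by_cases hq' : G.Q a' b' <;>
        simp only [hq, hq', if_true, if_false, Prod.swap_prod_mk, Prod.mk.injEq] at heq
      · rw [heq.1, heq.2]
      · exact absurd (heq.1 ▸ hp.1.1.1) hp'.1.2.2
      · exact absurd (heq.2 ▸ hp.1.1.1) hp'.1.2.2
      · rw [heq.1, heq.2]
  have hdbl := dbl_le h1 h2 hA hB
  have ht1 := t1_le hA hB
  have ht2 := t2_le hA hB.1
  have ht3 := t2_le hB hA.1
  have hT : (x3 G.Tri A B).card ≤ (x2 G.R A B).card + 24 * c := by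
    have hsub : x3 G.Tri A B ⊆ ((x3 G.Tri A B).filter fun p => (p.1, p.2.1) ∈ x2 G.R A B) ∪
        (((A ×ˢ (A ×ˢ (B \ A))).filter fun p =>
          G.Tri p.1 p.2.1 p.2.2 ∧ (p.1 ∉ B ∨ p.2.1 ∉ B)) ∪
        ((B ×ˢ (B ×ˢ (A \ B))).filter fun p =>
          G.Tri p.1 p.2.1 p.2.2 ∧ (p.1 ∉ A ∨ p.2.1 ∉ A))) := by
      rintro ⟨a, b, l⟩ hp
      have hp0 := hp
      simp only [x3, Finset.mem_filter, Finset.mem_product, Finset.mem_union] at hp
      obtain ⟨⟨ha, hb, hl⟩, ht, hnA, hnB⟩ := hp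
      have hR : G.R a b := ht.1
      simp only [Finset.mem_union, Finset.mem_filter, Finset.mem_product, Finset.mem_sdiff,
        hp0, true_and]
      by_cases hx : (a ∈ A ∧ b ∈ A) ∨ (a ∈ B ∧ b ∈ B)
      · right
        tauto
      · left
        simp only [x2, Finset.mem_filter, Finset.mem_product, Finset.mem_union]
        tauto
    have h3 := Finset.card_le_card hsub
    have h4 := Finset.card_union_le ((x3 G.Tri A B).filter fun p => (p.1, p.2.1) ∈ x2 G.R A B)
        (((A ×ˢ (A ×ˢ (B \ A))).filter fun p =>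
          G.Tri p.1 p.2.1 p.2.2 ∧ (p.1 ∉ B ∨ p.2.1 ∉ B)) ∪
        ((B ×ˢ (B ×ˢ (A \ B))).filter fun p =>
          G.Tri p.1 p.2.1 p.2.2 ∧ (p.1 ∉ A ∨ p.2.1 ∉ A)))
    have h5 := Finset.card_union_le ((A ×ˢ (A ×ˢ (B \ A))).filter fun p =>
          G.Tri p.1 p.2.1 p.2.2 ∧ (p.1 ∉ B ∨ p.2.1 ∉ B))
        ((B ×ˢ (B ×ˢ (A \ B))).filter fun p =>
          G.Tri p.1 p.2.1 p.2.2 ∧ (p.1 ∉ A ∨ p.2.1 ∉ A))
    omega
  unfold dl
  simp only [eE_eq, eQ_eq, eR_eq, tr_eq]
  zify at uE uQ uR uT hcr hT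
  have hnE : (0 : ℤ) ≤ ((x2 G.E A B).card : ℤ) := by positivity
  have hnc : (0 : ℤ) ≤ (c : ℤ) := by positivity
  linarith

end Str
end Run7.h540
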