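import Pool.Agent.Run7.h540.A1c

/-! P-closed sets, growth, degeneracy. -/

namespace Run7.h540
open Classical
namespace Str

variable {V : Type} [DecidableEq V] {G : Str V} {Z : Set V} {A B C S T H : Finset V}

omit [DecidableEq V] in
theorem qd_mono (v : V) (h : S ⊆ T) : G.qd v S ≤ G.qd v T :=
  Finset.card_le_card (Finset.filter_subset_filter _ h)

omit [DecidableEq V] in
theorem thr_le (v : V) : G.thr v ≤ 2 := by
  unfold thr; split <;> omega

theorem PC.inter (hA : G.PC A Z) (hB : G.PC B Z) : G.PC (A ∩ B) Z := by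
  refine ⟨fun x hx => hA.1 (Finset.mem_inter.1 hx).1, fun v hv hvn => ?_⟩
  by_cases h : v ∈ A
  · have h' : v ∉ B := fun h' => hvn (Finset.mem_inter.2 ⟨h, h'⟩)
    exact (qd_mono v Finset.inter_subset_right).trans (hB.2 v hv h')
  · exact (qd_mono v Finset.inter_subset_left).trans (hA.2 v hv h)

omit [DecidableEq V] in
theorem PC.trans (hA : G.PC A ↑B) (hB : G.PC B Z) : G.PC A Z := by
  refine ⟨fun x hx => hB.1 (hA.1 hx), fun v hv hvn => ?_⟩
  by_cases h : v ∈ B
  · exact hA.2 v h hvn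
  · exact (qd_mono v (Finset.coe_subset.1 hA.1)).trans (hB.2 v hv h)

omit [DecidableEq V] in
theorem PC.mono {Y : Set V} (hA : G.PC A Z) (hY : Y ⊆ Z) (h : ↑A ⊆ Y) : G.PC A Y :=
  ⟨h, fun v hv hvn => hA.2 v (hY hv) hvn⟩

omit [DecidableEq V] in
theorem PC.self (A : Finset V) : G.PC A ↑A :=
  ⟨le_rfl, fun _ hv hvn => absurd hv hvn⟩

omit [DecidableEq V] in
theorem PC.empty (Z : Set V) : G.PC ∅ Z :=
  ⟨by simp, fun v _ _ => by simp [qd]⟩

theorem exists_isP (h : ∃ H, G.PC H Z ∧ S ⊆ H) : ∃ H, G.IsP S H Z := by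
  obtain ⟨H0, h0, hS0⟩ := h
  obtain ⟨H, hH, hmin⟩ := Finset.exists_min_image
    (H0.powerset.filter fun H => G.PC H Z ∧ S ⊆ H) Finset.card
    ⟨H0, by simp only [Finset.mem_filter, Finset.mem_powerset]; exact ⟨Finset.Subset.refl _, h0, hS0⟩⟩
  simp only [Finset.mem_filter, Finset.mem_powerset] at hH hmin
  refine ⟨H, hH.2.1, hH.2.2, fun H' h' hS' => ?_⟩
  have := hmin (H ∩ H') ⟨Finset.inter_subset_left.trans hH.1, hH.2.1.inter h',
    Finset.subset_inter hH.2.2 hS'⟩
  have e : H ∩ H' = H := Finset.eq_of_subset_of_card_le Finset.inter_subset_left this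
  rw [← e]
  exact Finset.inter_subset_right

theorem qd_union (v : V) (h : Disjoint S T) : G.qd v (S ∪ T) = G.qd v S + G.qd v T := by
  unfold qd
  rw [Finset.filter_union, Finset.card_union_of_disjoint]
  exact Finset.disjoint_filter_filter h

theorem grow_upper (h1 : G.A1 Z) (h2 : G.A2 Z) (hS : ↑S ⊆ Z) (r : ℕ)
    (h4 : ∀ v ∈ Z, v ∉ S → G.qd v S ≤ r) : ∀ (n : ℕ) (H : Finset V), H.card = n → ↑H ⊆ Z →
    Disjoint S H → G.dl (S ∪ H) ≤ G.dl S + (∑ v ∈ H, (G.wt v + (r + 5) * (r + 4)))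
      - 100 * (G.eQ (S ∪ H) - G.eQ S) := by
  intro n
  induction n with
  | zero =>
    intro H hH _ _
    rw [Finset.card_eq_zero] at hH
    subst hH
    simp
  | succ n ih =>
    intro H hH hHZ hd
    obtain ⟨v, hv, h5⟩ := h2 H hHZ (Finset.card_pos.1 (by omega))
    set H' := H.erase v with hH'
    have hc : H'.card = n := by rw [hH', Finset.card_erase_of_mem hv]; omega
    have hH'H : H' ⊆ H := Finset.erase_subset v H
    have hvS : v ∉ S := fun h => Finset.disjoint_left.1 hd h hv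
    have hd' : Disjoint S H' := Finset.disjoint_of_subset_right hH'H hd
    have ih' := ih H' hc (fun x hx => hHZ (hH'H hx)) hd'
    have hvn : v ∉ S ∪ H' := by
      rw [Finset.mem_union]
      rintro (h | h)
      · exact hvS h
      · exact Finset.notMem_erase v H h
    have e1 : S ∪ H = insert v (S ∪ H') := by
      rw [← Finset.union_insert, hH', Finset.insert_erase hv]
    have hSH : ↑(S ∪ H') ⊆ Z := by
      intro x hx
      rw [Finset.mem_coe, Finset.mem_union] at hx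
      rcases hx with h | h
      · exact hS h
      · exact hHZ (hH'H h)
    have hstep := dl_insert_le h1 hSH (hHZ hv) hvn
    have hq := eQ_insert (G := G) hvn
    have ht : G.qd v (S ∪ H') ≤ r + 5 := by
      rw [qd_union v hd']
      have a1 := h4 v (hHZ hv) hvS
      have a2 : G.qd v H' ≤ 5 := (qd_mono v hH'H).trans h5
      omega
    have e2 : (∑ v ∈ H, (G.wt v + (r + 5) * (r + 4) : ℤ)) =
        (∑ v ∈ H', (G.wt v + (r + 5) * (r + 4) : ℤ)) + (G.wt v + (r + 5) * (r + 4)) := by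
      rw [hH', Finset.sum_erase_add _ _ hv]
    rw [e1, e2, hq]
    set t := G.qd v (S ∪ H') with htdef
    have ht' : (t : ℤ) ≤ r + 5 := by exact_mod_cast ht
    have ht0 : (0 : ℤ) ≤ t := by positivity
    have htt : (t : ℤ) * (t - 1) ≤ (r + 5) * (r + 4) := by
      have hr0 : (0 : ℤ) ≤ r := by positivity
      nlinarith
    push_cast
    linarith

theorem grow_lower (hH : G.IsP S H Z) :
    G.eQ S + (∑ v ∈ H \ S, (G.thr v + 1)) ≤ G.eQ H := by
  obtain ⟨T, hT, hmax⟩ := Finset.exists_max_image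
    (H.powerset.filter fun T => S ⊆ T ∧ G.eQ S + (∑ v ∈ T \ S, (G.thr v + 1)) ≤ G.eQ T)
    Finset.card ⟨S, by
      simp only [Finset.mem_filter, Finset.mem_powerset]
      exact ⟨hH.2.1, Finset.Subset.refl _, by simp⟩⟩
  simp only [Finset.mem_filter, Finset.mem_powerset] at hT hmax
  obtain ⟨hTH, hST, hTe⟩ := hT
  by_cases hTH' : T = H
  · rw [← hTH']; exact hTe
  · exfalso
    have hnpc : ¬ G.PC T Z := fun hpc => hTH' (Finset.Subset.antisymm hTH (hH.2.2 T hpc hST))
    have : ∃ v ∈ Z, v ∉ T ∧ G.thr v < G.qd v T := by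
      by_contra hcon
      push Not at hcon
      exact hnpc ⟨fun x hx => hH.1.1 (hTH hx), fun v hv hvn => hcon v hv hvn⟩
    obtain ⟨v, hvZ, hvT, hlt⟩ := this
    have hvH : v ∈ H := by
      by_contra hvH
      have a := hH.1.2 v hvZ hvH
      have b := qd_mono (G := G) v hTH
      omega
    have hvS : v ∉ S := fun h => hvT (hST h)
    have := hmax (insert v T) ⟨Finset.insert_subset hvH hTH,
      hST.trans (Finset.subset_insert v T), by
        have e : insert v T \ S = insert v (T \ S) := Finset.insert_sdiff_of_notMem _ hvS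
        rw [e, Finset.sum_insert (by simp [hvT]), eQ_insert hvT]
        omega⟩
    rw [Finset.card_insert_of_notMem hvT] at this
    omega

/-- the P-closure of a set with small outer degrees -/
theorem dl_grow (h1 : G.A1 Z) (h2 : G.A2 Z) (hS : ↑S ⊆ Z)
    (h4 : ∀ v ∈ Z, v ∉ S → G.qd v S ≤ 4) (hH : G.IsP S H Z) :
    G.dl H + 27 * ((H \ S).card : ℤ) ≤ G.dl S := by
  have hu := grow_upper h1 h2 hS 4 h4 _ (H \ S) rfl
    (fun x hx => hH.1.1 (Finset.mem_sdiff.1 hx).1) Finset.disjoint_sdiff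
  rw [Finset.union_sdiff_of_subset hH.2.1] at hu
  have hl := grow_lower hH
  zify at hl
  have e : (∑ v ∈ H \ S, (G.wt v + ((4 : ℕ) + 5) * ((4 : ℕ) + 4) : ℤ)) =
      100 * (∑ v ∈ H \ S, ((G.thr v : ℤ) + 1)) - 27 * ((H \ S).card : ℤ) := by
    have e27 : 27 * ((H \ S).card : ℤ) = ∑ _v ∈ H \ S, (27 : ℤ) := by
      rw [Finset.sum_const, nsmul_eq_mul]; ring
    rw [Finset.mul_sum, e27, ← Finset.sum_sub_distrib]
    apply Finset.sum_congr rfl
    intro v _
    unfold wt
    push_cast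
    ring
  rw [e] at hu
  linarith

omit [DecidableEq V] in
theorem sum_qd (G : Str V) (F T : Finset V) : (∑ v ∈ F, G.qd v T) =
    (∑ a ∈ T, ∑ b ∈ F, if G.Q a b then 1 else 0) +
      ∑ a ∈ F, ∑ b ∈ T, if G.Q a b then 1 else 0 := by
  have h : ∀ v, G.qd v T = (∑ u ∈ T, if G.Q u v then 1 else 0) +
      ∑ u ∈ T, if G.Q v u then 1 else 0 := by
    intro v
    unfold qd
    rw [Finset.filter_or, Finset.card_union_of_disjoint, Finset.card_filter, Finset.card_filter]
    rw [Finset.disjoint_left]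
    intro a h1 h2
    simp only [Finset.mem_filter] at h1 h2
    exact Q_asymm h1.2 h2.2
  simp only [h, Finset.sum_add_distrib]
  rw [Finset.sum_comm]

theorem eQ_union_ge (F E : Finset V) (hEF : Disjoint E F) :
    2 * G.eQ E + (∑ v ∈ F, G.qd v (E ∪ F)) ≤ 2 * G.eQ (E ∪ F) := by
  rw [sum_qd, eQ_eq, eQ_eq, c2_eq, c2_eq]
  simp only [Finset.sum_union hEF, Finset.sum_add_distrib]
  omega

/-- degeneracy over a P-closed set of minimal predimension -/
theorem degen {E F : Finset V} (h1 : G.A1 ↑A) (h2 : G.A2 ↑A) (hE : G.PC E ↑A)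
    (hmin : ∀ B, G.PC B ↑A → E ⊆ B → G.dl E ≤ G.dl B) (hF : F ⊆ A) (hne : F.Nonempty)
    (hEF : Disjoint E F) : ∃ v ∈ F, G.qd v (E ∪ F) ≤ 5 := by
  by_contra hcon
  push Not at hcon
  have hEA : E ⊆ A := Finset.coe_subset.1 hE.1
  have hsum : 6 * F.card ≤ ∑ v ∈ F, G.qd v (E ∪ F) := by
    have := Finset.card_nsmul_le_sum F (fun v => G.qd v (E ∪ F)) 6 (fun v hv => hcon v hv)
    simpa [mul_comm] using this
  have he := eQ_union_ge (G := G) F E hEF
  obtain ⟨H, hH⟩ := exists_isP (G := G) (Z := ↑A) (S := E ∪ F)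
    ⟨A, PC.self A, Finset.union_subset hEA hF⟩
  have hEH : E ⊆ H := Finset.subset_union_left.trans hH.2.1
  have hHA : H ⊆ A := Finset.coe_subset.1 hH.1.1
  have hu := grow_upper h1 h2 hE.1 2 (fun v hv hvn => (hE.2 v hv hvn).trans (thr_le v)) _ (H \ E)
    rfl (fun x hx => hH.1.1 (Finset.mem_sdiff.1 hx).1) Finset.disjoint_sdiff
  rw [Finset.union_sdiff_of_subset hEH] at hu
  have hl := grow_lower hH
  have hm := hmin H hH.1 hEH
  have hsplit : H \ E = F ∪ (H \ (E ∪ F)) := by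
    ext x
    simp only [Finset.mem_union, Finset.mem_sdiff]
    constructor
    · rintro ⟨a, b⟩
      by_cases hx : x ∈ F
      · exact Or.inl hx
      · exact Or.inr ⟨a, by tauto⟩
    · rintro (h | h)
      · exact ⟨hH.2.1 (Finset.mem_union_right _ h), fun h' => Finset.disjoint_left.1 hEF h' h⟩
      · exact ⟨h.1, fun h' => h.2 (Or.inl h')⟩
  have hdj : Disjoint F (H \ (E ∪ F)) := by
    rw [Finset.disjoint_left]
    intro x hx hx'
    exact (Finset.mem_sdiff.1 hx').2 (Finset.mem_union_right _ hx)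
  rw [hsplit, Finset.sum_union hdj] at hu
  have b1 : (∑ v ∈ F, (G.wt v + ((2 : ℕ) + 5) * ((2 : ℕ) + 4) : ℤ)) ≤ 243 * (F.card : ℤ) := by
    have := Finset.sum_le_card_nsmul F (fun v => (G.wt v + ((2 : ℕ) + 5) * ((2 : ℕ) + 4) : ℤ)) 243
      (fun v _ => by
        have := thr_le (G := G) v
        unfold wt
        push_cast
        have : (G.thr v : ℤ) ≤ 2 := by exact_mod_cast this
        linarith)
    simpa [mul_comm] using this
  have b2 : (∑ v ∈ H \ (E ∪ F), (G.wt v + ((2 : ℕ) + 5) * ((2 : ℕ) + 4) : ℤ)) ≤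
      100 * (∑ v ∈ H \ (E ∪ F), ((G.thr v : ℤ) + 1)) := by
    rw [Finset.mul_sum]
    apply Finset.sum_le_sum
    intro v _
    unfold wt
    push_cast
    linarith
  have hFpos : 0 < F.card := Finset.card_pos.2 hne
  zify at hl he hsum hFpos
  linarith

end Str
end Run7.h540
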