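import Pool.Agent.Run7.h540.A2

/-! Closed sets. -/

namespace Run7.h540
open Classical
namespace Str

variable {V : Type} [DecidableEq V] {G : Str V} {Z : Set V} {A B C S T H : Finset V}

omit [DecidableEq V] in
theorem Cl.self (A : Finset V) : G.Cl A ↑A :=
  ⟨PC.self A, fun _ hB hAB => absurd (Finset.coe_subset.1 hB.1) hAB.2⟩

omit [DecidableEq V] in
theorem Cl.le (hA : G.Cl A Z) (hB : G.PC B Z) (h : A ⊆ B) : G.dl A ≤ G.dl B := by
  rcases h.eq_or_ssubset with rfl | h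
  · exact le_rfl
  · exact (hA.2 B hB h).le

omit [DecidableEq V] in
theorem amb_finset (h1 : G.A1 ↑A) (h2 : G.A2 ↑A) : G.Amb ↑A :=
  ⟨h1, h2, fun _ hS => ⟨A, Finset.coe_subset.1 hS, Cl.self A⟩⟩

/-- the union of two P-closed sets and its P-closure -/
theorem union_le (h : G.Amb Z) (hA : G.PC A Z) (hB : G.PC B Z) (hH : G.IsP (A ∪ B) H Z) :
    G.dl H + G.dl (A ∩ B) ≤ G.dl A + G.dl B := by
  have h1 := dl_sub h.a1 h.a2 hA hB
  have h2 := dl_grow h.a1 h.a2 (S := A ∪ B) (by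
    intro x hx
    rw [Finset.mem_coe, Finset.mem_union] at hx
    rcases hx with h | h
    · exact hA.1 h
    · exact hB.1 h) (by
    intro v hv hvn
    rw [Finset.mem_union, not_or] at hvn
    have a := hA.2 v hv hvn.1
    have b := hB.2 v hv hvn.2
    have c : G.qd v (A ∪ B) ≤ G.qd v A + G.qd v B := by
      unfold qd
      rw [Finset.filter_union]
      exact Finset.card_union_le _ _
    have d := thr_le (G := G) v
    omega) hH
  have : (0 : ℤ) ≤ (G.cr (A \ B) (B \ A) : ℤ) := by positivity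
  have : (0 : ℤ) ≤ ((H \ (A ∪ B)).card : ℤ) := by positivity
  linarith

theorem exists_isP' (h : G.Amb Z) (hS : ↑S ⊆ Z) : ∃ H, G.IsP S H Z := by
  obtain ⟨C, hSC, hC⟩ := h.fin S hS
  exact exists_isP ⟨C, hC.1, hSC⟩

omit [DecidableEq V] in
theorem union_sub (hA : ↑A ⊆ Z) (hB : ↑B ⊆ Z) [DecidableEq V] : ↑(A ∪ B) ⊆ Z := by
  intro x hx
  rw [Finset.mem_coe, Finset.mem_union] at hx
  rcases hx with h | h
  · exact hA h
  · exact hB h

theorem Cl.trans (h : G.Amb Z) (hA : G.Cl A ↑B) (hB : G.Cl B Z) : G.Cl A Z := by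
  refine ⟨hA.1.trans hB.1, fun J hJ hAJ => ?_⟩
  obtain ⟨H, hH⟩ := exists_isP' h (union_sub hJ.1 hB.1.1)
  have hu := union_le h hJ hB.1 hH
  have hBH : B ⊆ H := Finset.subset_union_right.trans hH.2.1
  have hJB : G.PC (J ∩ B) ↑B := (hJ.inter hB.1).mono hB.1.1
    (Finset.coe_subset.2 Finset.inter_subset_right)
  have hAJB : A ⊆ J ∩ B := Finset.subset_inter hAJ.1 (Finset.coe_subset.1 hA.1.1)
  have h1 := hA.le hJB hAJB
  have h2 := hB.le hH.1 hBH
  by_cases hc : J ⊆ B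
  · have e : J ∩ B = J := Finset.inter_eq_left.2 hc
    rw [e] at hJB
    exact hA.2 J hJB hAJ
  · have hlt : G.dl B < G.dl H := hB.2 H hH.1 ⟨hBH, fun hHB => hc
      ((Finset.subset_union_left.trans hH.2.1).trans hHB)⟩
    linarith

theorem Cl.inter (h : G.Amb Z) (hA : G.Cl A Z) (hB : G.Cl B Z) : G.Cl (A ∩ B) Z := by
  refine Cl.trans h (B := A) ?_ hA
  refine ⟨(hA.1.inter hB.1).mono hA.1.1 (Finset.coe_subset.2 Finset.inter_subset_left),
    fun J hJ hlt => ?_⟩
  have hJA : J ⊆ A := Finset.coe_subset.1 hJ.1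
  have hJZ : G.PC J Z := hJ.trans hA.1
  obtain ⟨H, hH⟩ := exists_isP' h (union_sub hJZ.1 hB.1.1)
  have hu := union_le h hJZ hB.1 hH
  have hBH : B ⊆ H := Finset.subset_union_right.trans hH.2.1
  have hnJB : ¬ J ⊆ B := fun hc => hlt.2 (Finset.subset_inter hJA hc)
  have h2 : G.dl B < G.dl H := hB.2 H hH.1 ⟨hBH, fun hHB => hnJB
      ((Finset.subset_union_left.trans hH.2.1).trans hHB)⟩
  have e : J ∩ B = A ∩ B := Finset.Subset.antisymm
    (Finset.inter_subset_inter_right hJA)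
    (Finset.subset_inter hlt.1 Finset.inter_subset_right)
  rw [e] at hu
  linarith

omit [DecidableEq V] in
theorem Cl.down (hA : G.Cl A Z) (hAB : A ⊆ B) (hB : G.PC B Z) : G.Cl A ↑B :=
  ⟨hA.1.mono hB.1 (Finset.coe_subset.2 hAB), fun _ hJ hlt => hA.2 _ (hJ.trans hB) hlt⟩

theorem exists_isC (h : G.Amb Z) (hS : ↑S ⊆ Z) : ∃ C, G.IsC S C Z := by
  obtain ⟨C0, hS0, hC0⟩ := h.fin S hS
  obtain ⟨C, hC, hmin⟩ := Finset.exists_min_image
    (C0.powerset.filter fun H => G.Cl H Z ∧ S ⊆ H) Finset.card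
    ⟨C0, by simp only [Finset.mem_filter, Finset.mem_powerset]; exact ⟨Finset.Subset.refl _, hC0, hS0⟩⟩
  simp only [Finset.mem_filter, Finset.mem_powerset] at hC hmin
  refine ⟨C, hC.2.1, hC.2.2, fun H' h' hS' => ?_⟩
  have := hmin (C ∩ H') ⟨Finset.inter_subset_left.trans hC.1, Cl.inter h hC.2.1 h',
    Finset.subset_inter hC.2.2 hS'⟩
  have e : C ∩ H' = C := Finset.eq_of_subset_of_card_le Finset.inter_subset_left this
  rw [← e]
  exact Finset.inter_subset_right

theorem IsC.le (h : G.Amb Z) (hS : G.PC S Z) (hC : G.IsC S C Z) : G.dl C ≤ G.dl S := by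
  obtain ⟨H0, h0, hmin⟩ := Finset.exists_min_image
    (C.powerset.filter fun H => G.PC H Z ∧ S ⊆ H) G.dl
    ⟨C, by simp only [Finset.mem_filter, Finset.mem_powerset]; exact ⟨Finset.Subset.refl _, hC.1.1, hC.2.1⟩⟩
  simp only [Finset.mem_filter, Finset.mem_powerset] at h0 hmin
  obtain ⟨H, h1, hmax⟩ := Finset.exists_max_image
    (C.powerset.filter fun H => (G.PC H Z ∧ S ⊆ H) ∧ G.dl H = G.dl H0) Finset.card
    ⟨H0, by rw [Finset.mem_filter, Finset.mem_powerset]; exact ⟨h0.1, h0.2, rfl⟩⟩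
  simp only [Finset.mem_filter, Finset.mem_powerset] at h1 hmax
  obtain ⟨hHC, ⟨hHpc, hSH⟩, hHd⟩ := h1
  have hcl : G.Cl H ↑C := by
    refine ⟨hHpc.mono hC.1.1.1 (Finset.coe_subset.2 hHC), fun B hB hlt => ?_⟩
    have hBC : B ⊆ C := Finset.coe_subset.1 hB.1
    have hBZ := hB.trans hC.1.1
    have a := hmin B ⟨hBC, hBZ, hSH.trans hlt.1⟩
    rcases lt_or_eq_of_le (hHd.le.trans a) with hl | he
    · exact hl
    · exfalso
      have b := hmax B ⟨hBC, ⟨hBZ, hSH.trans hlt.1⟩, by rw [← he]; exact hHd⟩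
      have c := Finset.card_lt_card hlt
      omega
  have hclZ := Cl.trans h hcl hC.1
  have e : C = H := Finset.Subset.antisymm (hC.2.2 H hclZ hSH) hHC
  have b := hmin S ⟨hC.2.1, hS, Finset.Subset.refl _⟩
  rw [e, hHd]
  exact b

omit [DecidableEq V] in
theorem IsC.sub (hC : G.IsC S C Z) (hT : G.Cl T Z) (h : S ⊆ T) : G.dl C ≤ G.dl T :=
  hC.1.le hT.1 (hC.2.2 T hT h)

omit [DecidableEq V] in
theorem wt_pos (v : V) : 0 < G.wt v := by unfold wt; positivity

/-- the P-closed supersets bound the predimension of the closure -/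
theorem IsC.le' (h : G.Amb Z) (hT : G.PC T Z) (hST : S ⊆ T) (hC : G.IsC S C Z) :
    G.dl C ≤ G.dl T := by
  obtain ⟨K, hK⟩ := exists_isC h hT.1
  exact (hC.sub hK.1 (hST.trans hK.2.1)).trans (IsC.le h hT hK)

theorem IsC.insert_le (h : G.Amb Z) {v : V} (hv : v ∈ Z) (hC : G.IsC S C Z)
    (hH : G.IsC (insert v S) H Z) : G.dl H ≤ G.dl C + G.wt v := by
  have hw := wt_pos (G := G) v
  by_cases hvC : v ∈ C
  · have := hH.sub hC.1 (Finset.insert_subset hvC hC.2.1)
    linarith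
  · have hCZ : ↑C ⊆ Z := hC.1.1.1
    have ht : G.qd v C ≤ G.thr v := hC.1.1.2 v hv hvC
    have hTZ : ↑(insert v C) ⊆ Z := by
      intro x hx
      rw [Finset.mem_coe, Finset.mem_insert] at hx
      rcases hx with rfl | hx
      · exact hv
      · exact hCZ hx
    obtain ⟨J, hJ⟩ := exists_isP' h hTZ
    have h1 := dl_grow h.a1 h.a2 hTZ (by
      intro u hu hun
      rw [Finset.mem_insert, not_or] at hun
      have a := hC.1.1.2 u hu hun.2
      have b : G.qd u (insert v C) ≤ 1 + G.qd u C := by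
        rw [Finset.insert_eq, qd_union u (Finset.disjoint_singleton_left.2 hvC)]
        have : G.qd u {v} ≤ 1 := by
          unfold qd
          exact (Finset.card_filter_le _ _).trans (by simp)
        omega
      have d := thr_le (G := G) u
      omega) hJ
    have h2 := dl_insert_le h.a1 hCZ hv hvC
    have h3 := IsC.le' h hJ.1 ((Finset.insert_subset_insert v hC.2.1).trans hJ.2.1) hH
    have h4 : (0 : ℤ) ≤ ((J \ insert v C).card : ℤ) := by positivity
    have h5 : (G.qd v C : ℤ) ≤ 2 := by exact_mod_cast ht.trans (thr_le v)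
    have h6 : (0 : ℤ) ≤ G.qd v C := by positivity
    nlinarith

theorem IsC.union_le {C' H' : Finset V} (h : G.Amb Z) (hC : G.IsC S C Z) (hC' : G.IsC T C' Z)
    (hH : G.IsC (S ∪ T) H' Z) : G.dl H' + G.dl (C ∩ C') ≤ G.dl C + G.dl C' := by
  obtain ⟨J, hJ⟩ := exists_isP' h (union_sub hC.1.1.1 hC'.1.1.1)
  have h1 := Str.union_le h hC.1.1 hC'.1.1 hJ
  have h2 := IsC.le' h hJ.1 ((Finset.union_subset_union hC.2.1 hC'.2.1).trans hJ.2.1) hH
  linarith

omit [DecidableEq V] in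
theorem dl_empty (G : Str V) : G.dl ∅ = 0 := by
  simp [dl, eE, eQ, eR, tr]

omit [DecidableEq V] in
theorem dl_singleton (v : V) : G.dl {v} = G.wt v := by
  have := dl_insert (G := G) (S := ∅) (v := v) (by simp)
  rw [dl_empty] at this
  simpa [qd] using this

omit [DecidableEq V] in
/-- in `K` the empty set is closed -/
theorem K.empty (h : G.K Z) : G.Cl ∅ Z := by
  refine ⟨PC.empty Z, fun B hB hlt => ?_⟩
  rw [dl_empty]
  obtain ⟨h1, h2⟩ := h.f B hB
  rcases lt_or_eq_of_le h1 with h | h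
  · exact h
  · exfalso
    rw [← h] at h2
    simp only [Int.toNat_zero, pow_zero] at h2
    have hne : B.Nonempty := Finset.nonempty_iff_ne_empty.2 hlt.ne'
    have h3 : B.card = 1 := le_antisymm h2 (Finset.card_pos.2 hne)
    obtain ⟨v, rfl⟩ := Finset.card_eq_one.1 h3
    rw [dl_singleton] at h
    have := wt_pos (G := G) v
    omega

omit [DecidableEq V] in
theorem K.mono {Y : Set V} (h : G.K Z) (hY : Y ⊆ Z) (hp : ∀ S, G.PC S Y → G.PC S Z) :
    G.K Y where
  a1 := fun l hl l' hl' hne S hS hq => h.a1 l (hY hl) l' (hY hl') hne S (hS.trans hY) hq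
  a2 := fun F hF hne => h.a2 F (hF.trans hY) hne
  f := fun S hS => h.f S (hp S hS)

omit [DecidableEq V] in
theorem K.sub (h : G.K Z) (hB : G.PC B Z) : G.K ↑B :=
  h.mono hB.1 fun _ hS => hS.trans hB

end Str
end Run7.h540
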