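import Pool.Agent.Run7.h540.A3

/-! Transport along embeddings. -/

namespace Run7.h540
open Classical

section

variable {V W Y : Type} [DecidableEq V] [DecidableEq W] [DecidableEq Y] {G : Str V} {H : Str W} {J : Str Y} {S T Z : Finset V} {f : V → W}

omit [DecidableEq V] [DecidableEq W] in
theorem Emb.mono (h : Emb G H S f) (hT : T ⊆ S) : Emb G H T f :=
  ⟨fun a ha b hb => h.inj a (hT ha) b (hT hb), fun a ha => h.col a (hT ha),
    fun a ha b hb => h.adj a (hT ha) b (hT hb)⟩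

omit [DecidableEq V] [DecidableEq Y] in
theorem Emb.comp {g : W → Y} (h : Emb G H S f) (h' : Emb H J (S.image f) g) :
    Emb G J S (g ∘ f) := by
  have m : ∀ a ∈ S, f a ∈ S.image f := fun a ha => Finset.mem_image_of_mem f ha
  exact ⟨fun a ha b hb hab => h.inj a ha b hb (h'.inj _ (m a ha) _ (m b hb) hab),
    fun a ha => (h'.col _ (m a ha)).trans (h.col a ha),
    fun a ha b hb => (h'.adj _ (m a ha) _ (m b hb)).trans (h.adj a ha b hb)⟩

omit [DecidableEq V] [DecidableEq W] in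
theorem Emb.congr {g : V → W} (h : Emb G H S f) (hg : ∀ a ∈ S, g a = f a) : Emb G H S g :=
  ⟨fun a ha b hb => by rw [hg a ha, hg b hb]; exact h.inj a ha b hb,
    fun a ha => by rw [hg a ha]; exact h.col a ha,
    fun a ha b hb => by rw [hg a ha, hg b hb]; exact h.adj a ha b hb⟩

omit [DecidableEq V] [DecidableEq W] in
theorem Emb.refl (G : Str V) (S : Finset V) : Emb G G S id :=
  ⟨fun _ _ _ _ h => h, fun _ _ => rfl, fun _ _ _ _ => Iff.rfl⟩

theorem Emb.inv [Nonempty V] (h : Emb G H S f) : ∃ g : W → V, (∀ a ∈ S, g (f a) = a) ∧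
    Emb H G (S.image f) g ∧ (S.image f).image g = S := by
  set g : W → V := fun w => if hw : ∃ a ∈ S, f a = w then hw.choose else Classical.arbitrary V
    with hg
  have hgf : ∀ a ∈ S, g (f a) = a := by
    intro a ha
    have hw : ∃ b ∈ S, f b = f a := ⟨a, ha, rfl⟩
    simp only [hg, dif_pos hw]
    exact h.inj _ hw.choose_spec.1 _ ha hw.choose_spec.2
  refine ⟨g, hgf, ⟨?_, ?_, ?_⟩, ?_⟩
  · intro a ha b hb hab
    obtain ⟨a, ha', rfl⟩ := Finset.mem_image.1 ha
    obtain ⟨b, hb', rfl⟩ := Finset.mem_image.1 hb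
    rw [hgf a ha', hgf b hb'] at hab
    rw [hab]
  · intro a ha
    obtain ⟨a, ha', rfl⟩ := Finset.mem_image.1 ha
    rw [hgf a ha', h.col a ha']
  · intro a ha b hb
    obtain ⟨a, ha', rfl⟩ := Finset.mem_image.1 ha
    obtain ⟨b, hb', rfl⟩ := Finset.mem_image.1 hb
    rw [hgf a ha', hgf b hb', h.adj a ha' b hb']
  · ext x
    simp only [Finset.mem_image, exists_exists_and_eq_and]
    constructor
    · rintro ⟨a, ha, rfl⟩
      rw [hgf a ha]; exact ha
    · intro hx
      exact ⟨x, hx, hgf x hx⟩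

omit [DecidableEq V] [DecidableEq W] in
theorem Emb.E_iff (h : Emb G H S f) {a b : V} (ha : a ∈ S) (hb : b ∈ S) :
    H.E (f a) (f b) ↔ G.E a b := by
  unfold Str.E; rw [h.col a ha, h.col b hb, h.adj a ha b hb]

omit [DecidableEq V] [DecidableEq W] in
theorem Emb.Q_iff (h : Emb G H S f) {a b : V} (ha : a ∈ S) (hb : b ∈ S) :
    H.Q (f a) (f b) ↔ G.Q a b := by
  unfold Str.Q; rw [h.col a ha, h.col b hb, h.adj a ha b hb]

omit [DecidableEq V] [DecidableEq W] in
theorem Emb.R_iff (h : Emb G H S f) {a b : V} (ha : a ∈ S) (hb : b ∈ S) :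
    H.R (f a) (f b) ↔ G.R a b := by
  unfold Str.R; rw [h.col a ha, h.col b hb, h.adj a ha b hb]
  have : f a ≠ f b ↔ a ≠ b := ⟨fun h1 h2 => h1 (by rw [h2]), fun h1 h2 => h1 (h.inj a ha b hb h2)⟩
  rw [this]

omit [DecidableEq V] [DecidableEq W] in
theorem Emb.thr (h : Emb G H S f) {v : V} (hv : v ∈ S) : H.thr (f v) = G.thr v := by
  unfold Str.thr; rw [h.col v hv]

omit [DecidableEq V] in
theorem Emb.qd (h : Emb G H S f) (hT : T ⊆ S) {v : V} (hv : v ∈ S) :
    H.qd (f v) (T.image f) = G.qd v T := by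
  unfold Str.qd
  rw [Finset.filter_image, Finset.card_image_of_injOn]
  · congr 1
    apply Finset.filter_congr
    intro u hu
    rw [h.Q_iff (hT hu) hv, h.Q_iff hv (hT hu)]
  · intro a ha b hb hab
    simp only [Finset.coe_filter, Set.mem_ofPred_eq] at ha hb
    exact h.inj a (hT ha.1) b (hT hb.1) hab

omit [DecidableEq V] in
theorem c2_image {r : W → W → Prop} {r' : V → V → Prop} (hf : Set.InjOn f T)
    (hr : ∀ a ∈ T, ∀ b ∈ T, (r (f a) (f b) ↔ r' a b)) : Str.c2 r (T.image f) = Str.c2 r' T := by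
  rw [Str.c2_eq, Str.c2_eq, Finset.sum_image hf]
  apply Finset.sum_congr rfl
  intro a ha
  rw [Finset.sum_image hf]
  apply Finset.sum_congr rfl
  intro b hb
  simp only [hr a ha b hb]

omit [DecidableEq V] in
theorem c3_image {r : W → W → W → Prop} {r' : V → V → V → Prop} (hf : Set.InjOn f T)
    (hr : ∀ a ∈ T, ∀ b ∈ T, ∀ c ∈ T, (r (f a) (f b) (f c) ↔ r' a b c)) :
    Str.c3 r (T.image f) = Str.c3 r' T := by
  rw [Str.c3_eq, Str.c3_eq, Finset.sum_image hf]
  apply Finset.sum_congr rfl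
  intro a ha
  rw [Finset.sum_image hf]
  apply Finset.sum_congr rfl
  intro b hb
  rw [Finset.sum_image hf]
  apply Finset.sum_congr rfl
  intro c hc
  simp only [hr a ha b hb c hc]

omit [DecidableEq V] in
theorem Emb.dl (h : Emb G H S f) (hT : T ⊆ S) : H.dl (T.image f) = G.dl T := by
  have hf : Set.InjOn f T := fun a ha b hb hab => h.inj a (hT ha) b (hT hb) hab
  unfold Str.dl
  rw [Str.eE_eq, Str.eQ_eq, Str.eR_eq, Str.tr_eq, Str.eE_eq, Str.eQ_eq, Str.eR_eq, Str.tr_eq,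
    c2_image hf fun a ha b hb => h.E_iff (hT ha) (hT hb),
    c2_image hf fun a ha b hb => h.Q_iff (hT ha) (hT hb),
    c2_image hf fun a ha b hb => h.R_iff (hT ha) (hT hb),
    c3_image (r' := G.Tri) hf fun a ha b hb c hc => by
      unfold Str.Tri
      rw [h.R_iff (hT ha) (hT hb), h.Q_iff (hT ha) (hT hc), h.Q_iff (hT hb) (hT hc)],
    Finset.sum_image hf]
  congr 4
  apply Finset.sum_congr rfl
  intro v hv
  unfold Str.wt
  rw [h.thr (hT hv)]

omit [DecidableEq V] in
theorem Emb.pc (h : Emb G H S f) (hT : T ⊆ S) :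
    H.PC (T.image f) ↑(S.image f) ↔ G.PC T ↑S := by
  unfold Str.PC
  apply and_congr
  · rw [Finset.coe_subset, Finset.coe_subset]
    exact ⟨fun _ => hT, fun _ => Finset.image_subset_image hT⟩
  · constructor
    · intro hh v hv hvT
      have h1 : f v ∈ (↑(S.image f) : Set W) := Finset.mem_coe.2 (Finset.mem_image_of_mem f hv)
      have h2 : f v ∉ T.image f := by
        rw [Finset.mem_image]
        rintro ⟨a, ha, he⟩
        exact hvT (h.inj a (hT ha) v hv he ▸ ha)
      have := hh (f v) h1 h2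
      rwa [h.qd hT hv, h.thr hv] at this
    · intro hh w hw hwT
      obtain ⟨v, hv, rfl⟩ := Finset.mem_image.1 (Finset.mem_coe.1 hw)
      rw [h.qd hT hv, h.thr hv]
      exact hh v hv fun hvT => hwT (Finset.mem_image_of_mem f hvT)

omit [DecidableEq V] in
theorem exists_image_of_subset {T : Finset W} (hT : T ⊆ S.image f) :
    ∃ T' ⊆ S, T'.image f = T := by
  refine ⟨S.filter fun a => f a ∈ T, Finset.filter_subset _ _, ?_⟩
  ext w
  rw [Finset.mem_image]
  constructor
  · rintro ⟨a, ha, rfl⟩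
    exact (Finset.mem_filter.1 ha).2
  · intro hw
    obtain ⟨a, ha, rfl⟩ := Finset.mem_image.1 (hT hw)
    exact ⟨a, Finset.mem_filter.2 ⟨ha, hw⟩, rfl⟩

theorem Emb.cl (h : Emb G H S f) (hT : T ⊆ S) :
    H.Cl (T.image f) ↑(S.image f) ↔ G.Cl T ↑S := by
  constructor
  · intro hh
    refine ⟨(h.pc hT).1 hh.1, fun B hB hlt => ?_⟩
    have hBS : B ⊆ S := Finset.coe_subset.1 hB.1
    have := hh.2 (B.image f) ((h.pc hBS).2 hB) ⟨Finset.image_subset_image hlt.1, fun hc => by
      apply hlt.2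
      intro b hb
      obtain ⟨t, ht, he⟩ := Finset.mem_image.1 (hc (Finset.mem_image_of_mem f hb))
      exact h.inj t (hT ht) b (hBS hb) he ▸ ht⟩
    rwa [h.dl hT, h.dl hBS] at this
  · intro hh
    refine ⟨(h.pc hT).2 hh.1, fun B hB hlt => ?_⟩
    obtain ⟨B', hB'S, rfl⟩ := exists_image_of_subset (Finset.coe_subset.1 hB.1)
    rw [h.dl hT, h.dl hB'S]
    apply hh.2 B' ((h.pc hB'S).1 hB)
    refine ⟨?_, fun hc => hlt.2 (Finset.image_subset_image hc)⟩
    intro t ht
    obtain ⟨b, hb, he⟩ := Finset.mem_image.1 (hlt.1 (Finset.mem_image_of_mem f ht))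
    exact h.inj b (hB'S hb) t (hT ht) he ▸ hb

theorem Emb.k' (h : Emb G H S f) (hk : G.K ↑S) : H.K ↑(S.image f) where
  a1 := by
    intro l hl l' hl' hne T hT hq
    obtain ⟨l, hlS, rfl⟩ := Finset.mem_image.1 (Finset.mem_coe.1 hl)
    obtain ⟨l', hlS', rfl⟩ := Finset.mem_image.1 (Finset.mem_coe.1 hl')
    obtain ⟨T', hT', rfl⟩ := exists_image_of_subset (Finset.coe_subset.1 hT)
    rw [Finset.card_image_of_injOn fun a ha b hb hab => h.inj a (hT' ha) b (hT' hb) hab]
    refine hk.a1 l hlS l' hlS' (fun e => hne (by rw [e])) T' (Finset.coe_subset.2 hT') ?_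
    intro a ha
    have := hq (f a) (Finset.mem_image_of_mem f ha)
    rwa [h.Q_iff (hT' ha) hlS, h.Q_iff (hT' ha) hlS'] at this
  a2 := by
    intro F hF hne
    obtain ⟨F', hF', rfl⟩ := exists_image_of_subset (Finset.coe_subset.1 hF)
    obtain ⟨v, hv, h5⟩ := hk.a2 F' (Finset.coe_subset.2 hF') (Finset.image_nonempty.1 hne)
    refine ⟨f v, Finset.mem_image_of_mem f hv, ?_⟩
    rwa [h.qd hF' (hF' hv)]
  f := by
    intro T hT
    obtain ⟨T', hT', rfl⟩ := exists_image_of_subset (Finset.coe_subset.1 hT.1)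
    rw [h.dl hT', Finset.card_image_of_injOn fun a ha b hb hab => h.inj a (hT' ha) b (hT' hb) hab]
    exact hk.f T' ((h.pc hT').1 hT)

theorem Emb.k [Nonempty V] (h : Emb G H S f) : H.K ↑(S.image f) ↔ G.K ↑S := by
  refine ⟨fun hk => ?_, fun hk => h.k' hk⟩
  obtain ⟨g, _, hg, he⟩ := h.inv
  have := hg.k' hk
  rwa [he] at this

end

end Run7.h540
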