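import Pool.Agent.Run7.h540.A4

/-! The amalgamation lemma, inside one structure. -/

namespace Run7.h540
open Classical

variable {V : Type} [DecidableEq V]

/-- The hypotheses of the amalgamation lemma. -/
structure T3 (G : Str V) (C A0 A1 : Finset V) : Prop where
  hC : G.K C
  h0 : G.K A0
  h1 : G.K A1
  he : ∀ a ∈ C ∪ A0 ∪ A1, ∀ b ∈ C ∪ A0 ∪ A1, G.adj a b →
      (a ∈ C ∧ b ∈ C) ∨ (a ∈ A0 ∧ b ∈ A0) ∨ (a ∈ A1 ∧ b ∈ A1)
  b0C : G.Cl (C ∩ A0) C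
  b0A : G.Cl (C ∩ A0) A0
  b1C : G.Cl (C ∩ A1) C
  b1A : G.Cl (C ∩ A1) A1
  u0 : G.Cl (A0 ∩ A1) A0
  u1 : G.Cl (A0 ∩ A1) A1
  i0 : ∀ F, G.PC F A0 → A0 ∩ A1 ⊆ F → C ∩ A0 ⊆ F →
      G.dl (A0 ∩ A1) + G.dl (C ∩ A0) - G.dl (C ∩ A0 ∩ A1) ≤ G.dl F
  i1 : ∀ F, G.PC F A1 → A0 ∩ A1 ⊆ F → C ∩ A1 ⊆ F →
      G.dl (A0 ∩ A1) + G.dl (C ∩ A1) - G.dl (C ∩ A0 ∩ A1) ≤ G.dl F

namespace T3

variable {G : Str V} {C A0 A1 : Finset V}

theorem swap (h : T3 G C A0 A1) : T3 G C A1 A0 where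
  hC := h.hC
  h0 := h.h1
  h1 := h.h0
  he := by
    intro a ha b hb hab
    rw [Finset.union_right_comm] at ha hb
    have := h.he a ha b hb hab
    tauto
  b0C := h.b1C
  b0A := h.b1A
  b1C := h.b0C
  b1A := h.b0A
  u0 := by rw [Finset.inter_comm]; exact h.u1
  u1 := by rw [Finset.inter_comm]; exact h.u0
  i0 := by
    intro F
    rw [Finset.inter_comm A1 A0, Finset.inter_right_comm C A1 A0]
    exact h.i1 F
  i1 := by
    intro F
    rw [Finset.inter_comm A1 A0, Finset.inter_right_comm C A1 A0]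
    exact h.i0 F

theorem eUB (C A0 A1 : Finset V) : (A0 ∩ A1) ∩ (C ∩ A0) = C ∩ A0 ∩ A1 := by
  ext x; simp only [Finset.mem_inter]; tauto

theorem step1 (h : T3 G C A0 A1) :
    G.cr ((A0 ∩ A1) \ (C ∩ A0)) ((C ∩ A0) \ (A0 ∩ A1)) = 0 ∧
    G.PC ((A0 ∩ A1) ∪ (C ∩ A0)) A0 ∧
    G.dl ((A0 ∩ A1) ∪ (C ∩ A0)) ≤
      G.dl (A0 ∩ A1) + G.dl (C ∩ A0) - G.dl (C ∩ A0 ∩ A1) := by
  have hs := Str.dl_sub h.h0.a1 h.h0.a2 h.u0.1 h.b0A.1
  rw [eUB] at hs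
  have amb := Str.amb_finset h.h0.a1 h.h0.a2
  obtain ⟨F, hF⟩ := Str.exists_isP' amb (Str.union_sub h.u0.1.1 h.b0A.1.1)
  have hg := Str.dl_grow h.h0.a1 h.h0.a2 (Str.union_sub h.u0.1.1 h.b0A.1.1) (by
    intro v hv hvn
    rw [Finset.mem_union, not_or] at hvn
    have a := h.u0.1.2 v hv hvn.1
    have b := h.b0A.1.2 v hv hvn.2
    have c : G.qd v ((A0 ∩ A1) ∪ (C ∩ A0)) ≤ G.qd v (A0 ∩ A1) + G.qd v (C ∩ A0) := by
      unfold Str.qd
      rw [Finset.filter_union]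
      exact Finset.card_union_le _ _
    have d := Str.thr_le (G := G) v
    omega) hF
  have hi := h.i0 F hF.1 (Finset.subset_union_left.trans hF.2.1)
    (Finset.subset_union_right.trans hF.2.1)
  have n1 : (0 : ℤ) ≤ (G.cr ((A0 ∩ A1) \ (C ∩ A0)) ((C ∩ A0) \ (A0 ∩ A1)) : ℤ) := by positivity
  have n2 : (0 : ℤ) ≤ ((F \ ((A0 ∩ A1) ∪ (C ∩ A0))).card : ℤ) := by positivity
  refine ⟨?_, ?_, by linarith⟩
  · have : (G.cr ((A0 ∩ A1) \ (C ∩ A0)) ((C ∩ A0) \ (A0 ∩ A1)) : ℤ) = 0 := by linarith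
    exact_mod_cast this
  · have : ((F \ ((A0 ∩ A1) ∪ (C ∩ A0))).card : ℤ) = 0 := by linarith
    have : (F \ ((A0 ∩ A1) ∪ (C ∩ A0))).card = 0 := by exact_mod_cast this
    rw [Finset.card_eq_zero, Finset.sdiff_eq_empty_iff_subset] at this
    rw [← Finset.Subset.antisymm this hF.2.1]
    exact hF.1

theorem noQ (h : T3 G C A0 A1) {x y : V} (x0 : x ∈ A0) (x1 : x ∈ A1) (xC : x ∉ C)
    (yC : y ∈ C) (y0 : y ∈ A0) (y1 : y ∉ A1) : ¬ G.Q x y ∧ ¬ G.Q y x := by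
  have hc := h.step1.1
  unfold Str.cr at hc
  rw [Finset.card_eq_zero, Finset.filter_eq_empty_iff] at hc
  have := @hc (x, y) (by
    simp only [Finset.mem_product, Finset.mem_sdiff, Finset.mem_inter]
    tauto)
  tauto

theorem noQ' (h : T3 G C A0 A1) {x y : V} (x0 : x ∈ A0) (x1 : x ∈ A1) (xC : x ∉ C)
    (yC : y ∈ C) (y0 : y ∉ A0) (y1 : y ∈ A1) : ¬ G.Q x y ∧ ¬ G.Q y x :=
  h.swap.noQ x1 x0 xC yC y1 y0

omit [DecidableEq V] in
theorem qd_le_of {v : V} {S T : Finset V} (h : ∀ u ∈ S, (G.Q u v ∨ G.Q v u) → u ∈ T) :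
    G.qd v S ≤ G.qd v T := by
  unfold Str.qd
  apply Finset.card_le_card
  intro u hu
  rw [Finset.mem_filter] at hu ⊢
  exact ⟨h u hu.1 hu.2, hu.2⟩

theorem heQ (h : T3 G C A0 A1) {a b : V} (ha : a ∈ C ∪ A0 ∪ A1) (hb : b ∈ C ∪ A0 ∪ A1)
    (hab : G.Q a b ∨ G.Q b a) : (a ∈ C ∧ b ∈ C) ∨ (a ∈ A0 ∧ b ∈ A0) ∨ (a ∈ A1 ∧ b ∈ A1) := by
  rcases hab with hab | hab
  · exact h.he a ha b hb hab.2.2
  · have := h.he b hb a ha hab.2.2
    tauto

theorem pcC (h : T3 G C A0 A1) : G.PC C ↑(C ∪ A0 ∪ A1) := by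
  refine ⟨Finset.coe_subset.2 (Finset.subset_union_left.trans Finset.subset_union_left), ?_⟩
  intro v hv hvC
  rw [Finset.mem_coe] at hv
  have hin : ∀ u ∈ C, u ∈ C ∪ A0 ∪ A1 := fun u hu => by simp [hu]
  by_cases h0 : v ∈ A0
  · refine le_trans (qd_le_of (T := C ∩ A0) ?_) (h.b0A.1.2 v h0 fun h' => hvC (Finset.mem_inter.1 h').1)
    intro u hu hq
    rw [Finset.mem_inter]
    refine ⟨hu, ?_⟩
    rcases h.heQ (hin u hu) hv hq with e | e | e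
    · exact absurd e.2 hvC
    · exact e.1
    · by_contra hu0
      have := h.noQ' h0 e.2 hvC hu hu0 e.1
      tauto
  · have h1 : v ∈ A1 := by
      simp only [Finset.mem_union] at hv; tauto
    refine le_trans (qd_le_of (T := C ∩ A1) ?_) (h.b1A.1.2 v h1 fun h' => hvC (Finset.mem_inter.1 h').1)
    intro u hu hq
    rw [Finset.mem_inter]
    refine ⟨hu, ?_⟩
    rcases h.heQ (hin u hu) hv hq with e | e | e
    · exact absurd e.2 hvC
    · exact absurd e.2 h0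
    · exact e.1

theorem pc0 (h : T3 G C A0 A1) : G.PC A0 ↑(C ∪ A0 ∪ A1) := by
  refine ⟨Finset.coe_subset.2 (Finset.subset_union_right.trans Finset.subset_union_left), ?_⟩
  intro v hv hv0
  rw [Finset.mem_coe] at hv
  have hin : ∀ u ∈ A0, u ∈ C ∪ A0 ∪ A1 := fun u hu => by simp [hu]
  by_cases hC : v ∈ C
  · refine le_trans (qd_le_of (T := C ∩ A0) ?_) (h.b0C.1.2 v hC fun h' => hv0 (Finset.mem_inter.1 h').2)
    intro u hu hq
    rw [Finset.mem_inter]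
    refine ⟨?_, hu⟩
    rcases h.heQ (hin u hu) hv hq with e | e | e
    · exact e.1
    · exact absurd e.2 hv0
    · by_contra huC
      have := h.noQ' hu e.1 huC hC hv0 e.2
      tauto
  · have h1 : v ∈ A1 := by
      simp only [Finset.mem_union] at hv; tauto
    refine le_trans (qd_le_of (T := A0 ∩ A1) ?_) (h.u1.1.2 v h1 fun h' => hv0 (Finset.mem_inter.1 h').1)
    intro u hu hq
    rw [Finset.mem_inter]
    refine ⟨hu, ?_⟩
    rcases h.heQ (hin u hu) hv hq with e | e | e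
    · exact absurd e.2 hC
    · exact absurd e.2 hv0
    · exact e.1

theorem pc1 (h : T3 G C A0 A1) : G.PC A1 ↑(C ∪ A0 ∪ A1) := by
  have := h.swap.pc0
  rwa [Finset.union_right_comm] at this

theorem a1Z (h : T3 G C A0 A1) : G.A1 ↑(C ∪ A0 ∪ A1) := by
  intro l hl l' hl' hne S hS hq
  rw [Finset.mem_coe] at hl hl'
  rw [Finset.coe_subset] at hS
  rcases S.eq_empty_or_nonempty with rfl | ⟨s, hs⟩
  · simp
  have cL : G.col l = Col.L := (hq s hs).1.2.1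
  have cL' : G.col l' = Col.L := (hq s hs).2.2.1
  -- both lines in one piece
  have same : ∀ P : Finset V, G.PC P ↑(C ∪ A0 ∪ A1) → G.K P → l ∈ P → l' ∈ P → S.card ≤ 2 := by
    intro P hP hK hlP hlP'
    apply hK.a1 l hlP l' hlP' hne S _ hq
    intro a ha
    rw [Finset.mem_coe]
    by_contra haP
    exact hne (hP.line_unique (Finset.mem_coe.2 (hS ha)) haP hlP hlP' (hq a ha).1 (hq a ha).2)
  -- one line outside a piece which contains all the points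
  have out : ∀ P : Finset V, G.PC P ↑(C ∪ A0 ∪ A1) → S ⊆ P → (l ∉ P ∨ l' ∉ P) → S.card ≤ 2 := by
    intro P hP hSP hor
    rcases hor with hlP | hlP
    · have := hP.2 l (Finset.mem_coe.2 hl) hlP
      rw [Str.thr_L cL, Str.qd_L cL] at this
      refine le_trans (Finset.card_le_card ?_) this
      intro a ha
      exact Finset.mem_filter.2 ⟨hSP ha, (hq a ha).1⟩
    · have := hP.2 l' (Finset.mem_coe.2 hl') hlP
      rw [Str.thr_L cL', Str.qd_L cL'] at this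
      refine le_trans (Finset.card_le_card ?_) this
      intro a ha
      exact Finset.mem_filter.2 ⟨hSP ha, (hq a ha).2⟩
  by_cases sC : l ∈ C ∧ l' ∈ C
  · exact same C h.pcC h.hC sC.1 sC.2
  by_cases s0 : l ∈ A0 ∧ l' ∈ A0
  · exact same A0 h.pc0 h.h0 s0.1 s0.2
  by_cases s1 : l ∈ A1 ∧ l' ∈ A1
  · exact same A1 h.pc1 h.h1 s1.1 s1.2
  have adj1 : ∀ a ∈ S, (a ∈ C ∧ l ∈ C) ∨ (a ∈ A0 ∧ l ∈ A0) ∨ (a ∈ A1 ∧ l ∈ A1) :=
    fun a ha => h.heQ (hS ha) hl (Or.inl (hq a ha).1)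
  have adj2 : ∀ a ∈ S, (a ∈ C ∧ l' ∈ C) ∨ (a ∈ A0 ∧ l' ∈ A0) ∨ (a ∈ A1 ∧ l' ∈ A1) :=
    fun a ha => h.heQ (hS ha) hl' (Or.inl (hq a ha).2)
  have single : ((S ⊆ C ∧ (l ∉ C ∨ l' ∉ C)) ∨ (S ⊆ A0 ∧ (l ∉ A0 ∨ l' ∉ A0)) ∨
      (S ⊆ A1 ∧ (l ∉ A1 ∨ l' ∉ A1))) := by
    have k1 : l ∈ C → l ∉ A0 → l ∉ A1 → S ⊆ C := fun _ b c a ha => by
      have := adj1 a ha; tauto
    have k2 : l ∉ C → l ∈ A0 → l ∉ A1 → S ⊆ A0 := fun b _ c a ha => by
      have := adj1 a ha; tauto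
    have k3 : l ∉ C → l ∉ A0 → l ∈ A1 → S ⊆ A1 := fun b c _ a ha => by
      have := adj1 a ha; tauto
    have k4 : l' ∈ C → l' ∉ A0 → l' ∉ A1 → S ⊆ C := fun _ b c a ha => by
      have := adj2 a ha; tauto
    have k5 : l' ∉ C → l' ∈ A0 → l' ∉ A1 → S ⊆ A0 := fun b _ c a ha => by
      have := adj2 a ha; tauto
    have k6 : l' ∉ C → l' ∉ A0 → l' ∈ A1 → S ⊆ A1 := fun b c _ a ha => by
      have := adj2 a ha; tauto
    simp only [Finset.mem_union] at hl hl'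
    by_cases m1 : l ∈ C <;> by_cases m2 : l ∈ A0 <;> by_cases m3 : l ∈ A1 <;>
      by_cases n1 : l' ∈ C <;> by_cases n2 : l' ∈ A0 <;> by_cases n3 : l' ∈ A1 <;>
      simp only [m1, m2, m3, n1, n2, n3, not_true_eq_false, not_false_eq_true, true_and, and_true,
        false_and, and_false, or_false, false_or, or_true, true_or, forall_const,
        IsEmpty.forall_iff, and_self, or_self, true_imp_iff] at * <;> first | exact absurd trivial sC | tauto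
  rcases single with ⟨a, b⟩ | ⟨a, b⟩ | ⟨a, b⟩
  · exact out C h.pcC a b
  · exact out A0 h.pc0 a b
  · exact out A1 h.pc1 a b

end T3

end Run7.h540
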