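import Pool.Agent.Run7.h540.B1

/-! The amalgamation lemma, continued. -/

namespace Run7.h540
open Classical

variable {V : Type} [DecidableEq V]

theorem sum_union3 {ι : Type} [DecidableEq ι] (f : ι → ℤ) (P Q R : Finset ι) :
    (∑ x ∈ P ∪ Q ∪ R, f x) = (∑ x ∈ P, f x) + (∑ x ∈ Q, f x) + (∑ x ∈ R, f x)
      - (∑ x ∈ P ∩ Q, f x) - (∑ x ∈ P ∩ R, f x) - (∑ x ∈ Q ∩ R, f x)
      + ∑ x ∈ P ∩ Q ∩ R, f x := by
  have h1 := Finset.sum_union_inter (s₁ := P ∪ Q) (s₂ := R) (f := f)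
  have h2 := Finset.sum_union_inter (s₁ := P) (s₂ := Q) (f := f)
  have h3 := Finset.sum_union_inter (s₁ := P ∩ R) (s₂ := Q ∩ R) (f := f)
  have e1 : (P ∪ Q) ∩ R = P ∩ R ∪ Q ∩ R := Finset.union_inter_distrib_right _ _ _
  have e2 : P ∩ R ∩ (Q ∩ R) = P ∩ Q ∩ R := by
    ext x; simp only [Finset.mem_inter]; tauto
  rw [e1] at h1
  rw [e2] at h3
  linarith

theorem card_union3 {ι : Type} [DecidableEq ι] (P Q R : Finset ι) :
    ((P ∪ Q ∪ R).card : ℤ) = (P.card : ℤ) + (Q.card : ℤ) + (R.card : ℤ)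
      - ((P ∩ Q).card : ℤ) - ((P ∩ R).card : ℤ) - ((Q ∩ R).card : ℤ)
      + ((P ∩ Q ∩ R).card : ℤ) := by
  have := sum_union3 (fun _ : ι => (1 : ℤ)) P Q R
  simpa using this

namespace T3

variable {G : Str V} {C A0 A1 : Finset V}

theorem a2Z (h : T3 G C A0 A1) : G.A2 ↑(C ∪ A0 ∪ A1) := by
  intro F hF hne
  rw [Finset.coe_subset] at hF
  by_cases hF1 : (F.filter fun x => x ∈ A1 ∧ x ∉ A0 ∧ x ∉ C).Nonempty
  · set F1 := F.filter fun x => x ∈ A1 ∧ x ∉ A0 ∧ x ∉ C with hF1d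
    have hs := h.swap.step1
    rw [Finset.inter_comm A1 A0, Finset.inter_right_comm C A1 A0] at hs
    obtain ⟨v, hv, h5⟩ := Str.degen h.h1.a1 h.h1.a2 hs.2.1 (F := F1) (by
      intro B hB hsub
      have := h.i1 B hB (Finset.subset_union_left.trans hsub) (Finset.subset_union_right.trans hsub)
      linarith [hs.2.2]) (by
      intro x hx
      exact (Finset.mem_filter.1 hx).2.1) hF1 (by
      rw [Finset.disjoint_left]
      intro x hx hx'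
      rw [hF1d, Finset.mem_filter] at hx'
      simp only [Finset.mem_union, Finset.mem_inter] at hx
      tauto)
    have hv' := hv
    rw [hF1d, Finset.mem_filter] at hv'
    refine ⟨v, hv'.1, le_trans (qd_le_of ?_) h5⟩
    intro u hu hq
    rw [Finset.mem_union, hF1d, Finset.mem_filter, Finset.mem_union, Finset.mem_inter,
      Finset.mem_inter]
    rcases h.heQ (hF hu) (hF hv'.1) hq with e | e | e
    · exact absurd e.2 hv'.2.2.2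
    · exact absurd e.2 hv'.2.2.1
    · tauto
  · by_cases hF2 : (F.filter fun x => x ∉ C).Nonempty
    · have hsubF : ∀ x ∈ F, x ∈ C ∨ x ∈ A0 := by
        intro x hx
        have h1 := hF hx
        simp only [Finset.mem_union] at h1
        by_contra hcon
        apply hF1
        exact ⟨x, Finset.mem_filter.2 ⟨hx, by tauto⟩⟩
      set F2 := F.filter fun x => x ∉ C with hF2d
      obtain ⟨v, hv, h5⟩ := Str.degen h.h0.a1 h.h0.a2 h.b0A.1 (F := F2)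
        (fun B hB hsub => h.b0A.le hB hsub) (by
        intro x hx
        rw [hF2d, Finset.mem_filter] at hx
        rcases hsubF x hx.1 with e | e
        · exact absurd e hx.2
        · exact e) hF2 (by
        rw [Finset.disjoint_left]
        intro x hx hx'
        rw [hF2d, Finset.mem_filter] at hx'
        exact hx'.2 (Finset.mem_inter.1 hx).1)
      have hv' := hv
      rw [hF2d, Finset.mem_filter] at hv'
      have hv0 : v ∈ A0 := by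
        rcases hsubF v hv'.1 with e | e
        · exact absurd e hv'.2
        · exact e
      refine ⟨v, hv'.1, le_trans (qd_le_of ?_) h5⟩
      intro u hu hq
      rw [Finset.mem_union, hF2d, Finset.mem_filter, Finset.mem_inter]
      have hu2 := hsubF u hu
      rcases h.heQ (hF hu) (hF hv'.1) hq with e | e | e
      · exact absurd e.2 hv'.2
      · tauto
      · by_cases huC : u ∈ C
        · left
          refine ⟨huC, ?_⟩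
          by_contra hu0
          have := h.noQ' hv0 e.2 hv'.2 huC hu0 e.1
          tauto
        · exact Or.inr ⟨hu, huC⟩
    · apply h.hC.a2 F _ hne
      intro x hx
      by_contra hxC
      exact hF2 ⟨x, Finset.mem_filter.2 ⟨hx, hxC⟩⟩

theorem amb (h : T3 G C A0 A1) : G.Amb ↑(C ∪ A0 ∪ A1) := Str.amb_finset h.a1Z h.a2Z

/-- triangles lie in a piece -/
theorem tri (h : T3 G C A0 A1) {a b l : V} (ha : a ∈ C ∪ A0 ∪ A1) (hb : b ∈ C ∪ A0 ∪ A1)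
    (hl : l ∈ C ∪ A0 ∪ A1) (ht : G.Tri a b l) :
    (a ∈ C ∧ b ∈ C ∧ l ∈ C) ∨ (a ∈ A0 ∧ b ∈ A0 ∧ l ∈ A0) ∨ (a ∈ A1 ∧ b ∈ A1 ∧ l ∈ A1) := by
  obtain ⟨hR, hq1, hq2⟩ := ht
  have e1 := h.he a ha b hb hR.2.2.2
  have e2 := h.he a ha l hl hq1.2.2
  have e3 := h.he b hb l hl hq2.2.2
  rcases e1 with e1 | e1 | e1 <;> rcases e2 with e2 | e2 | e2 <;> rcases e3 with e3 | e3 | e3 <;>
    first
    | exact Or.inl ⟨e1.1, e1.2, e2.2⟩
    | exact Or.inl ⟨e1.1, e1.2, e3.2⟩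
    | exact Or.inl ⟨e2.1, e3.1, e2.2⟩
    | exact Or.inr (Or.inl ⟨e1.1, e1.2, e2.2⟩)
    | exact Or.inr (Or.inl ⟨e1.1, e1.2, e3.2⟩)
    | exact Or.inr (Or.inl ⟨e2.1, e3.1, e2.2⟩)
    | exact Or.inr (Or.inr ⟨e1.1, e1.2, e2.2⟩)
    | exact Or.inr (Or.inr ⟨e1.1, e1.2, e3.2⟩)
    | exact Or.inr (Or.inr ⟨e2.1, e3.1, e2.2⟩)
    | skip
  · by_cases hl1 : l ∈ C
    · exact Or.inl ⟨e1.1, e1.2, hl1⟩
    · by_cases hl2 : a ∈ A1
      · exact Or.inr (Or.inr ⟨hl2, e3.1, e3.2⟩)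
      · exact absurd hq1 (h.noQ e2.2 e3.2 hl1 e1.1 e2.1 hl2).2
  · by_cases hl1 : l ∈ C
    · exact Or.inl ⟨e1.1, e1.2, hl1⟩
    · by_cases hl2 : a ∈ A0
      · exact Or.inr (Or.inl ⟨hl2, e3.1, e3.2⟩)
      · exact absurd hq1 (h.noQ' e3.2 e2.2 hl1 e1.1 hl2 e2.1).2
  · by_cases hl1 : b ∈ C
    · exact Or.inl ⟨e2.1, hl1, e2.2⟩
    · by_cases hl2 : l ∈ A0
      · exact Or.inr (Or.inl ⟨e1.1, e1.2, hl2⟩)
      · exact absurd hq2 (h.noQ' e1.2 e3.1 hl1 e2.2 hl2 e3.2).1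
  · by_cases hl1 : a ∈ C
    · exact Or.inl ⟨hl1, e3.1, e3.2⟩
    · by_cases hl2 : l ∈ A0
      · exact Or.inr (Or.inl ⟨e1.1, e1.2, hl2⟩)
      · exact absurd hq1 (h.noQ' e1.1 e2.1 hl1 e3.2 hl2 e2.2).1
  · by_cases hl1 : b ∈ C
    · exact Or.inl ⟨e2.1, hl1, e2.2⟩
    · by_cases hl2 : l ∈ A1
      · exact Or.inr (Or.inr ⟨e1.1, e1.2, hl2⟩)
      · exact absurd hq2 (h.noQ e3.1 e1.2 hl1 e2.2 e3.2 hl2).1
  · by_cases hl1 : a ∈ C
    · exact Or.inl ⟨hl1, e3.1, e3.2⟩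
    · by_cases hl2 : l ∈ A1
      · exact Or.inr (Or.inr ⟨e1.1, e1.2, hl2⟩)
      · exact absurd hq1 (h.noQ e2.1 e1.1 hl1 e3.2 e2.2 hl2).1

theorem c2f (r : V → V → Prop) (X : Finset V)
    (hr : ∀ a ∈ X, ∀ b ∈ X, r a b → (a ∈ C ∧ b ∈ C) ∨ (a ∈ A0 ∧ b ∈ A0) ∨ (a ∈ A1 ∧ b ∈ A1)) :
    (Str.c2 r X : ℤ) = Str.c2 r (X ∩ C) + Str.c2 r (X ∩ A0) + Str.c2 r (X ∩ A1)
      - Str.c2 r (X ∩ (C ∩ A0)) - Str.c2 r (X ∩ (C ∩ A1)) - Str.c2 r (X ∩ (A0 ∩ A1))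
      + Str.c2 r (X ∩ (C ∩ A0 ∩ A1)) := by
  have := card_union3 (((X ∩ C) ×ˢ (X ∩ C)).filter fun p => r p.1 p.2)
    (((X ∩ A0) ×ˢ (X ∩ A0)).filter fun p => r p.1 p.2)
    (((X ∩ A1) ×ˢ (X ∩ A1)).filter fun p => r p.1 p.2)
  have e : ∀ P Q : Finset V, (((X ∩ P) ×ˢ (X ∩ P)).filter fun p => r p.1 p.2) ∩
      (((X ∩ Q) ×ˢ (X ∩ Q)).filter fun p => r p.1 p.2) =
      ((X ∩ (P ∩ Q)) ×ˢ (X ∩ (P ∩ Q))).filter fun p => r p.1 p.2 := by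
    intro P Q
    ext ⟨a, b⟩
    simp only [Finset.mem_inter, Finset.mem_filter, Finset.mem_product]
    tauto
  rw [e, e, e, e] at this
  unfold Str.c2
  rw [← this]
  congr 2
  ext ⟨a, b⟩
  simp only [Finset.mem_union, Finset.mem_filter, Finset.mem_product, Finset.mem_inter]
  constructor
  · rintro ⟨⟨ha, hb⟩, hab⟩
    rcases hr a ha b hb hab with e | e | e <;> simp [ha, hb, hab, e]
  · rintro ((h | h) | h)
    · exact ⟨⟨h.1.1.1, h.1.2.1⟩, h.2⟩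
    · exact ⟨⟨h.1.1.1, h.1.2.1⟩, h.2⟩
    · exact ⟨⟨h.1.1.1, h.1.2.1⟩, h.2⟩

theorem c3f (r : V → V → V → Prop) (X : Finset V)
    (hr : ∀ a ∈ X, ∀ b ∈ X, ∀ c ∈ X, r a b c → (a ∈ C ∧ b ∈ C ∧ c ∈ C) ∨
      (a ∈ A0 ∧ b ∈ A0 ∧ c ∈ A0) ∨ (a ∈ A1 ∧ b ∈ A1 ∧ c ∈ A1)) :
    (Str.c3 r X : ℤ) = Str.c3 r (X ∩ C) + Str.c3 r (X ∩ A0) + Str.c3 r (X ∩ A1)
      - Str.c3 r (X ∩ (C ∩ A0)) - Str.c3 r (X ∩ (C ∩ A1)) - Str.c3 r (X ∩ (A0 ∩ A1))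
      + Str.c3 r (X ∩ (C ∩ A0 ∩ A1)) := by
  have := card_union3 (((X ∩ C) ×ˢ ((X ∩ C) ×ˢ (X ∩ C))).filter fun p => r p.1 p.2.1 p.2.2)
    (((X ∩ A0) ×ˢ ((X ∩ A0) ×ˢ (X ∩ A0))).filter fun p => r p.1 p.2.1 p.2.2)
    (((X ∩ A1) ×ˢ ((X ∩ A1) ×ˢ (X ∩ A1))).filter fun p => r p.1 p.2.1 p.2.2)
  have e : ∀ P Q : Finset V,
      (((X ∩ P) ×ˢ ((X ∩ P) ×ˢ (X ∩ P))).filter fun p => r p.1 p.2.1 p.2.2) ∩
      (((X ∩ Q) ×ˢ ((X ∩ Q) ×ˢ (X ∩ Q))).filter fun p => r p.1 p.2.1 p.2.2) =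
      ((X ∩ (P ∩ Q)) ×ˢ ((X ∩ (P ∩ Q)) ×ˢ (X ∩ (P ∩ Q)))).filter
        fun p => r p.1 p.2.1 p.2.2 := by
    intro P Q
    ext ⟨a, b, c⟩
    simp only [Finset.mem_inter, Finset.mem_filter, Finset.mem_product]
    tauto
  rw [e, e, e, e] at this
  unfold Str.c3
  rw [← this]
  congr 2
  ext ⟨a, b, c⟩
  simp only [Finset.mem_union, Finset.mem_filter, Finset.mem_product, Finset.mem_inter]
  constructor
  · rintro ⟨⟨ha, hb, hc⟩, hab⟩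
    rcases hr a ha b hb c hc hab with e | e | e <;> simp [ha, hb, hc, hab, e]
  · rintro ((h | h) | h)
    · exact ⟨⟨h.1.1.1, h.1.2.1.1, h.1.2.2.1⟩, h.2⟩
    · exact ⟨⟨h.1.1.1, h.1.2.1.1, h.1.2.2.1⟩, h.2⟩
    · exact ⟨⟨h.1.1.1, h.1.2.1.1, h.1.2.2.1⟩, h.2⟩

/-- inclusion-exclusion for the predimension -/
theorem dlf (h : T3 G C A0 A1) {X : Finset V} (hX : X ⊆ C ∪ A0 ∪ A1) :
    G.dl X = G.dl (X ∩ C) + G.dl (X ∩ A0) + G.dl (X ∩ A1)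
      - G.dl (X ∩ (C ∩ A0)) - G.dl (X ∩ (C ∩ A1)) - G.dl (X ∩ (A0 ∩ A1))
      + G.dl (X ∩ (C ∩ A0 ∩ A1)) := by
  have hE := c2f (C := C) (A0 := A0) (A1 := A1) G.E X
    (fun a ha b hb hab => h.he a (hX ha) b (hX hb) hab.2.2)
  have hQ := c2f (C := C) (A0 := A0) (A1 := A1) G.Q X
    (fun a ha b hb hab => h.he a (hX ha) b (hX hb) hab.2.2)
  have hR := c2f (C := C) (A0 := A0) (A1 := A1) G.R X
    (fun a ha b hb hab => h.he a (hX ha) b (hX hb) hab.2.2.2)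
  have hT := c3f (C := C) (A0 := A0) (A1 := A1) G.Tri X
    (fun a ha b hb c hc hab => h.tri (hX ha) (hX hb) (hX hc) hab)
  have hW := sum_union3 G.wt (X ∩ C) (X ∩ A0) (X ∩ A1)
  have e0 : X ∩ C ∪ X ∩ A0 ∪ X ∩ A1 = X := by
    ext x
    have : x ∈ X → x ∈ C ∪ A0 ∪ A1 := fun hx => hX hx
    simp only [Finset.mem_union, Finset.mem_inter] at this ⊢
    tauto
  have e : ∀ P Q : Finset V, X ∩ P ∩ (X ∩ Q) = X ∩ (P ∩ Q) := by
    intro P Q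
    ext x; simp only [Finset.mem_inter]; tauto
  rw [e0, e, e, e, e] at hW
  unfold Str.dl
  simp only [Str.eE_eq, Str.eQ_eq, Str.eR_eq, Str.tr_eq]
  linarith

end T3

end Run7.h540
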