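import Pool.Agent.Run7.h540.B1b

/-! The amalgamation lemma, end. -/

namespace Run7.h540
open Classical

variable {V : Type} [DecidableEq V]

namespace T3

variable {G : Str V} {C A0 A1 : Finset V}

/-- a P-closed subset of `A1` containing `C ∩ A1` -/
theorem claim7 (h : T3 G C A0 A1) {X : Finset V} (hX : G.PC X A1) (hB : C ∩ A1 ⊆ X) :
    G.dl (C ∩ A1) + G.dl (X ∩ (A0 ∩ A1)) - G.dl (C ∩ A0 ∩ A1) ≤ G.dl X := by
  have amb1 := Str.amb_finset h.h1.a1 h.h1.a2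
  obtain ⟨J, hJ⟩ := Str.exists_isP' amb1 (Str.union_sub hX.1 h.u1.1.1)
  have hu := Str.union_le amb1 hX h.u1.1 hJ
  have hi := h.i1 J hJ.1 (Finset.subset_union_right.trans hJ.2.1)
    (hB.trans (Finset.subset_union_left.trans hJ.2.1))
  linarith

/-- a P-closed subset of `A1` containing `A0 ∩ A1` -/
theorem claim8 (h : T3 G C A0 A1) {X : Finset V} (hX : G.PC X A1) (hU : A0 ∩ A1 ⊆ X) :
    G.dl (A0 ∩ A1) + G.dl (X ∩ (C ∩ A1)) - G.dl (C ∩ A0 ∩ A1) ≤ G.dl X := by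
  have amb1 := Str.amb_finset h.h1.a1 h.h1.a2
  obtain ⟨J, hJ⟩ := Str.exists_isP' amb1 (Str.union_sub hX.1 h.b1A.1.1)
  have hu := Str.union_le amb1 hX h.b1A.1 hJ
  have hi := h.i1 J hJ.1 (hU.trans (Finset.subset_union_left.trans hJ.2.1))
    (Finset.subset_union_right.trans hJ.2.1)
  linarith

theorem pcX {X P : Finset V} {Z : Set V} (hX : G.PC X Z) (hP : G.PC P Z) :
    G.PC (X ∩ P) ↑P :=
  (hX.inter hP).mono hP.1 (Finset.coe_subset.2 Finset.inter_subset_right)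

theorem clC (h : T3 G C A0 A1) : G.Cl C ↑(C ∪ A0 ∪ A1) := by
  refine ⟨h.pcC, fun X hX hlt => ?_⟩
  have hXZ : X ⊆ C ∪ A0 ∪ A1 := Finset.coe_subset.1 hX.1
  have hf := h.dlf hXZ
  have e1 : X ∩ C = C := Finset.inter_eq_right.2 hlt.1
  have e2 : X ∩ (C ∩ A0) = C ∩ A0 :=
    Finset.inter_eq_right.2 (Finset.inter_subset_left.trans hlt.1)
  have e3 : X ∩ (C ∩ A1) = C ∩ A1 :=
    Finset.inter_eq_right.2 (Finset.inter_subset_left.trans hlt.1)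
  have e4 : X ∩ (C ∩ A0 ∩ A1) = C ∩ A0 ∩ A1 := Finset.inter_eq_right.2
    ((Finset.inter_subset_left.trans Finset.inter_subset_left).trans hlt.1)
  rw [e1, e2, e3, e4] at hf
  have p0 := pcX hX h.pc0
  have p1 := pcX hX h.pc1
  have s0 : C ∩ A0 ⊆ X ∩ A0 := Finset.inter_subset_inter_right hlt.1
  have s1 : C ∩ A1 ⊆ X ∩ A1 := Finset.inter_subset_inter_right hlt.1
  have c1 := h.claim7 p1 s1
  have c0 := h.swap.claim7 p0 s0
  have e5 : X ∩ A1 ∩ (A0 ∩ A1) = X ∩ (A0 ∩ A1) := by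
    ext x; simp only [Finset.mem_inter]; tauto
  have e6 : X ∩ A0 ∩ (A1 ∩ A0) = X ∩ (A0 ∩ A1) := by
    ext x; simp only [Finset.mem_inter]; tauto
  have e7 : C ∩ A1 ∩ A0 = C ∩ A0 ∩ A1 := Finset.inter_right_comm _ _ _
  rw [e5] at c1
  rw [e6, e7] at c0
  obtain ⟨x, hxX, hxC⟩ := Finset.exists_of_ssubset hlt
  have hx := hXZ hxX
  simp only [Finset.mem_union] at hx
  rcases hx with (hx | hx) | hx
  · exact absurd hx hxC
  · have := h.b0A.2 _ p0 ⟨s0, fun hc => hxC (Finset.mem_inter.1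
      (hc (Finset.mem_inter.2 ⟨hxX, hx⟩))).1⟩
    linarith
  · have := h.b1A.2 _ p1 ⟨s1, fun hc => hxC (Finset.mem_inter.1
      (hc (Finset.mem_inter.2 ⟨hxX, hx⟩))).1⟩
    linarith

theorem cl0 (h : T3 G C A0 A1) : G.Cl A0 ↑(C ∪ A0 ∪ A1) := by
  refine ⟨h.pc0, fun X hX hlt => ?_⟩
  have hXZ : X ⊆ C ∪ A0 ∪ A1 := Finset.coe_subset.1 hX.1
  have hf := h.dlf hXZ
  have e1 : X ∩ A0 = A0 := Finset.inter_eq_right.2 hlt.1
  have e2 : X ∩ (C ∩ A0) = C ∩ A0 :=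
    Finset.inter_eq_right.2 (Finset.inter_subset_right.trans hlt.1)
  have e3 : X ∩ (A0 ∩ A1) = A0 ∩ A1 :=
    Finset.inter_eq_right.2 (Finset.inter_subset_left.trans hlt.1)
  have e4 : X ∩ (C ∩ A0 ∩ A1) = C ∩ A0 ∩ A1 := Finset.inter_eq_right.2
    ((Finset.inter_subset_left.trans Finset.inter_subset_right).trans hlt.1)
  rw [e1, e2, e3, e4] at hf
  have pC := pcX hX h.pcC
  have p1 := pcX hX h.pc1
  have s1 : A0 ∩ A1 ⊆ X ∩ A1 := Finset.inter_subset_inter_right hlt.1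
  have c8 := h.claim8 p1 s1
  have e5 : X ∩ A1 ∩ (C ∩ A1) = X ∩ (C ∩ A1) := by
    ext x; simp only [Finset.mem_inter]; tauto
  rw [e5] at c8
  have sC : C ∩ A0 ⊆ X ∩ C := by
    intro x hx
    rw [Finset.mem_inter] at hx ⊢
    exact ⟨hlt.1 hx.2, hx.1⟩
  by_cases hc : X ∩ C ⊆ C ∩ A0
  · have e6 : X ∩ C = C ∩ A0 := Finset.Subset.antisymm hc sC
    have e7 : X ∩ (C ∩ A1) = C ∩ A0 ∩ A1 := by
      rw [← Finset.inter_assoc, e6]
    rw [e6, e7] at hf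
    obtain ⟨x, hxX, hx0⟩ := Finset.exists_of_ssubset hlt
    have hx := hXZ hxX
    simp only [Finset.mem_union] at hx
    rcases hx with (hx | hx) | hx
    · exact absurd (Finset.mem_inter.1 (hc (Finset.mem_inter.2 ⟨hxX, hx⟩))).2 hx0
    · exact absurd hx hx0
    · have := h.u1.2 _ p1 ⟨s1, fun hc => hx0 (Finset.mem_inter.1
        (hc (Finset.mem_inter.2 ⟨hxX, hx⟩))).1⟩
      linarith
  · have := h.b0C.2 _ pC ⟨sC, hc⟩
    linarith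

theorem cl1 (h : T3 G C A0 A1) : G.Cl A1 ↑(C ∪ A0 ∪ A1) := by
  have := h.swap.cl0
  rwa [Finset.union_right_comm] at this

omit [DecidableEq V] in
theorem pow_aux {a b c d : ℤ} {x y z w : ℕ} (ha : 0 ≤ a) (_ : 0 ≤ b) (_ : 0 ≤ c) (had : a < d)
    (hbd : b < d) (hcd : c < d) (hx : x ≤ 3 ^ a.toNat) (hy : y ≤ 3 ^ b.toNat)
    (hz : z ≤ 3 ^ c.toNat) (hw : w ≤ x + y + z) : 0 ≤ d ∧ w ≤ 3 ^ d.toNat := by
  refine ⟨by omega, ?_⟩
  obtain ⟨n, hn⟩ : ∃ n, d.toNat = n + 1 := ⟨d.toNat - 1, by omega⟩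
  have h1 : (3 : ℕ) ^ a.toNat ≤ 3 ^ n := Nat.pow_le_pow_right (by norm_num) (by omega)
  have h2 : (3 : ℕ) ^ b.toNat ≤ 3 ^ n := Nat.pow_le_pow_right (by norm_num) (by omega)
  have h3 : (3 : ℕ) ^ c.toNat ≤ 3 ^ n := Nat.pow_le_pow_right (by norm_num) (by omega)
  rw [hn, pow_succ]
  omega

theorem fZ_cl (h : T3 G C A0 A1) {X : Finset V} (hX : G.Cl X ↑(C ∪ A0 ∪ A1)) :
    0 ≤ G.dl X ∧ X.card ≤ 3 ^ (G.dl X).toNat := by
  have hXZ : X ⊆ C ∪ A0 ∪ A1 := Finset.coe_subset.1 hX.1.1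
  have amb := h.amb
  by_cases hC : X ⊆ C
  · have := pcX hX.1 h.pcC
    rw [Finset.inter_eq_left.2 hC] at this
    exact h.hC.f X this
  by_cases h0 : X ⊆ A0
  · have := pcX hX.1 h.pc0
    rw [Finset.inter_eq_left.2 h0] at this
    exact h.h0.f X this
  by_cases h1 : X ⊆ A1
  · have := pcX hX.1 h.pc1
    rw [Finset.inter_eq_left.2 h1] at this
    exact h.h1.f X this
  have fC := h.hC.f _ (pcX hX.1 h.pcC)
  have f0 := h.h0.f _ (pcX hX.1 h.pc0)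
  have f1 := h.h1.f _ (pcX hX.1 h.pc1)
  have lC : G.dl (X ∩ C) < G.dl X := (hX.inter amb h.clC).2 X hX.1
    ⟨Finset.inter_subset_left, fun hc => hC (hc.trans Finset.inter_subset_right)⟩
  have l0 : G.dl (X ∩ A0) < G.dl X := (hX.inter amb h.cl0).2 X hX.1
    ⟨Finset.inter_subset_left, fun hc => h0 (hc.trans Finset.inter_subset_right)⟩
  have l1 : G.dl (X ∩ A1) < G.dl X := (hX.inter amb h.cl1).2 X hX.1
    ⟨Finset.inter_subset_left, fun hc => h1 (hc.trans Finset.inter_subset_right)⟩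
  have hcard : X.card ≤ (X ∩ C).card + (X ∩ A0).card + (X ∩ A1).card := by
    have e : X = X ∩ C ∪ X ∩ A0 ∪ X ∩ A1 := by
      ext x
      have : x ∈ X → x ∈ C ∪ A0 ∪ A1 := fun hx => hXZ hx
      simp only [Finset.mem_union, Finset.mem_inter] at this ⊢
      tauto
    have a := Finset.card_union_le (X ∩ C ∪ X ∩ A0) (X ∩ A1)
    have b := Finset.card_union_le (X ∩ C) (X ∩ A0)
    rw [← e] at a
    omega
  exact pow_aux fC.1 f0.1 f1.1 lC l0 l1 fC.2 f0.2 f1.2 hcard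

theorem kZ (h : T3 G C A0 A1) : G.K ↑(C ∪ A0 ∪ A1) where
  a1 := h.a1Z
  a2 := h.a2Z
  f := by
    intro X hX
    obtain ⟨Y, hY⟩ := Str.exists_isC h.amb hX.1
    have h1 := Str.IsC.le h.amb hX hY
    obtain ⟨h2, h3⟩ := h.fZ_cl hY.1
    refine ⟨h2.trans h1, (Finset.card_le_card hY.2.1).trans (h3.trans ?_)⟩
    exact Nat.pow_le_pow_right (by norm_num) (by omega)

end T3

/-- Lemma 3A, inside one structure. -/
theorem lemma3A {G : Str V} {C A0 A1 : Finset V}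
    (hC : G.K C) (h0 : G.K A0) (h1 : G.K A1)
    (he : ∀ a ∈ C ∪ A0 ∪ A1, ∀ b ∈ C ∪ A0 ∪ A1, G.adj a b →
      (a ∈ C ∧ b ∈ C) ∨ (a ∈ A0 ∧ b ∈ A0) ∨ (a ∈ A1 ∧ b ∈ A1))
    (b0C : G.Cl (C ∩ A0) C) (b0A : G.Cl (C ∩ A0) A0)
    (b1C : G.Cl (C ∩ A1) C) (b1A : G.Cl (C ∩ A1) A1)
    (u0 : G.Cl (A0 ∩ A1) A0) (u1 : G.Cl (A0 ∩ A1) A1)
    (i0 : ∀ F, G.PC F A0 → A0 ∩ A1 ⊆ F → C ∩ A0 ⊆ F →
      G.dl (A0 ∩ A1) + G.dl (C ∩ A0) - G.dl (C ∩ A0 ∩ A1) ≤ G.dl F)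
    (i1 : ∀ F, G.PC F A1 → A0 ∩ A1 ⊆ F → C ∩ A1 ⊆ F →
      G.dl (A0 ∩ A1) + G.dl (C ∩ A1) - G.dl (C ∩ A0 ∩ A1) ≤ G.dl F) :
    G.K ↑(C ∪ A0 ∪ A1) ∧ G.Cl C ↑(C ∪ A0 ∪ A1) ∧ G.Cl A0 ↑(C ∪ A0 ∪ A1) ∧
      G.Cl A1 ↑(C ∪ A0 ∪ A1) ∧
      G.dl (C ∪ A0 ∪ A1) = G.dl C + G.dl A0 + G.dl A1 - G.dl (C ∩ A0) - G.dl (C ∩ A1)
        - G.dl (A0 ∩ A1) + G.dl (C ∩ A0 ∩ A1) := by
  have h : T3 G C A0 A1 := ⟨hC, h0, h1, he, b0C, b0A, b1C, b1A, u0, u1, i0, i1⟩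
  refine ⟨h.kZ, h.clC, h.cl0, h.cl1, ?_⟩
  have := h.dlf (Finset.Subset.refl _)
  have e : ∀ P : Finset V, P ⊆ C ∪ A0 ∪ A1 → (C ∪ A0 ∪ A1) ∩ P = P :=
    fun P hP => Finset.inter_eq_right.2 hP
  have sC : C ⊆ C ∪ A0 ∪ A1 := Finset.subset_union_left.trans Finset.subset_union_left
  have s0 : A0 ⊆ C ∪ A0 ∪ A1 := Finset.subset_union_right.trans Finset.subset_union_left
  have s1 : A1 ⊆ C ∪ A0 ∪ A1 := Finset.subset_union_right
  rw [e C sC, e A0 s0, e A1 s1, e _ (Finset.inter_subset_left.trans sC),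
    e _ (Finset.inter_subset_left.trans sC), e _ (Finset.inter_subset_left.trans s0),
    e _ ((Finset.inter_subset_left.trans Finset.inter_subset_left).trans sC)] at this
  exact this

end Run7.h540
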