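import Pool.Agent.Run7.h540.A4
import Pool.Agent.Run7.h540.B1c

/-!
# Piece B2 (helper690): the gluing of two copies of `A` over `C`
-/

set_option autoImplicit false
set_option linter.all false

namespace Run7.h540
open Classical

section glue

variable {V W Y : Type} [DecidableEq V] [DecidableEq W] [DecidableEq Y] {G : Str V} {H : Str W}
  {S : Str Y} {C : Finset V} {A B U : Finset W} {h0 h1 : W → V} {i : V → Y} {f0 f1 : W → Y}

/-- P-closed subsets of the image of an embedding -/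
theorem Emb.pull {F : Finset Y} (e : Emb H S A f0) (hF : S.PC F ↑(A.image f0)) :
    ∃ F' : Finset W, F' ⊆ A ∧ F'.image f0 = F ∧ H.PC F' ↑A ∧ ∀ x ∈ A, (f0 x ∈ F ↔ x ∈ F') := by
  have hsub : F ⊆ A.image f0 := Finset.coe_subset.1 hF.1
  have h1 : (A.filter fun x => f0 x ∈ F) ⊆ A := Finset.filter_subset _ _
  have h2 : (A.filter fun x => f0 x ∈ F).image f0 = F := by
    ext y
    rw [Finset.mem_image]
    constructor
    · rintro ⟨x, hx, rfl⟩
      exact (Finset.mem_filter.1 hx).2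
    · intro hy
      obtain ⟨x, hx, rfl⟩ := Finset.mem_image.1 (hsub hy)
      exact ⟨x, Finset.mem_filter.2 ⟨hx, hy⟩, rfl⟩
  refine ⟨_, h1, h2, ?_, ?_⟩
  · have h3 := e.pc h1
    rw [h2] at h3
    exact h3.1 hF
  · intro x hx
    rw [Finset.mem_filter]
    exact ⟨fun h => ⟨hx, h⟩, fun h => h.2⟩

/-- the solution from the three embeddings -/
theorem Sol.mk' (h : Prb G H C A B U h0 h1) (ei : Emb G S C i) (e0 : Emb H S A f0)
    (e1 : Emb H S A f1) (g0 : ∀ x ∈ B, f0 x = i (h0 x)) (g1 : ∀ x ∈ B, f1 x = i (h1 x))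
    (gU : ∀ x ∈ U, f0 x = f1 x) (i0 : ∀ x ∈ A, f0 x ∈ C.image i → x ∈ B)
    (i1 : ∀ x ∈ A, f1 x ∈ C.image i → x ∈ B) (i01 : ∀ x ∈ A, ∀ y ∈ A, f0 x = f1 y → x = y ∧ x ∈ U)
    (he : ∀ a b, S.adj a b → (a ∈ C.image i ∧ b ∈ C.image i) ∨ (a ∈ A.image f0 ∧ b ∈ A.image f0) ∨
      (a ∈ A.image f1 ∧ b ∈ A.image f1)) :
    Sol G H C A B U h0 h1 S (C.image i ∪ A.image f0 ∪ A.image f1) i f0 f1 := by
  have hBA : B ⊆ A := Finset.coe_subset.1 h.clB.1.1
  have hUA : U ⊆ A := Finset.coe_subset.1 h.clU.1.1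
  have hB0C : B.image h0 ⊆ C := Finset.coe_subset.1 h.c0.1.1
  have hB1C : B.image h1 ⊆ C := Finset.coe_subset.1 h.c1.1.1
  have e0B : (B.image h0).image i = B.image f0 := by
    rw [Finset.image_image]
    exact Finset.image_congr fun x hx => (g0 x hx).symm
  have e1B : (B.image h1).image i = B.image f1 := by
    rw [Finset.image_image]
    exact Finset.image_congr fun x hx => (g1 x hx).symm
  have eU : U.image f0 = U.image f1 := Finset.image_congr fun x hx => gU x hx
  have n0 : C.image i ∩ A.image f0 = B.image f0 := by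
    apply Finset.Subset.antisymm
    · intro y hy
      rw [Finset.mem_inter] at hy
      obtain ⟨x, hx, rfl⟩ := Finset.mem_image.1 hy.2
      exact Finset.mem_image_of_mem f0 (i0 x hx hy.1)
    · refine Finset.subset_inter ?_ (Finset.image_subset_image hBA)
      rw [← e0B]
      exact Finset.image_subset_image hB0C
  have n1 : C.image i ∩ A.image f1 = B.image f1 := by
    apply Finset.Subset.antisymm
    · intro y hy
      rw [Finset.mem_inter] at hy
      obtain ⟨x, hx, rfl⟩ := Finset.mem_image.1 hy.2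
      exact Finset.mem_image_of_mem f1 (i1 x hx hy.1)
    · refine Finset.subset_inter ?_ (Finset.image_subset_image hBA)
      rw [← e1B]
      exact Finset.image_subset_image hB1C
  have nU : A.image f0 ∩ A.image f1 = U.image f0 := by
    apply Finset.Subset.antisymm
    · intro y hy
      rw [Finset.mem_inter] at hy
      obtain ⟨x, hx, rfl⟩ := Finset.mem_image.1 hy.1
      obtain ⟨x', hx', hxx⟩ := Finset.mem_image.1 hy.2
      exact Finset.mem_image_of_mem f0 (i01 x hx x' hx' hxx.symm).2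
    · refine Finset.subset_inter (Finset.image_subset_image hUA) ?_
      rw [eU]
      exact Finset.image_subset_image hUA
  have nE : C.image i ∩ A.image f0 ∩ A.image f1 = (B ∩ U).image f0 := by
    rw [Finset.inter_assoc, nU]
    apply Finset.Subset.antisymm
    · intro y hy
      rw [Finset.mem_inter] at hy
      obtain ⟨x, hx, rfl⟩ := Finset.mem_image.1 hy.2
      exact Finset.mem_image_of_mem f0 (Finset.mem_inter.2 ⟨i0 x (hUA hx) hy.1, hx⟩)
    · intro y hy
      obtain ⟨x, hx, rfl⟩ := Finset.mem_image.1 hy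
      rw [Finset.mem_inter] at hx
      refine Finset.mem_inter.2 ⟨?_, Finset.mem_image_of_mem f0 hx.2⟩
      have h3 : f0 x ∈ C.image i ∩ A.image f0 := by
        rw [n0]
        exact Finset.mem_image_of_mem f0 hx.1
      exact (Finset.mem_inter.1 h3).1
  have eE : (B ∩ U).image f0 = (B ∩ U).image f1 :=
    Finset.image_congr fun x hx => gU x (Finset.mem_inter.1 hx).2
  have dB0 : S.dl (B.image f0) = H.dl B := e0.dl hBA
  have dB1 : S.dl (B.image f1) = H.dl B := e1.dl hBA
  have dU : S.dl (U.image f0) = H.dl U := e0.dl hUA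
  have dE : S.dl ((B ∩ U).image f0) = H.dl (B ∩ U) := e0.dl (Finset.inter_subset_left.trans hBA)
  obtain ⟨r1, r2, r3, r4, r5⟩ := lemma3A (G := S) (C := C.image i) (A0 := A.image f0)
    (A1 := A.image f1) (ei.k' h.kC) (e0.k' h.kA) (e1.k' h.kA) (fun a _ b _ hab => he a b hab)
    (by
      rw [n0, ← e0B]
      exact (ei.cl hB0C).2 h.c0)
    (by
      rw [n0]
      exact (e0.cl hBA).2 h.clB)
    (by
      rw [n1, ← e1B]
      exact (ei.cl hB1C).2 h.c1)
    (by
      rw [n1]
      exact (e1.cl hBA).2 h.clB)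
    (by
      rw [nU]
      exact (e0.cl hUA).2 h.clU)
    (by
      rw [nU, eU]
      exact (e1.cl hUA).2 h.clU)
    (by
      intro F hF hUF hBF
      obtain ⟨F', p1, p2, p3, p4⟩ := e0.pull hF
      rw [nE, nU, n0, dU, dB0, dE, ← p2, e0.dl p1]
      apply h.ind F' p3
      · intro x hx
        rw [← p4 x (hUA hx)]
        apply hUF
        rw [nU]
        exact Finset.mem_image_of_mem f0 hx
      · intro x hx
        rw [← p4 x (hBA hx)]
        apply hBF
        rw [n0]
        exact Finset.mem_image_of_mem f0 hx)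
    (by
      intro F hF hUF hBF
      obtain ⟨F', p1, p2, p3, p4⟩ := e1.pull hF
      rw [nE, nU, n1, dU, dB1, dE, ← p2, e1.dl p1]
      apply h.ind F' p3
      · intro x hx
        rw [← p4 x (hUA hx)]
        apply hUF
        rw [nU, eU]
        exact Finset.mem_image_of_mem f1 hx
      · intro x hx
        rw [← p4 x (hBA hx)]
        apply hBF
        rw [n1]
        exact Finset.mem_image_of_mem f1 hx)
  refine ⟨ei, e0, e1, rfl, g0, g1, gU, r1, r2, r3, r4, ?_, i0, i1⟩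
  rw [r5, nE, nU, n0, n1, dU, dB0, dB1, dE, ei.dl (Finset.Subset.refl _),
    e0.dl (Finset.Subset.refl _), e1.dl (Finset.Subset.refl _)]
  ring

end glue

theorem amalg {V W : Type} [DecidableEq V] [DecidableEq W] {G : Str V} {H : Str W} {C : Finset V} {A B U : Finset W}
    {h0 h1 : W → V} (h : Prb G H C A B U h0 h1) :
    ∃ (S : Str (V ⊕ W ⊕ W)) (Z : Finset (V ⊕ W ⊕ W)) (i : V → V ⊕ W ⊕ W)
      (f0 f1 : W → V ⊕ W ⊕ W), Sol G H C A B U h0 h1 S Z i f0 f1 := by
  have hBA : B ⊆ A := Finset.coe_subset.1 h.clB.1.1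
  have hUA : U ⊆ A := Finset.coe_subset.1 h.clU.1.1
  let i : V → V ⊕ W ⊕ W := Sum.inl
  let f0 : W → V ⊕ W ⊕ W := fun x => if x ∈ B then Sum.inl (h0 x) else Sum.inr (Sum.inl x)
  let f1 : W → V ⊕ W ⊕ W := fun x => if x ∈ B then Sum.inl (h1 x) else
    if x ∈ U then Sum.inr (Sum.inl x) else Sum.inr (Sum.inr x)
  have f0B : ∀ x ∈ B, f0 x = Sum.inl (h0 x) := fun x hx => if_pos hx
  have f0N : ∀ x, x ∉ B → f0 x = Sum.inr (Sum.inl x) := fun x hx => if_neg hx
  have f1B : ∀ x ∈ B, f1 x = Sum.inl (h1 x) := fun x hx => if_pos hx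
  have f1U : ∀ x, x ∉ B → x ∈ U → f1 x = Sum.inr (Sum.inl x) := fun x hx hxU => by
    show (if x ∈ B then Sum.inl (h1 x) else
      if x ∈ U then Sum.inr (Sum.inl x) else Sum.inr (Sum.inr x)) = _
    rw [if_neg hx, if_pos hxU]
  have f1N : ∀ x, x ∉ B → x ∉ U → f1 x = Sum.inr (Sum.inr x) := fun x hx hxU => by
    show (if x ∈ B then Sum.inl (h1 x) else
      if x ∈ U then Sum.inr (Sum.inl x) else Sum.inr (Sum.inr x)) = _
    rw [if_neg hx, if_neg hxU]
  -- the maps
  have fi0 : ∀ x v, f0 x = Sum.inl v → x ∈ B ∧ v = h0 x := by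
    intro x v hxv
    by_cases hx : x ∈ B
    · rw [f0B x hx] at hxv
      exact ⟨hx, (Sum.inl_injective hxv).symm⟩
    · rw [f0N x hx] at hxv
      exact absurd hxv (by simp)
  have fi1 : ∀ x v, f1 x = Sum.inl v → x ∈ B ∧ v = h1 x := by
    intro x v hxv
    by_cases hx : x ∈ B
    · rw [f1B x hx] at hxv
      exact ⟨hx, (Sum.inl_injective hxv).symm⟩
    · by_cases hxU : x ∈ U
      · rw [f1U x hx hxU] at hxv
        exact absurd hxv (by simp)
      · rw [f1N x hx hxU] at hxv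
        exact absurd hxv (by simp)
  have inj0 : ∀ x ∈ A, ∀ y ∈ A, f0 x = f0 y → x = y := by
    intro x _ y _ hxy
    by_cases hx : x ∈ B
    · rw [f0B x hx] at hxy
      obtain ⟨hy, hv⟩ := fi0 y _ hxy.symm
      exact h.e0.inj x hx y hy hv
    · by_cases hy : y ∈ B
      · rw [f0B y hy] at hxy
        exact absurd (fi0 x _ hxy).1 hx
      · rw [f0N x hx, f0N y hy] at hxy
        exact Sum.inl_injective (Sum.inr_injective hxy)
  have inj1 : ∀ x ∈ A, ∀ y ∈ A, f1 x = f1 y → x = y := by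
    intro x _ y _ hxy
    by_cases hx : x ∈ B
    · rw [f1B x hx] at hxy
      obtain ⟨hy, hv⟩ := fi1 y _ hxy.symm
      exact h.e1.inj x hx y hy hv
    · by_cases hy : y ∈ B
      · rw [f1B y hy] at hxy
        exact absurd (fi1 x _ hxy).1 hx
      · by_cases hxU : x ∈ U
        · by_cases hyU : y ∈ U
          · rw [f1U x hx hxU, f1U y hy hyU] at hxy
            exact Sum.inl_injective (Sum.inr_injective hxy)
          · rw [f1U x hx hxU, f1N y hy hyU] at hxy
            exact absurd (Sum.inr_injective hxy) (by simp)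
        · by_cases hyU : y ∈ U
          · rw [f1N x hx hxU, f1U y hy hyU] at hxy
            exact absurd (Sum.inr_injective hxy) (by simp)
          · rw [f1N x hx hxU, f1N y hy hyU] at hxy
            exact Sum.inr_injective (Sum.inr_injective hxy)
  have i01 : ∀ x ∈ A, ∀ y ∈ A, f0 x = f1 y → x = y ∧ x ∈ U := by
    intro x _ y _ hxy
    by_cases hx : x ∈ B
    · rw [f0B x hx] at hxy
      obtain ⟨hy, hv⟩ := fi1 y _ hxy.symm
      have h3 := h.sep x hx y hy hv
      subst h3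
      exact ⟨rfl, (h.int x hx).1 hv⟩
    · by_cases hy : y ∈ B
      · rw [f1B y hy] at hxy
        exact absurd (fi0 x _ hxy).1 hx
      · by_cases hyU : y ∈ U
        · rw [f0N x hx, f1U y hy hyU] at hxy
          have h3 := Sum.inl_injective (Sum.inr_injective hxy)
          subst h3
          exact ⟨rfl, hyU⟩
        · rw [f0N x hx, f1N y hy hyU] at hxy
          exact absurd (Sum.inr_injective hxy) (by simp)
  have gU : ∀ x ∈ U, f0 x = f1 x := by
    intro x hx
    by_cases hxB : x ∈ B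
    · rw [f0B x hxB, f1B x hxB, (h.int x hxB).2 hx]
    · rw [f0N x hxB, f1U x hxB hx]
  let S : Str (V ⊕ W ⊕ W) :=
    { col := fun p => match p with
        | Sum.inl v => G.col v
        | Sum.inr (Sum.inl x) => H.col x
        | Sum.inr (Sum.inr x) => H.col x
      adj := fun p q => (∃ a ∈ C, ∃ b ∈ C, i a = p ∧ i b = q ∧ G.adj a b) ∨
        (∃ a ∈ A, ∃ b ∈ A, f0 a = p ∧ f0 b = q ∧ H.adj a b) ∨
        (∃ a ∈ A, ∃ b ∈ A, f1 a = p ∧ f1 b = q ∧ H.adj a b) }
  have hS : ∀ p q, S.adj p q ↔ (∃ a ∈ C, ∃ b ∈ C, i a = p ∧ i b = q ∧ G.adj a b) ∨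
        (∃ a ∈ A, ∃ b ∈ A, f0 a = p ∧ f0 b = q ∧ H.adj a b) ∨
        (∃ a ∈ A, ∃ b ∈ A, f1 a = p ∧ f1 b = q ∧ H.adj a b) := fun _ _ => Iff.rfl
  have ei : Emb G S C i := by
    refine ⟨fun a _ b _ hab => Sum.inl_injective hab, fun a _ => rfl, ?_⟩
    intro a ha b hb
    rw [hS]
    constructor
    · rintro (⟨a', ha', b', hb', h3, h4, h5⟩ | ⟨x, hx, y, hy, h3, h4, h5⟩ | ⟨x, hx, y, hy, h3, h4, h5⟩)
      · rw [← Sum.inl_injective h3, ← Sum.inl_injective h4]
        exact h5
      · obtain ⟨hxB, rfl⟩ := fi0 x _ h3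
        obtain ⟨hyB, rfl⟩ := fi0 y _ h4
        exact (h.e0.adj x hxB y hyB).2 h5
      · obtain ⟨hxB, rfl⟩ := fi1 x _ h3
        obtain ⟨hyB, rfl⟩ := fi1 y _ h4
        exact (h.e1.adj x hxB y hyB).2 h5
    · intro hab
      exact Or.inl ⟨a, ha, b, hb, rfl, rfl, hab⟩
  have e0 : Emb H S A f0 := by
    refine ⟨inj0, ?_, ?_⟩
    · intro x _
      by_cases hx : x ∈ B
      · rw [f0B x hx]
        exact h.e0.col x hx
      · rw [f0N x hx]
    · intro x hx y hy
      rw [hS]
      constructor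
      · rintro (⟨a', ha', b', hb', h3, h4, h5⟩ | ⟨x', hx', y', hy', h3, h4, h5⟩ |
          ⟨x', hx', y', hy', h3, h4, h5⟩)
        · obtain ⟨hxB, rfl⟩ := fi0 x _ h3.symm
          obtain ⟨hyB, rfl⟩ := fi0 y _ h4.symm
          exact (h.e0.adj x hxB y hyB).1 h5
        · rw [← inj0 _ hx' _ hx h3, ← inj0 _ hy' _ hy h4]
          exact h5
        · rw [(i01 _ hx _ hx' h3.symm).1, (i01 _ hy _ hy' h4.symm).1]
          exact h5
      · intro hab
        exact Or.inr (Or.inl ⟨x, hx, y, hy, rfl, rfl, hab⟩)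
  have e1 : Emb H S A f1 := by
    refine ⟨inj1, ?_, ?_⟩
    · intro x _
      by_cases hx : x ∈ B
      · rw [f1B x hx]
        exact h.e1.col x hx
      · by_cases hxU : x ∈ U
        · rw [f1U x hx hxU]
        · rw [f1N x hx hxU]
    · intro x hx y hy
      rw [hS]
      constructor
      · rintro (⟨a', ha', b', hb', h3, h4, h5⟩ | ⟨x', hx', y', hy', h3, h4, h5⟩ |
          ⟨x', hx', y', hy', h3, h4, h5⟩)
        · obtain ⟨hxB, rfl⟩ := fi1 x _ h3.symm
          obtain ⟨hyB, rfl⟩ := fi1 y _ h4.symm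
          exact (h.e1.adj x hxB y hyB).1 h5
        · rw [← (i01 _ hx' _ hx h3).1, ← (i01 _ hy' _ hy h4).1]
          exact h5
        · rw [← inj1 _ hx' _ hx h3, ← inj1 _ hy' _ hy h4]
          exact h5
      · intro hab
        exact Or.inr (Or.inr ⟨x, hx, y, hy, rfl, rfl, hab⟩)
  refine ⟨S, C.image i ∪ A.image f0 ∪ A.image f1, i, f0, f1, Sol.mk' h ei e0 e1 f0B f1B gU ?_ ?_ i01 ?_⟩
  · intro x hx hxC
    obtain ⟨v, _, hv⟩ := Finset.mem_image.1 hxC
    exact (fi0 x v hv.symm).1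
  · intro x hx hxC
    obtain ⟨v, _, hv⟩ := Finset.mem_image.1 hxC
    exact (fi1 x v hv.symm).1
  · intro a b hab
    rw [hS] at hab
    rcases hab with ⟨a', ha', b', hb', h3, h4, h5⟩ | ⟨x, hx, y, hy, h3, h4, h5⟩ |
      ⟨x, hx, y, hy, h3, h4, h5⟩
    · rw [← h3, ← h4]
      exact Or.inl ⟨Finset.mem_image_of_mem i ha', Finset.mem_image_of_mem i hb'⟩
    · rw [← h3, ← h4]
      exact Or.inr (Or.inl ⟨Finset.mem_image_of_mem f0 hx, Finset.mem_image_of_mem f0 hy⟩)
    · rw [← h3, ← h4]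
      exact Or.inr (Or.inr ⟨Finset.mem_image_of_mem f1 hx, Finset.mem_image_of_mem f1 hy⟩)

end Run7.h540
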