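import Mathlib

/-!
Coloured digraphs, the predimension, and the classes of finite structures used in the
construction.
-/

namespace Run7.h540

open Classical

/-- The three colours. -/
inductive Col : Type
  | D | X | L
  deriving DecidableEq

/-- A coloured digraph. -/
structure Str (V : Type) where
  col : V → Col
  adj : V → V → Prop

namespace Str

variable {V : Type} (G : Str V)

/-- A vertex of colour `D` is attached to a vertex of colour `X`. -/
def E (a x : V) : Prop := G.col a = Col.D ∧ G.col x = Col.X ∧ G.adj a x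

/-- The point `a` (colour `X`) lies on the line `l` (colour `L`). -/
def Q (a l : V) : Prop := G.col a = Col.X ∧ G.col l = Col.L ∧ G.adj a l

/-- The relation between two distinct points. -/
def R (a b : V) : Prop := G.col a = Col.X ∧ G.col b = Col.X ∧ a ≠ b ∧ G.adj a b

/-- The threshold of a vertex. -/
def thr (v : V) : ℕ :=
  match G.col v with
  | Col.D => 0
  | Col.X => 1
  | Col.L => 2

/-- The weight of a vertex: 1, 101, 201. -/
def wt (v : V) : ℤ := 100 * (G.thr v : ℤ) + 1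

/-- The number of pairs `(a, x)` in `S` with `E a x`. -/
noncomputable def eE (S : Finset V) : ℕ := ((S ×ˢ S).filter fun p => G.E p.1 p.2).card

/-- The number of pairs `(a, l)` in `S` with `Q a l`. -/
noncomputable def eQ (S : Finset V) : ℕ := ((S ×ˢ S).filter fun p => G.Q p.1 p.2).card

/-- The number of pairs `(a, b)` in `S` with `R a b`. -/
noncomputable def eR (S : Finset V) : ℕ := ((S ×ˢ S).filter fun p => G.R p.1 p.2).card

/-- The number of triples `(a, b, l)` in `S` with `R a b`, `Q a l`, `Q b l`. -/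
noncomputable def tr (S : Finset V) : ℕ :=
  ((S ×ˢ (S ×ˢ S)).filter fun p => G.R p.1 p.2.1 ∧ G.Q p.1 p.2.2 ∧ G.Q p.2.1 p.2.2).card

/-- The predimension. -/
noncomputable def dl (S : Finset V) : ℤ :=
  (∑ v ∈ S, G.wt v) - G.eE S - 100 * G.eQ S - G.eR S + G.tr S

/-- The number of incidence neighbours of `v` in `S`. -/
noncomputable def qd (v : V) (S : Finset V) : ℕ := (S.filter fun u => G.Q u v ∨ G.Q v u).card

/-- The number of incidences between `A` and `B`. -/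
noncomputable def cr (A B : Finset V) : ℕ :=
  ((A ×ˢ B).filter fun p => G.Q p.1 p.2 ∨ G.Q p.2 p.1).card

/-- Two distinct lines have at most two common points. -/
def A1 (Z : Set V) : Prop :=
  ∀ l ∈ Z, ∀ l' ∈ Z, l ≠ l' → ∀ S : Finset V, ↑S ⊆ Z → (∀ a ∈ S, G.Q a l ∧ G.Q a l') →
    S.card ≤ 2

/-- The incidence graph is 5-degenerate. -/
def A2 (Z : Set V) : Prop :=
  ∀ F : Finset V, ↑F ⊆ Z → F.Nonempty → ∃ v ∈ F, G.qd v F ≤ 5

/-- `S` is P-closed in `Z`. -/
def PC (S : Finset V) (Z : Set V) : Prop :=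
  ↑S ⊆ Z ∧ ∀ v ∈ Z, v ∉ S → G.qd v S ≤ G.thr v

/-- The class of structures. -/
structure K (Z : Set V) : Prop where
  a1 : G.A1 Z
  a2 : G.A2 Z
  f : ∀ S : Finset V, G.PC S Z → 0 ≤ G.dl S ∧ S.card ≤ 3 ^ (G.dl S).toNat

/-- `A` is closed in `Z`. -/
def Cl (A : Finset V) (Z : Set V) : Prop :=
  G.PC A Z ∧ ∀ B : Finset V, G.PC B Z → A ⊂ B → G.dl A < G.dl B

/-- `H` is the P-closure of `S` in `Z`. -/
def IsP (S H : Finset V) (Z : Set V) : Prop :=
  G.PC H Z ∧ S ⊆ H ∧ ∀ H' : Finset V, G.PC H' Z → S ⊆ H' → H ⊆ H'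

/-- The ambient sets in which closures exist. -/
structure Amb (Z : Set V) : Prop where
  a1 : G.A1 Z
  a2 : G.A2 Z
  fin : ∀ S : Finset V, ↑S ⊆ Z → ∃ C : Finset V, S ⊆ C ∧ G.Cl C Z

/-- `C` is the closure of `S` in `Z`. -/
def IsC (S C : Finset V) (Z : Set V) : Prop :=
  G.Cl C Z ∧ S ⊆ C ∧ ∀ C' : Finset V, G.Cl C' Z → S ⊆ C' → C ⊆ C'

end Str

/-- `f` is an embedding of the structure `G` on `S` into `H`. -/
structure Emb {V W : Type} (G : Str V) (H : Str W) (S : Finset V) (f : V → W) : Prop where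
  inj : ∀ a ∈ S, ∀ b ∈ S, f a = f b → a = b
  col : ∀ a ∈ S, H.col (f a) = G.col a
  adj : ∀ a ∈ S, ∀ b ∈ S, (H.adj (f a) (f b) ↔ G.adj a b)

/-- The data of an amalgamation problem: two copies of `A` are glued to `C` along two copies of
`B`, and to each other along `U`. -/
structure Prb {V W : Type} [DecidableEq V] [DecidableEq W] (G : Str V) (H : Str W) (C : Finset V) (A B U : Finset W)
    (h0 h1 : W → V) : Prop where
  kC : G.K C
  kA : H.K A
  clB : H.Cl B A
  clU : H.Cl U A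
  e0 : Emb H G B h0
  e1 : Emb H G B h1
  c0 : G.Cl (B.image h0) C
  c1 : G.Cl (B.image h1) C
  sep : ∀ x ∈ B, ∀ y ∈ B, h0 x = h1 y → x = y
  int : ∀ x ∈ B, (h0 x = h1 x ↔ x ∈ U)
  ind : ∀ F : Finset W, H.PC F A → U ⊆ F → B ⊆ F → H.dl U + H.dl B - H.dl (B ∩ U) ≤ H.dl F

/-- The solution of an amalgamation problem. -/
structure Sol {V W Y : Type} [DecidableEq V] [DecidableEq W] [DecidableEq Y] (G : Str V) (H : Str W) (C : Finset V) (A B U : Finset W)
    (h0 h1 : W → V) (S : Str Y) (Z : Finset Y) (i : V → Y) (f0 f1 : W → Y) : Prop where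
  ei : Emb G S C i
  e0 : Emb H S A f0
  e1 : Emb H S A f1
  hZ : Z = C.image i ∪ A.image f0 ∪ A.image f1
  g0 : ∀ x ∈ B, f0 x = i (h0 x)
  g1 : ∀ x ∈ B, f1 x = i (h1 x)
  gU : ∀ x ∈ U, f0 x = f1 x
  kZ : S.K Z
  ci : S.Cl (C.image i) Z
  c0 : S.Cl (A.image f0) Z
  c1 : S.Cl (A.image f1) Z
  hdl : S.dl Z = G.dl C + 2 * H.dl A - 2 * H.dl B - H.dl U + H.dl (B ∩ U)
  i0 : ∀ x ∈ A, f0 x ∈ C.image i → x ∈ B
  i1 : ∀ x ∈ A, f1 x ∈ C.image i → x ∈ B

/-- Rich structures. -/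
structure Rich (M : Str ℕ) (Ω : Set ℕ) : Prop where
  k : M.K Ω
  fin : ∀ S : Finset ℕ, ↑S ⊆ Ω → ∃ C : Finset ℕ, S ⊆ C ∧ M.Cl C Ω
  rich : ∀ (W : Type) (H : Str W) (A Z : Finset W), H.K Z → H.Cl A Z → ∀ f : W → ℕ,
    Emb H M A f → M.Cl (A.image f) Ω →
      ∃ g : W → ℕ, Emb H M Z g ∧ (∀ a ∈ A, g a = f a) ∧ M.Cl (Z.image g) Ω

end Run7.h540
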