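import Pool.Agent.Run7.h540.D1
import Pool.Agent.Run7.h540.B2

/-!
# Piece C (helper690): rich structures exist
-/

set_option autoImplicit false
set_option linter.all false

namespace Run7.h540
open Classical

/-- transport of a structure to the natural numbers -/
theorem exists_transport {Y : Type} (S : Str Y) (Z : Finset Y) (τ : Y → ℕ)
    (hτ : ∀ a ∈ Z, ∀ b ∈ Z, τ a = τ b → a = b) : ∃ S' : Str ℕ, Emb S S' Z τ := by
  refine ⟨⟨fun v => if h : ∃ z ∈ Z, τ z = v then S.col h.choose else Col.D,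
    fun u v => ∃ a ∈ Z, ∃ b ∈ Z, τ a = u ∧ τ b = v ∧ S.adj a b⟩, hτ, ?_, ?_⟩
  · intro a ha
    have h1 : ∃ z ∈ Z, τ z = τ a := ⟨a, ha, rfl⟩
    have h2 : h1.choose = a := hτ _ h1.choose_spec.1 _ ha h1.choose_spec.2
    show (if h : ∃ z ∈ Z, τ z = τ a then S.col h.choose else Col.D) = S.col a
    rw [dif_pos h1, h2]
  · intro a ha b hb
    constructor
    · rintro ⟨a', ha', b', hb', h1, h2, h3⟩
      rw [← hτ _ ha' _ ha h1, ← hτ _ hb' _ hb h2]
      exact h3
    · intro h3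
      exact ⟨a, ha, b, hb, rfl, rfl, h3⟩

/-- codes of extension problems -/
abbrev Code : Type :=
  Finset ℕ × Finset ℕ × Finset ℕ × Finset ℕ × Finset (ℕ × ℕ) × (ℕ →₀ ℕ)

/-- the structure of a code -/
def Code.str (c : Code) : Str ℕ where
  col := fun v => if v ∈ c.2.2.1 then Col.D else if v ∈ c.2.2.2.1 then Col.X else Col.L
  adj := fun a b => (a, b) ∈ c.2.2.2.2.1

theorem exists_code {W : Type} [DecidableEq W] (H : Str W) (A Z : Finset W) (hAZ : A ⊆ Z) (f : W → ℕ) :
    ∃ (c : Code) (e : W → ℕ), Emb H c.str Z e ∧ c.1 = A.image e ∧ c.2.1 = Z.image e ∧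
      ∀ a ∈ A, c.2.2.2.2.2 (e a) = f a := by
  have he : ∃ e : W → ℕ, ∀ a ∈ Z, ∀ b ∈ Z, e a = e b → a = b := by
    refine ⟨fun w => if hw : w ∈ Z then (Z.equivFin ⟨w, hw⟩ : ℕ) else 0, ?_⟩
    intro a ha b hb hab
    simp only [dif_pos ha, dif_pos hb] at hab
    have h1 := Z.equivFin.injective (Fin.ext hab)
    exact congrArg Subtype.val h1
  obtain ⟨e, he⟩ := he
  let F : ℕ →₀ ℕ := Finsupp.onFinset (A.image e)
    (fun n => if h : ∃ a ∈ A, e a = n then f h.choose else 0) (by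
      intro n hn
      by_contra hcon
      apply hn
      rw [dif_neg]
      rintro ⟨a, ha, rfl⟩
      exact hcon (Finset.mem_image_of_mem e ha))
  refine ⟨(A.image e, Z.image e, (Z.filter fun v => H.col v = Col.D).image e,
    (Z.filter fun v => H.col v = Col.X).image e,
    ((Z ×ˢ Z).filter fun p => H.adj p.1 p.2).image fun p => (e p.1, e p.2), F), e,
    ⟨he, ?_, ?_⟩, rfl, rfl, ?_⟩
  · intro a ha
    have hmem : ∀ c : Col, e a ∈ (Z.filter fun v => H.col v = c).image e ↔ H.col a = c := by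
      intro c
      rw [Finset.mem_image]
      constructor
      · rintro ⟨x, hx, hxa⟩
        rw [Finset.mem_filter] at hx
        rw [← he _ hx.1 _ ha hxa]
        exact hx.2
      · intro hc
        exact ⟨a, Finset.mem_filter.2 ⟨ha, hc⟩, rfl⟩
    show (if e a ∈ (Z.filter fun v => H.col v = Col.D).image e then Col.D
      else if e a ∈ (Z.filter fun v => H.col v = Col.X).image e then Col.X else Col.L) = H.col a
    simp only [hmem]
    rcases hc : H.col a with _ | _ | _ <;> simp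
  · intro a ha b hb
    show (e a, e b) ∈ ((Z ×ˢ Z).filter fun p => H.adj p.1 p.2).image (fun p => (e p.1, e p.2)) ↔ _
    rw [Finset.mem_image]
    constructor
    · rintro ⟨⟨x, y⟩, hxy, h1⟩
      rw [Finset.mem_filter, Finset.mem_product] at hxy
      rw [Prod.mk.injEq] at h1
      rw [← he _ hxy.1.1 _ ha h1.1, ← he _ hxy.1.2 _ hb h1.2]
      exact hxy.2
    · intro h1
      exact ⟨(a, b), Finset.mem_filter.2 ⟨Finset.mem_product.2 ⟨ha, hb⟩, h1⟩, rfl⟩
  · intro a ha
    have h1 : ∃ a' ∈ A, e a' = e a := ⟨a, ha, rfl⟩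
    have h2 : h1.choose = a := he _ (hAZ h1.choose_spec.1) _ (hAZ ha) h1.choose_spec.2
    show (if h : ∃ a' ∈ A, e a' = e a then f h.choose else 0) = f a
    rw [dif_pos h1, h2]

/-- the problem makes sense at a stage -/
def Cond (c : Code) (S : Str ℕ) (C : Finset ℕ) : Prop :=
  c.str.K ↑c.2.1 ∧ c.str.Cl c.1 ↑c.2.1 ∧ Emb c.str S c.1 c.2.2.2.2.2 ∧
    S.Cl (c.1.image c.2.2.2.2.2) ↑C

theorem exists_step (S : Str ℕ) (C : Finset ℕ) (hK : S.K ↑C) (c : Code) :
    ∃ (S' : Str ℕ) (C' : Finset ℕ), S'.K ↑C' ∧ C ⊆ C' ∧ Emb S S' C id ∧ S'.Cl C ↑C' ∧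
      (Cond c S C → ∃ g : ℕ → ℕ, Emb c.str S' c.2.1 g ∧ (∀ a ∈ c.1, g a = c.2.2.2.2.2 a) ∧
        S'.Cl (c.2.1.image g) ↑C') := by
  by_cases hc : Cond c S C
  swap
  · exact ⟨S, C, hK, Finset.Subset.refl _, emb_id _ _, Str.Cl.self C, fun h => absurd h hc⟩
  obtain ⟨hc1, hc2, hc3, hc4⟩ := hc
  set f : ℕ → ℕ := ⇑c.2.2.2.2.2 with hf
  have hAZ : c.1 ⊆ c.2.1 := Finset.coe_subset.1 hc2.1.1
  have hP : Prb S c.str C c.2.1 c.1 c.2.1 f f := by
    refine ⟨hK, hc1, hc2, Str.Cl.self _, hc3, hc3, hc4, hc4, hc3.inj, ?_, ?_⟩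
    · exact fun x hx => ⟨fun _ => hAZ hx, fun _ => rfl⟩
    · intro F hF hAF _
      have h1 : F = c.2.1 := Finset.Subset.antisymm (Finset.coe_subset.1 hF.1) hAF
      have h2 : c.1 ∩ c.2.1 = c.1 := Finset.inter_eq_left.2 hAZ
      rw [h1, h2]
      linarith
  obtain ⟨S0, Z, i, f0, f1, hS⟩ := amalg hP
  -- the transport
  have hiZ : C.image i ⊆ Z := by
    rw [hS.hZ]
    exact Finset.subset_union_left.trans Finset.subset_union_left
  have h0Z : c.2.1.image f0 ⊆ Z := by
    rw [hS.hZ]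
    exact Finset.subset_union_right.trans Finset.subset_union_left
  have hτ : ∃ τ : ℕ ⊕ ℕ ⊕ ℕ → ℕ, (∀ a ∈ Z, ∀ b ∈ Z, τ a = τ b → a = b) ∧ ∀ x ∈ C, τ (i x) = x := by
    let N := C.sup id + 1
    have hN : ∀ x ∈ C, x < N := fun x hx => Nat.lt_succ_of_le (Finset.le_sup (f := id) hx)
    refine ⟨fun z => if h : ∃ x ∈ C, i x = z then h.choose else N + Encodable.encode z, ?_, ?_⟩
    · intro a ha b hb hab
      by_cases h1 : ∃ x ∈ C, i x = a
      · by_cases h2 : ∃ x ∈ C, i x = b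
        · simp only [dif_pos h1, dif_pos h2] at hab
          rw [← h1.choose_spec.2, ← h2.choose_spec.2, hab]
        · simp only [dif_pos h1, dif_neg h2] at hab
          have := hN _ h1.choose_spec.1
          omega
      · by_cases h2 : ∃ x ∈ C, i x = b
        · simp only [dif_neg h1, dif_pos h2] at hab
          have := hN _ h2.choose_spec.1
          omega
        · simp only [dif_neg h1, dif_neg h2] at hab
          exact Encodable.encode_injective (by omega)
    · intro x hx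
      have h1 : ∃ x' ∈ C, i x' = i x := ⟨x, hx, rfl⟩
      show (if h : ∃ x' ∈ C, i x' = i x then h.choose else N + Encodable.encode (i x)) = x
      rw [dif_pos h1]
      exact hS.ei.inj _ h1.choose_spec.1 _ hx h1.choose_spec.2
  obtain ⟨τ, hτ1, hτ2⟩ := hτ
  obtain ⟨S', hS'⟩ := exists_transport S0 Z τ hτ1
  have hCτ : (C.image i).image τ = C := by
    rw [Finset.image_image]
    ext x
    rw [Finset.mem_image]
    constructor
    · rintro ⟨a, ha, rfl⟩
      rw [Function.comp_apply, hτ2 a ha]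
      exact ha
    · intro hx
      exact ⟨x, hx, hτ2 x hx⟩
  refine ⟨S', Z.image τ, (hS'.k).2 hS.kZ, ?_, ?_, ?_, fun _ => ⟨τ ∘ f0, ?_, ?_, ?_⟩⟩
  · rw [← hCτ]
    exact Finset.image_subset_image hiZ
  · refine (hS.ei.comp (hS'.mono hiZ)).congr ?_
    intro a ha
    exact (hτ2 a ha).symm
  · have := (hS'.cl hiZ).2 hS.ci
    rw [hCτ] at this
    exact this
  · exact hS.e0.comp (hS'.mono h0Z)
  · intro a ha
    rw [Function.comp_apply, hS.g0 a ha]
    exact hτ2 _ (Finset.coe_subset.1 hc4.1.1 (Finset.mem_image_of_mem f ha))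
  · rw [← Finset.image_image]
    exact (hS'.cl h0Z).2 hS.c0

theorem exists_rich : ∃ (M : Str ℕ) (Ω : Set ℕ), Rich M Ω := by
  -- the enumeration
  obtain ⟨en, hen⟩ := exists_surjective_nat (ℕ × Code)
  -- the chain
  let St : Type := {p : Str ℕ × Finset ℕ // p.1.K ↑p.2}
  have hstep : ∀ (k : ℕ) (s : St), ∃ s' : St, s.1.2 ⊆ s'.1.2 ∧ Emb s.1.1 s'.1.1 s.1.2 id ∧
      s'.1.1.Cl s.1.2 ↑s'.1.2 ∧
      (Cond (en k).2 s.1.1 s.1.2 → ∃ g : ℕ → ℕ, Emb (en k).2.str s'.1.1 (en k).2.2.1 g ∧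
        (∀ a ∈ (en k).2.1, g a = (en k).2.2.2.2.2.2 a) ∧
        s'.1.1.Cl ((en k).2.2.1.image g) ↑s'.1.2) := by
    intro k s
    obtain ⟨S', C', h1, h2, h3, h4, h5⟩ := exists_step s.1.1 s.1.2 s.2 (en k).2
    exact ⟨⟨(S', C'), h1⟩, h2, h3, h4, h5⟩
  choose nx hnx1 hnx2 hnx3 hnx4 using hstep
  let S00 : Str ℕ := ⟨fun _ => Col.D, fun _ _ => False⟩
  have hS00 : S00.K ↑(∅ : Finset ℕ) := by
    have hcoe : (↑(∅ : Finset ℕ) : Set ℕ) = ∅ := Finset.coe_empty
    refine ⟨?_, ?_, ?_⟩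
    · intro l hl
      simp at hl
    · intro F hF hne
      exfalso
      obtain ⟨x, hx⟩ := hne
      have := hF (Finset.mem_coe.2 hx)
      simp at this
    · intro S hS
      have h1 : S = ∅ := by
        apply Finset.subset_empty.1
        exact Finset.coe_subset.1 hS.1
      subst h1
      rw [Str.dl_empty]
      simp
  let ch : ℕ → St := fun k => Nat.rec ⟨(S00, ∅), hS00⟩ (fun k s => nx k s) k
  have hch : ∀ k, ch (k + 1) = nx k (ch k) := fun k => rfl
  set Zc : ℕ → Finset ℕ := fun k => (ch k).1.2 with hZc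
  set Sc : ℕ → Str ℕ := fun k => (ch k).1.1 with hSc
  have hK : ∀ k, (Sc k).K ↑(Zc k) := fun k => (ch k).2
  have h1 : ∀ k, Zc k ⊆ Zc (k + 1) := fun k => hnx1 k (ch k)
  have h2 : ∀ k, Emb (Sc k) (Sc (k + 1)) (Zc k) id := fun k => hnx2 k (ch k)
  have h3 : ∀ k, (Sc (k + 1)).Cl (Zc k) ↑(Zc (k + 1)) := fun k => hnx3 k (ch k)
  have h4 : ∀ k, Cond (en k).2 (Sc k) (Zc k) →
      ∃ g : ℕ → ℕ, Emb (en k).2.str (Sc (k + 1)) (en k).2.2.1 g ∧
        (∀ a ∈ (en k).2.1, g a = (en k).2.2.2.2.2.2 a) ∧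
        (Sc (k + 1)).Cl ((en k).2.2.1.image g) ↑(Zc (k + 1)) := fun k => hnx4 k (ch k)
  have mono : ∀ k l, k ≤ l → Zc k ⊆ Zc l := by
    intro k l hkl
    induction l, hkl using Nat.le_induction with
    | base => exact Finset.Subset.refl _
    | succ l _ ih => exact ih.trans (h1 l)
  have emb : ∀ k l, k ≤ l → Emb (Sc k) (Sc l) (Zc k) id := by
    intro k l hkl
    induction l, hkl using Nat.le_induction with
    | base => exact emb_id _ _
    | succ l hl ih =>
      have h5 := (h2 l).mono (mono k l hl)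
      have h6 : Emb (Sc l) (Sc (l + 1)) ((Zc k).image id) id := by
        rw [Finset.image_id]
        exact h5
      exact ih.comp h6
  -- the limit
  let Ω : Set ℕ := {v | ∃ k, v ∈ Zc k}
  let M : Str ℕ := ⟨fun v => if h : ∃ k, v ∈ Zc k then (Sc (Nat.find h)).col v else Col.D,
    fun a b => ∃ k, a ∈ Zc k ∧ b ∈ Zc k ∧ (Sc k).adj a b⟩
  have hM : ∀ k, Emb (Sc k) M (Zc k) id := by
    intro k
    refine ⟨fun a _ b _ hab => hab, ?_, ?_⟩
    · intro a ha
      have h5 : ∃ k, a ∈ Zc k := ⟨k, ha⟩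
      show (if h : ∃ k, a ∈ Zc k then (Sc (Nat.find h)).col a else Col.D) = _
      rw [dif_pos h5]
      have h6 : Nat.find h5 ≤ k := Nat.find_min' h5 ha
      exact ((emb _ k h6).col a (Nat.find_spec h5)).symm
    · intro a ha b hb
      constructor
      · rintro ⟨l, hla, hlb, hab⟩
        rcases le_total k l with hkl | hkl
        · exact ((emb k l hkl).adj a ha b hb).1 hab
        · exact ((emb l k hkl).adj a hla b hlb).2 hab
      · intro hab
        exact ⟨k, ha, hb, hab⟩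
  have hMcl : ∀ k (T : Finset ℕ), T ⊆ Zc k → (M.Cl T ↑(Zc k) ↔ (Sc k).Cl T ↑(Zc k)) := by
    intro k T hT
    have h5 := (hM k).cl hT
    rw [Finset.image_id, Finset.image_id] at h5
    exact h5
  have hMK : ∀ k, M.K ↑(Zc k) := by
    intro k
    have h5 := (hM k).k
    rw [Finset.image_id] at h5
    exact h5.2 (hK k)
  have hfinΩ : ∀ F : Finset ℕ, ↑F ⊆ Ω → ∃ k, F ⊆ Zc k := by
    intro F
    induction F using Finset.induction_on with
    | empty => exact fun _ => ⟨0, Finset.empty_subset _⟩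
    | insert v F _ ih =>
      intro hF
      rw [Finset.coe_insert, Set.insert_subset_iff] at hF
      obtain ⟨k, hk⟩ := ih hF.2
      obtain ⟨l, hl⟩ := hF.1
      exact ⟨max k l, Finset.insert_subset (mono l _ (le_max_right _ _) hl)
        (hk.trans (mono k _ (le_max_left _ _)))⟩
  have hcl : ∀ k l, k ≤ l → M.Cl (Zc k) ↑(Zc l) := by
    intro k l hkl
    induction l, hkl using Nat.le_induction with
    | base => exact Str.Cl.self _
    | succ l hl ih =>
      have h5 : M.Cl (Zc l) ↑(Zc (l + 1)) := (hMcl (l + 1) _ (h1 l)).2 (h3 l)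
      exact Str.Cl.trans (Str.amb_finset (hMK (l + 1)).a1 (hMK (l + 1)).a2) ih h5
  have hsubΩ : ∀ k, ↑(Zc k) ⊆ Ω := fun k v hv => ⟨k, hv⟩
  have hclΩ : ∀ k, M.Cl (Zc k) Ω := by
    intro k
    refine ⟨⟨hsubΩ k, ?_⟩, ?_⟩
    · rintro v ⟨l, hl⟩ hv
      have h5 := (hcl k (max k l) (le_max_left _ _)).1.2 v
        (Finset.mem_coe.2 (mono l _ (le_max_right _ _) hl)) hv
      exact h5
    · intro B hB hkB
      obtain ⟨l, hl⟩ := hfinΩ B hB.1
      have h5 : B ⊆ Zc (max k l) := hl.trans (mono l _ (le_max_right _ _))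
      exact (hcl k (max k l) (le_max_left _ _)).2 B
        (Str.PC.mono hB (hsubΩ _) (Finset.coe_subset.2 h5)) hkB
  have hKΩ : M.K Ω := by
    refine ⟨?_, ?_, ?_⟩
    · intro l hl l' hl' hne S hS hS'
      obtain ⟨k, hk⟩ := hfinΩ (insert l (insert l' S)) (by
        rw [Finset.coe_insert, Finset.coe_insert]
        exact Set.insert_subset hl (Set.insert_subset hl' hS))
      rw [Finset.insert_subset_iff, Finset.insert_subset_iff] at hk
      exact (hMK k).a1 l hk.1 l' hk.2.1 hne S (Finset.coe_subset.2 hk.2.2) hS'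
    · intro F hF hne
      obtain ⟨k, hk⟩ := hfinΩ F hF
      exact (hMK k).a2 F (Finset.coe_subset.2 hk) hne
    · intro S hS
      obtain ⟨k, hk⟩ := hfinΩ S hS.1
      exact (hMK k).f S (Str.PC.mono hS (hsubΩ k) (Finset.coe_subset.2 hk))
  have hamb : M.Amb Ω := ⟨hKΩ.a1, hKΩ.a2, fun S hS => by
    obtain ⟨k, hk⟩ := hfinΩ S hS
    exact ⟨Zc k, hk, hclΩ k⟩⟩
  refine ⟨M, Ω, hKΩ, hamb.fin, ?_⟩
  intro W H A Z hHK hHcl f hf hfcl
  have hAZ : A ⊆ Z := Finset.coe_subset.1 hHcl.1.1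
  obtain ⟨c, e, he, hc1, hc2, hcf⟩ := exists_code H A Z hAZ f
  obtain ⟨K, hKf⟩ := hfinΩ (A.image f) hfcl.1.1
  -- the stage
  have hstage : ∃ k, K ≤ k ∧ (en k).2 = c := by
    by_contra hcon
    push Not at hcon
    have h5 : ∀ n : ℕ, ∃ k, k < K ∧ en k = (n, c) := by
      intro n
      obtain ⟨k, hk⟩ := hen (n, c)
      refine ⟨k, ?_, hk⟩
      by_contra h6
      exact hcon k (not_lt.1 h6) (by rw [hk])
    choose kk hkk1 hkk2 using h5
    have hinj : Function.Injective kk := by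
      intro m n hmn
      have h6 := hkk2 m
      rw [hmn, hkk2 n] at h6
      exact ((Prod.mk.injEq _ _ _ _).mp h6).1.symm
    exact Set.infinite_of_injective_forall_mem hinj (fun n => (hkk1 n : kk n ∈ Set.Iio K))
      (Set.finite_Iio K)
  obtain ⟨k, hKk, hkc⟩ := hstage
  have hAk : A.image f ⊆ Zc k := hKf.trans (mono K k hKk)
  -- the problem makes sense at the stage
  have hfe : (A.image e).image c.2.2.2.2.2 = A.image f := by
    rw [Finset.image_image]
    exact Finset.image_congr fun a ha => hcf a ha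
  have hcond : Cond c (Sc k) (Zc k) := by
    refine ⟨?_, ?_, ?_, ?_⟩
    · rw [hc2]
      exact he.k' hHK
    · rw [hc1, hc2]
      exact (he.cl hAZ).2 hHcl
    · rw [hc1]
      have h6 : Emb c.str M (A.image e) c.2.2.2.2.2 := by
        rcases isEmpty_or_nonempty W with hW | hW
        · have hA0 : A = ∅ := Finset.eq_empty_of_isEmpty A
          rw [hA0, Finset.image_empty]
          exact ⟨by simp, by simp, by simp⟩
        obtain ⟨e', he1, he2, he3⟩ := (he.mono hAZ).inv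
        have h5 : Emb c.str M (A.image e) (f ∘ e') := by
          refine he2.comp ?_
          rw [he3]
          exact hf
        refine h5.congr ?_
        intro x hx
        obtain ⟨a, ha, rfl⟩ := Finset.mem_image.1 hx
        rw [Function.comp_apply, he1 a ha]
        exact hcf a ha
      have hsub : ∀ x ∈ A.image e, c.2.2.2.2.2 x ∈ Zc k := by
        intro x hx
        obtain ⟨a, ha, rfl⟩ := Finset.mem_image.1 hx
        rw [hcf a ha]
        exact hAk (Finset.mem_image_of_mem f ha)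
      refine ⟨h6.inj, ?_, ?_⟩
      · intro x hx
        rw [← h6.col x hx]
        exact ((hM k).col _ (hsub x hx)).symm
      · intro x hx y hy
        rw [← h6.adj x hx y hy]
        exact ((hM k).adj _ (hsub x hx) _ (hsub y hy)).symm
    · rw [hc1, hfe]
      exact (hMcl k _ hAk).1 (hfcl.down hAk (hclΩ k).1)
  have h5 := h4 k
  rw [hkc] at h5
  obtain ⟨g, hg1, hg2, hg3⟩ := h5 hcond
  rw [hc2] at hg1 hg3
  have hgZ : (Z.image e).image g ⊆ Zc (k + 1) := Finset.coe_subset.1 hg3.1.1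
  have hg1' : Emb c.str M (Z.image e) g := by
    have h6 : Emb (Sc (k + 1)) M ((Z.image e).image g) id := (hM (k + 1)).mono hgZ
    exact hg1.comp h6
  refine ⟨g ∘ e, he.comp hg1', ?_, ?_⟩
  · intro a ha
    rw [Function.comp_apply, hg2 _ (by rw [hc1]; exact Finset.mem_image_of_mem e ha)]
    exact hcf a ha
  · rw [← Finset.image_image]
    exact Str.Cl.trans hamb ((hMcl (k + 1) _ hgZ).2 hg3) (hclΩ (k + 1))

end Run7.h540
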