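import Pool.Agent.Run7.h540.A4
import Pool.Agent.Run7.h540.MDef

/-!
# Piece D1 (helper690): back and forth in rich structures
-/

set_option autoImplicit false
set_option linter.all false

namespace Run7.h540
open Classical

section general

theorem emb_id {V : Type} (G : Str V) (S : Finset V) : Emb G G S id :=
  ⟨fun _ _ _ _ h => h, fun _ _ => rfl, fun _ _ _ _ => Iff.rfl⟩

theorem Str.wt_le {V : Type} (G : Str V) (v : V) : G.wt v ≤ 201 := by
  unfold Str.wt Str.thr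
  rcases G.col v <;> simp

theorem Str.Cl.sub {V : Type} {G : Str V} {A : Finset V} {Z : Set V} (h : G.Cl A Z) : ↑A ⊆ Z :=
  h.1.1

theorem rg_eq {α : Type} [Finite α] (s : α → ℕ) (v : ℕ) : v ∈ rg s ↔ ∃ i, s i = v := by
  unfold rg
  rw [dif_pos (Set.finite_range s), Set.Finite.mem_toFinset, Set.mem_range]

theorem mem_rg {α : Type} [Finite α] (s : α → ℕ) (i : α) : s i ∈ rg s := (rg_eq s _).2 ⟨i, rfl⟩

theorem rg_sub {α : Type} [Finite α] {s : α → ℕ} {Z : Set ℕ} (hs : ∀ i, s i ∈ Z) : ↑(rg s) ⊆ Z := by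
  intro v hv
  obtain ⟨i, rfl⟩ := (rg_eq s v).1 hv
  exact hs i

theorem rg_sub' {α : Type} [Finite α] {s : α → ℕ} {Z : Finset ℕ} (hs : ∀ i, s i ∈ Z) : rg s ⊆ Z := by
  intro v hv
  obtain ⟨i, rfl⟩ := (rg_eq s v).1 hv
  exact hs i

theorem rg_elim {α β : Type} [Finite α] [Finite β] (s : α → ℕ) (t : β → ℕ) :
    rg (Sum.elim s t) = rg s ∪ rg t := by
  ext v
  rw [Finset.mem_union, rg_eq, rg_eq, rg_eq]
  constructor
  · rintro ⟨i | i, rfl⟩
    · exact Or.inl ⟨i, rfl⟩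
    · exact Or.inr ⟨i, rfl⟩
  · rintro (⟨i, rfl⟩ | ⟨i, rfl⟩)
    · exact ⟨Sum.inl i, rfl⟩
    · exact ⟨Sum.inr i, rfl⟩

theorem card_rg {α : Type} [Finite α] (s : α → ℕ) : (rg s).card ≤ Nat.card α := by
  haveI := Fintype.ofFinite α
  have h1 : rg s = Finset.univ.image s := by
    ext v
    rw [rg_eq]
    simp
  rw [h1, Nat.card_eq_fintype_card]
  exact Finset.card_image_le

end general

section D

variable {M : Str ℕ} {Ω : Set ℕ} (h : Rich M Ω) {α β γ : Type}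
include h

theorem Rich.amb : M.Amb Ω := ⟨h.k.a1, h.k.a2, h.fin⟩

theorem Rich.isC {S : Finset ℕ} (hS : ↑S ⊆ Ω) : M.IsC S (clo M Ω S) Ω := by
  have h1 := Str.exists_isC h.amb hS
  unfold clo
  rw [dif_pos h1]
  exact h1.choose_spec

theorem Rich.clo_cl {S : Finset ℕ} (hS : ↑S ⊆ Ω) : M.Cl (clo M Ω S) Ω := (h.isC hS).1
theorem Rich.sub_clo {S : Finset ℕ} (hS : ↑S ⊆ Ω) : S ⊆ clo M Ω S := (h.isC hS).2.1
theorem Rich.clo_le {S C : Finset ℕ} (hS : S ⊆ C) (hC : M.Cl C Ω) : clo M Ω S ⊆ C :=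
  (h.isC ((Finset.coe_subset.2 hS).trans hC.sub)).2.2 C hC hS

theorem Rich.clo_mono {S T : Finset ℕ} (hST : S ⊆ T) (hT : ↑T ⊆ Ω) : clo M Ω S ⊆ clo M Ω T :=
  h.clo_le (hST.trans (h.sub_clo hT)) (h.clo_cl hT)

/-- closed subsets of the domain and of the image -/
theorem Rich.cl_image {A T : Finset ℕ} {f : ℕ → ℕ} (hA : M.Cl A Ω) (hf : Emb M M A f)
    (hA' : M.Cl (A.image f) Ω) (hT : T ⊆ A) : M.Cl (T.image f) Ω ↔ M.Cl T Ω := by
  constructor
  · intro h1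
    have h2 : M.Cl (T.image f) ↑(A.image f) := h1.down (Finset.image_subset_image hT) hA'.1
    exact Str.Cl.trans h.amb ((hf.cl hT).1 h2) hA
  · intro h1
    have h2 : M.Cl T ↑A := h1.down hT hA.1
    exact Str.Cl.trans h.amb ((hf.cl hT).2 h2) hA'

theorem Rich.sim_refl [Finite α] (s : α → ℕ) (hs : ∀ i, s i ∈ Ω) : SimV M Ω s s := by
  have hS := rg_sub hs
  refine ⟨clo M Ω (rg s), id, h.clo_cl hS, emb_id _ _, ?_, fun i => ⟨h.sub_clo hS (mem_rg s i), rfl⟩⟩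
  rw [Finset.image_id]
  exact h.clo_cl hS

theorem Rich.sim_symm {s t : α → ℕ} (hs : SimV M Ω s t) : SimV M Ω t s := by
  obtain ⟨A, f, hA, hf, hA', hst⟩ := hs
  obtain ⟨g, hg1, hg2, hg3⟩ := hf.inv
  refine ⟨A.image f, g, hA', hg2, ?_, fun i => ⟨?_, ?_⟩⟩
  · rw [hg3]
    exact hA
  · rw [← (hst i).2]
    exact Finset.mem_image_of_mem f (hst i).1
  · rw [← (hst i).2]
    exact hg1 _ (hst i).1

theorem Rich.sim_trans {s t r : α → ℕ} (h1 : SimV M Ω s t) (h2 : SimV M Ω t r) :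
    SimV M Ω s r := by
  obtain ⟨A, f, hA, hf, hA', hst⟩ := h1
  obtain ⟨B, k, hB, hk, hB', htr⟩ := h2
  obtain ⟨g, hg1, hg2, hg3⟩ := hf.inv
  set C := A.image f ∩ B with hC
  have hCc : M.Cl C Ω := Str.Cl.inter h.amb hA' hB
  have hCA : C ⊆ A.image f := Finset.inter_subset_left
  have hCB : C ⊆ B := Finset.inter_subset_right
  have hT : M.Cl (C.image g) Ω := (h.cl_image hA' hg2 (by rw [hg3]; exact hA) hCA).2 hCc
  have hfg : ∀ c ∈ C, f (g c) = c := by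
    intro c hc
    obtain ⟨a, ha, rfl⟩ := Finset.mem_image.1 (hCA hc)
    rw [hg1 a ha]
  have hTA : C.image g ⊆ A := by
    rw [← hg3]
    exact Finset.image_subset_image hCA
  have hTf : (C.image g).image f = C := by
    ext c
    constructor
    · intro hc
      obtain ⟨x, hx, rfl⟩ := Finset.mem_image.1 hc
      obtain ⟨c', hc', rfl⟩ := Finset.mem_image.1 hx
      rw [hfg c' hc']
      exact hc'
    · intro hc
      exact Finset.mem_image.2 ⟨g c, Finset.mem_image_of_mem g hc, hfg c hc⟩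
  refine ⟨C.image g, k ∘ f, hT, ?_, ?_, fun i => ?_⟩
  · refine (hf.mono hTA).comp ?_
    rw [hTf]
    exact hk.mono hCB
  · rw [← Finset.image_image, hTf]
    exact (h.cl_image hB hk hB' hCB).2 hCc
  · have htC : t i ∈ C := by
      rw [hC, Finset.mem_inter]
      refine ⟨?_, (htr i).1⟩
      rw [← (hst i).2]
      exact Finset.mem_image_of_mem f (hst i).1
    refine ⟨Finset.mem_image.2 ⟨t i, htC, ?_⟩, ?_⟩
    · rw [← (hst i).2]
      exact hg1 _ (hst i).1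
    · rw [Function.comp_apply, (hst i).2, (htr i).2]

theorem Rich.sim_comp {s t : α → ℕ} (h1 : SimV M Ω s t) (g : β → α) :
    SimV M Ω (s ∘ g) (t ∘ g) := by
  obtain ⟨A, f, hA, hf, hA', hst⟩ := h1
  exact ⟨A, f, hA, hf, hA', fun i => hst (g i)⟩

theorem Rich.sim_forth [Finite β] {s t : α → ℕ} (h1 : SimV M Ω s t) (x : β → ℕ)
    (hx : ∀ i, x i ∈ Ω) : ∃ y : β → ℕ, (∀ i, y i ∈ Ω ∧ M.col (y i) = M.col (x i)) ∧
      SimV M Ω (Sum.elim s x) (Sum.elim t y) := by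
  obtain ⟨A, f, hA, hf, hA', hst⟩ := h1
  have hS : ↑(A ∪ rg x) ⊆ Ω := by
    rw [Finset.coe_union]
    exact Set.union_subset hA.sub (rg_sub hx)
  set C := clo M Ω (A ∪ rg x) with hC
  have hCc : M.Cl C Ω := h.clo_cl hS
  have hsub : A ∪ rg x ⊆ C := h.sub_clo hS
  have hAC : A ⊆ C := Finset.subset_union_left.trans hsub
  obtain ⟨g, hg1, hg2, hg3⟩ := h.rich ℕ M A C (Str.K.sub h.k hCc.1) (hA.down hAC hCc.1) f hf hA'
  have hxC : ∀ i, x i ∈ C := fun i => hsub (Finset.mem_union_right _ (mem_rg x i))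
  refine ⟨g ∘ x, fun i => ⟨?_, hg1.col _ (hxC i)⟩, C, g, hCc, hg1, hg3, ?_⟩
  · exact hg3.sub (Finset.mem_coe.2 (Finset.mem_image_of_mem g (hxC i)))
  · rintro (i | i)
    · refine ⟨hAC (hst i).1, ?_⟩
      rw [Sum.elim_inl, Sum.elim_inl, hg2 _ (hst i).1, (hst i).2]
    · exact ⟨hxC i, rfl⟩

theorem Rich.sim_cl [Finite α] {s t : α → ℕ} (h1 : SimV M Ω s t) : ∃ f : ℕ → ℕ,
    Emb M M (clo M Ω (rg s)) f ∧ (clo M Ω (rg s)).image f = clo M Ω (rg t) ∧
      ∀ i, f (s i) = t i := by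
  obtain ⟨A, f, hA, hf, hA', hst⟩ := h1
  obtain ⟨g, hg1, hg2, hg3⟩ := hf.inv
  have hsA : rg s ⊆ A := rg_sub' fun i => (hst i).1
  have hsΩ : ↑(rg s) ⊆ Ω := (Finset.coe_subset.2 hsA).trans hA.sub
  have htA : rg t ⊆ A.image f := rg_sub' fun i => by
    rw [← (hst i).2]
    exact Finset.mem_image_of_mem f (hst i).1
  have htΩ : ↑(rg t) ⊆ Ω := (Finset.coe_subset.2 htA).trans hA'.sub
  have hCA : clo M Ω (rg s) ⊆ A := h.clo_le hsA hA
  have hC'A : clo M Ω (rg t) ⊆ A.image f := h.clo_le htA hA'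
  refine ⟨f, hf.mono hCA, ?_, fun i => (hst i).2⟩
  apply Finset.Subset.antisymm
  · -- the preimage of the closure of t
    have h2 : M.Cl ((clo M Ω (rg t)).image g) Ω :=
      (h.cl_image hA' hg2 (by rw [hg3]; exact hA) hC'A).2 (h.clo_cl htΩ)
    have h3 : rg s ⊆ (clo M Ω (rg t)).image g := rg_sub' fun i => by
      refine Finset.mem_image.2 ⟨t i, h.sub_clo htΩ (mem_rg t i), ?_⟩
      rw [← (hst i).2]
      exact hg1 _ (hst i).1
    have h4 := h.clo_le h3 h2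
    intro y hy
    obtain ⟨x, hx, rfl⟩ := Finset.mem_image.1 hy
    obtain ⟨z, hz, rfl⟩ := Finset.mem_image.1 (h4 hx)
    obtain ⟨a, ha, rfl⟩ := Finset.mem_image.1 (hC'A hz)
    rw [hg1 a ha]
    exact hz
  · refine h.clo_le (rg_sub' fun i => ?_) ((h.cl_image hA hf hA' hCA).2 (h.clo_cl hsΩ))
    rw [← (hst i).2]
    exact Finset.mem_image_of_mem f (h.sub_clo hsΩ (mem_rg s i))

theorem Rich.sim_dm [Finite α] {s t : α → ℕ} (h1 : SimV M Ω s t) :
    dm M Ω (rg s) = dm M Ω (rg t) := by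
  obtain ⟨f, h2, h3, -⟩ := h.sim_cl h1
  unfold dm
  rw [← h3, h2.dl (Finset.Subset.refl _)]

theorem Rich.dm_insert {S : Finset ℕ} (hS : ↑S ⊆ Ω) {v : ℕ} (hv : v ∈ Ω) :
    dm M Ω (insert v S) ≤ dm M Ω S + M.wt v := by
  have h1 := h.isC hS
  have hS' : ↑(insert v S) ⊆ Ω := by
    rw [Finset.coe_insert]
    exact Set.insert_subset hv hS
  exact Str.IsC.insert_le h.amb hv h1 (h.isC hS')

theorem Rich.dm_nonneg {S : Finset ℕ} (hS : ↑S ⊆ Ω) : 0 ≤ dm M Ω S :=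
  (h.k.f _ (h.clo_cl hS).1).1

theorem Rich.dm_mono {S T : Finset ℕ} (hST : S ⊆ T) (hT : ↑T ⊆ Ω) : dm M Ω S ≤ dm M Ω T :=
  Str.Cl.le (h.clo_cl ((Finset.coe_subset.2 hST).trans hT)) (h.clo_cl hT).1 (h.clo_mono hST hT)

theorem Rich.dm_empty : dm M Ω ∅ = 0 := by
  have h1 : clo M Ω ∅ = ∅ := Finset.subset_empty.1 (h.clo_le (Finset.Subset.refl _) (Str.K.empty h.k))
  unfold dm
  rw [h1, Str.dl_empty]

theorem Rich.dm_le {S : Finset ℕ} (hS : ↑S ⊆ Ω) : dm M Ω S ≤ 201 * S.card := by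
  induction S using Finset.induction_on with
  | empty => rw [h.dm_empty]; simp
  | insert v S hv ih =>
    rw [Finset.coe_insert, Set.insert_subset_iff] at hS
    have h1 := h.dm_insert hS.2 hS.1
    have h2 := ih hS.2
    have h3 := M.wt_le v
    rw [Finset.card_insert_of_notMem hv]
    push_cast
    linarith

theorem Rich.card_clo {S : Finset ℕ} (hS : ↑S ⊆ Ω) :
    (clo M Ω S).card ≤ 3 ^ (201 * S.card) := by
  refine (h.k.f _ (h.clo_cl hS).1).2.trans ?_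
  apply Nat.pow_le_pow_right (by norm_num)
  have h1 := h.dm_le hS
  unfold dm at h1
  rw [Int.toNat_le]
  exact_mod_cast h1

/-- tuples with the same code -/
theorem Rich.sim_of_code [Finite α] {N : ℕ} {s t : α → ℕ} (hs : ∀ i, s i ∈ Ω) (ht : ∀ i, t i ∈ Ω)
    (e e' : ℕ → Fin N) (he : Set.InjOn e (clo M Ω (rg s))) (he' : Set.InjOn e' (clo M Ω (rg t)))
    (h1 : ∀ k c, (∃ x ∈ clo M Ω (rg s), e x = k ∧ M.col x = c) ↔
      ∃ x ∈ clo M Ω (rg t), e' x = k ∧ M.col x = c)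
    (h2 : ∀ k l, (∃ x ∈ clo M Ω (rg s), ∃ y ∈ clo M Ω (rg s), e x = k ∧ e y = l ∧ M.adj x y) ↔
      ∃ x ∈ clo M Ω (rg t), ∃ y ∈ clo M Ω (rg t), e' x = k ∧ e' y = l ∧ M.adj x y)
    (h3 : ∀ i, e (s i) = e' (t i)) : SimV M Ω s t := by
  have hsS := rg_sub hs
  have htS := rg_sub ht
  have hex : ∀ x, ∃ y, x ∈ clo M Ω (rg s) → y ∈ clo M Ω (rg t) ∧ e' y = e x ∧ M.col y = M.col x := by
    intro x
    by_cases hx : x ∈ clo M Ω (rg s)
    · obtain ⟨y, hy, h4, h5⟩ := (h1 (e x) (M.col x)).1 ⟨x, hx, rfl, rfl⟩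
      exact ⟨y, fun _ => ⟨hy, h4, h5⟩⟩
    · exact ⟨0, fun h => absurd h hx⟩
  choose f hf using hex
  have hinj : ∀ a ∈ clo M Ω (rg s), ∀ b ∈ clo M Ω (rg s), f a = f b → a = b := by
    intro a ha b hb hab
    apply he ha hb
    rw [← (hf a ha).2.1, ← (hf b hb).2.1, hab]
  have hsurj : (clo M Ω (rg s)).image f = clo M Ω (rg t) := by
    ext y
    constructor
    · intro hy
      obtain ⟨x, hx, rfl⟩ := Finset.mem_image.1 hy
      exact (hf x hx).1
    · intro hy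
      obtain ⟨x, hx, h4, h5⟩ := (h1 (e' y) (M.col y)).2 ⟨y, hy, rfl, rfl⟩
      refine Finset.mem_image.2 ⟨x, hx, ?_⟩
      apply he' (hf x hx).1 hy
      rw [(hf x hx).2.1, h4]
  refine ⟨clo M Ω (rg s), f, h.clo_cl hsS, ⟨hinj, fun a ha => (hf a ha).2.2, ?_⟩, ?_, fun i => ⟨?_, ?_⟩⟩
  · intro a ha b hb
    constructor
    · intro hab
      obtain ⟨x, hx, y, hy, h4, h5, h6⟩ := (h2 (e a) (e b)).2
        ⟨f a, (hf a ha).1, f b, (hf b hb).1, (hf a ha).2.1, (hf b hb).2.1, hab⟩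
      rw [← he hx ha h4, ← he hy hb h5]
      exact h6
    · intro hab
      obtain ⟨x, hx, y, hy, h4, h5, h6⟩ := (h2 (e a) (e b)).1 ⟨a, ha, b, hb, rfl, rfl, hab⟩
      rw [← (hf a ha).2.1] at h4
      rw [← (hf b hb).2.1] at h5
      rw [← he' hx (hf a ha).1 h4, ← he' hy (hf b hb).1 h5]
      exact h6
  · rw [hsurj]
    exact h.clo_cl htS
  · exact h.sub_clo hsS (mem_rg s i)
  · have hi := h.sub_clo hsS (mem_rg s i)
    apply he' (hf _ hi).1 (h.sub_clo htS (mem_rg t i))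
    rw [(hf _ hi).2.1, h3 i]

theorem Rich.sim_fin (α : Type) [Finite α] : ∃ F : Set (α → ℕ), F.Finite ∧
    (∀ s ∈ F, ∀ i, s i ∈ Ω) ∧ ∀ t : α → ℕ, (∀ i, t i ∈ Ω) → ∃ s ∈ F, SimV M Ω s t := by
  set N := 3 ^ (201 * Nat.card α) with hN
  have hNpos : 0 < N := by positivity
  have hcard : ∀ t : α → ℕ, (∀ i, t i ∈ Ω) → (clo M Ω (rg t)).card ≤ N := by
    intro t ht
    refine (h.card_clo (rg_sub ht)).trans ?_
    apply Nat.pow_le_pow_right (by norm_num)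
    exact Nat.mul_le_mul_left _ (card_rg t)
  have hex : ∀ t : α → ℕ, ∃ e : ℕ → Fin N, (∀ i, t i ∈ Ω) → Set.InjOn e (clo M Ω (rg t)) := by
    intro t
    by_cases ht : ∀ i, t i ∈ Ω
    · refine ⟨fun x => if hx : x ∈ clo M Ω (rg t) then
        Fin.castLE (hcard t ht) ((clo M Ω (rg t)).equivFin ⟨x, hx⟩) else ⟨0, hNpos⟩, fun _ => ?_⟩
      intro x hx y hy hxy
      simp only [Finset.mem_coe] at hx hy
      simp only [dif_pos hx, dif_pos hy] at hxy
      have h1 := Fin.castLE_injective (hcard t ht) hxy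
      have h2 := (clo M Ω (rg t)).equivFin.injective h1
      exact congrArg Subtype.val h2
    · exact ⟨fun _ => ⟨0, hNpos⟩, fun h => absurd h ht⟩
  choose e he using hex
  let Code : Type := (Fin N → Col → Prop) × (Fin N → Fin N → Prop) × (α → Fin N)
  haveI : Finite Col := by
    refine Finite.of_injective (fun c : Col => match c with | Col.D => (0 : Fin 3) | Col.X => 1 | Col.L => 2) ?_
    intro a b hab
    rcases a <;> rcases b <;> simp_all
  let code : (α → ℕ) → Code := fun t =>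
    (fun k c => ∃ x ∈ clo M Ω (rg t), e t x = k ∧ M.col x = c,
     fun k l => ∃ x ∈ clo M Ω (rg t), ∃ y ∈ clo M Ω (rg t), e t x = k ∧ e t y = l ∧ M.adj x y,
     fun i => e t (t i))
  haveI : Finite Code := inferInstance
  let S : Set (α → ℕ) := {t | ∀ i, t i ∈ Ω}
  have hfin : (code '' S).Finite := Set.toFinite _
  have hrep : ∀ c : Code, ∃ t : α → ℕ, c ∈ code '' S → t ∈ S ∧ code t = c := by
    intro c
    by_cases hc : c ∈ code '' S
    · obtain ⟨t, ht, rfl⟩ := hc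
      exact ⟨t, fun _ => ⟨ht, rfl⟩⟩
    · exact ⟨fun _ => 0, fun h => absurd h hc⟩
  choose rep hrep using hrep
  refine ⟨rep '' (code '' S), hfin.image _, ?_, ?_⟩
  · rintro s ⟨c, hc, rfl⟩
    exact (hrep c hc).1
  · intro t ht
    have hc : code t ∈ code '' S := ⟨t, ht, rfl⟩
    refine ⟨rep (code t), ⟨_, hc, rfl⟩, ?_⟩
    obtain ⟨hs, hcode⟩ := hrep _ hc
    have e1 := congrArg Prod.fst hcode
    have e2 := congrArg (fun z : Code => z.2.1) hcode
    have e3 := congrArg (fun z : Code => z.2.2) hcode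
    refine h.sim_of_code hs ht (e _) (e t) (he _ hs) (he _ ht) (fun k c => ?_) (fun k l => ?_)
      (fun i => ?_)
    · exact iff_of_eq (congrFun (congrFun e1 k) c)
    · exact iff_of_eq (congrFun (congrFun e2 k) l)
    · exact congrFun e3 i

end D

end Run7.h540
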