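import Pool.Agent.Run7.h540.D1
import Pool.Agent.Run7.h540.B2

/-!
# Piece D2 (helper690): genericity in rich structures
-/

set_option autoImplicit false
set_option linter.all false

namespace Run7.h540
open Classical

section D

variable {M : Str ℕ} {Ω : Set ℕ} (h : Rich M Ω) {α β γ : Type}
include h

/-- amalgamation inside a rich structure -/
theorem Rich.amal {C A B U : Finset ℕ} {h0 h1 : ℕ → ℕ} (hC : M.Cl C Ω) (P : Prb M M C A B U h0 h1) :
    ∃ j0 j1 : ℕ → ℕ, Emb M M A j0 ∧ Emb M M A j1 ∧ M.Cl (A.image j0) Ω ∧ M.Cl (A.image j1) Ω ∧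
      (∀ x ∈ B, j0 x = h0 x) ∧ (∀ x ∈ B, j1 x = h1 x) ∧ (∀ x ∈ U, j0 x = j1 x) ∧
      M.Cl (C ∪ A.image j0 ∪ A.image j1) Ω ∧
      M.dl (C ∪ A.image j0 ∪ A.image j1) =
        M.dl C + 2 * M.dl A - 2 * M.dl B - M.dl U + M.dl (B ∩ U) ∧
      (∀ x ∈ A, j0 x ∈ C → x ∈ B) ∧ (∀ x ∈ A, j1 x ∈ C → x ∈ B) := by
  obtain ⟨S, Z, i, f0, f1, hS⟩ := amalg P
  obtain ⟨g, hg1, hg2, hg3⟩ := hS.ei.inv
  have hgC : M.Cl ((C.image i).image g) Ω := by rw [hg3]; exact hC
  obtain ⟨G, hG1, hG2, hG3⟩ := h.rich _ S (C.image i) Z hS.kZ hS.ci g hg2 (by convert hgC)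
  have hiZ : C.image i ⊆ Z := by
    rw [hS.hZ]
    exact Finset.subset_union_left.trans Finset.subset_union_left
  have h0Z : A.image f0 ⊆ Z := by
    rw [hS.hZ]
    exact Finset.subset_union_right.trans Finset.subset_union_left
  have h1Z : A.image f1 ⊆ Z := by
    rw [hS.hZ]
    exact Finset.subset_union_right
  have hBA : B ⊆ A := Finset.coe_subset.1 P.clB.1.1
  have hUA : U ⊆ A := Finset.coe_subset.1 P.clU.1.1
  have hGi : ∀ x ∈ C, G (i x) = x := by
    intro x hx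
    rw [hG2 _ (Finset.mem_image_of_mem i hx)]
    exact hg1 x hx
  have c0 : M.Cl ((A.image f0).image G) Ω := by
    have h3 : M.Cl ((A.image f0).image G) ↑(Z.image G) := (hG1.cl h0Z).2 hS.c0
    exact Str.Cl.trans h.amb h3 hG3
  have c1 : M.Cl ((A.image f1).image G) Ω := by
    have h3 : M.Cl ((A.image f1).image G) ↑(Z.image G) := (hG1.cl h1Z).2 hS.c1
    exact Str.Cl.trans h.amb h3 hG3
  have hCG : (C.image i).image G = C := by
    rw [Finset.image_image]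
    ext x
    rw [Finset.mem_image]
    constructor
    · rintro ⟨a, ha, rfl⟩
      rw [Function.comp_apply, hGi a ha]
      exact ha
    · intro hx
      exact ⟨x, hx, hGi x hx⟩
  have hZG : Z.image G = C ∪ A.image (G ∘ f0) ∪ A.image (G ∘ f1) := by
    rw [hS.hZ, Finset.image_union, Finset.image_union, hCG, Finset.image_image, Finset.image_image]
  refine ⟨G ∘ f0, G ∘ f1, ?_, ?_, ?_, ?_, ?_, ?_, ?_, ?_, ?_, ?_, ?_⟩
  · exact hS.e0.comp (hG1.mono h0Z)
  · exact hS.e1.comp (hG1.mono h1Z)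
  · rw [← Finset.image_image]
    exact c0
  · rw [← Finset.image_image]
    exact c1
  · intro x hx
    rw [Function.comp_apply, hS.g0 x hx]
    exact hGi _ (Finset.coe_subset.1 P.c0.1.1 (Finset.mem_image_of_mem h0 hx))
  · intro x hx
    rw [Function.comp_apply, hS.g1 x hx]
    exact hGi _ (Finset.coe_subset.1 P.c1.1.1 (Finset.mem_image_of_mem h1 hx))
  · intro x hx
    rw [Function.comp_apply, Function.comp_apply, hS.gU x hx]
  · rw [← hZG]
    exact hG3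
  · rw [← hZG, hG1.dl (Finset.Subset.refl _)]
    exact hS.hdl
  · intro x hx hxC
    apply hS.i0 x hx
    have h4 : G (f0 x) = G (i (G (f0 x))) := (hGi _ hxC).symm
    have h5 := hG1.inj _ (h0Z (Finset.mem_image_of_mem f0 hx)) _
      (hiZ (Finset.mem_image_of_mem i hxC)) h4
    rw [h5]
    exact Finset.mem_image_of_mem i hxC
  · intro x hx hxC
    apply hS.i1 x hx
    have h4 : G (f1 x) = G (i (G (f1 x))) := (hGi _ hxC).symm
    have h5 := hG1.inj _ (h1Z (Finset.mem_image_of_mem f1 hx)) _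
      (hiZ (Finset.mem_image_of_mem i hxC)) h4
    rw [h5]
    exact Finset.mem_image_of_mem i hxC

/-- the free amalgam of two copies over the closed set `B` -/
theorem Rich.amal2 {C A B : Finset ℕ} (hC : M.Cl C Ω) (hA : M.Cl A Ω) (hB : M.Cl B Ω) (hBA : B ⊆ A)
    (hBC : B ⊆ C) :
    ∃ j : ℕ → ℕ, Emb M M A j ∧ M.Cl (A.image j) Ω ∧ (∀ x ∈ B, j x = x) ∧
      M.Cl (C ∪ A.image j) Ω ∧ M.dl (C ∪ A.image j) = M.dl C + M.dl A - M.dl B ∧
      (∀ x ∈ A, j x ∈ C → x ∈ B) := by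
  have hP : Prb M M C A B A id id := by
    refine ⟨Str.K.sub h.k hC.1, Str.K.sub h.k hA.1, hB.down hBA hA.1, Str.Cl.self A, emb_id _ _,
      emb_id _ _, ?_, ?_, fun x _ y _ hxy => hxy, fun x hx => ⟨fun _ => hBA hx, fun _ => rfl⟩, ?_⟩
    · rw [Finset.image_id]
      exact hB.down hBC hC.1
    · rw [Finset.image_id]
      exact hB.down hBC hC.1
    · intro F hF hAF _
      have h1 : F = A := Finset.Subset.antisymm (Finset.coe_subset.1 hF.1) hAF
      have h2 : B ∩ A = B := Finset.inter_eq_left.2 hBA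
      rw [h1, h2]
      linarith
  obtain ⟨j0, j1, a1, a2, a3, a4, a5, a6, a7, a8, a9, a10, a11⟩ := h.amal hC hP
  have h3 : A.image j1 = A.image j0 := Finset.image_congr fun x hx => (a7 x hx).symm
  rw [h3, Finset.union_assoc, Finset.union_self] at a8 a9
  refine ⟨j0, a1, a3, a5, a8, ?_, a10⟩
  rw [a9, Finset.inter_eq_left.2 hBA]
  ring

/-- adding vertices of colour `D` -/
theorem Rich.dm_union_le {S T : Finset ℕ} (hS : ↑S ⊆ Ω) (hT : ↑T ⊆ Ω)
    (hD : ∀ v ∈ T, M.col v = Col.D) : dm M Ω (T ∪ S) ≤ dm M Ω S + T.card := by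
  induction T using Finset.induction_on with
  | empty => rw [Finset.empty_union]; simp
  | insert v T hv ih =>
    rw [Finset.coe_insert, Set.insert_subset_iff] at hT
    have h1 := ih hT.2 (fun w hw => hD w (Finset.mem_insert_of_mem hw))
    have hTS : ↑(T ∪ S) ⊆ Ω := by
      rw [Finset.coe_union]
      exact Set.union_subset hT.2 hS
    have h2 := h.dm_insert hTS hT.1
    have h3 : M.wt v = 1 := by
      have := hD v (Finset.mem_insert_self _ _)
      simp [Str.wt, Str.thr, this]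
    rw [Finset.insert_union, Finset.card_insert_of_notMem hv]
    push_cast
    linarith

theorem Rich.dm_sub {S T : Finset ℕ} (hS : ↑S ⊆ Ω) (hT : ↑T ⊆ Ω) :
    dm M Ω (S ∪ T) + M.dl (clo M Ω S ∩ clo M Ω T) ≤ dm M Ω S + dm M Ω T := by
  have hST : ↑(S ∪ T) ⊆ Ω := by
    rw [Finset.coe_union]
    exact Set.union_subset hS hT
  exact Str.IsC.union_le h.amb (h.isC hS) (h.isC hT) (h.isC hST)

theorem Rich.gen_inv [Finite α] [Finite β] {u u' : α → ℕ} {t t' : β → ℕ}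
    (hu : ∀ i, u i ∈ Ω ∧ M.col (u i) = Col.D) (ht : ∀ i, t i ∈ Ω ∧ M.col (t i) = Col.D)
    (h1 : SimV M Ω (Sum.elim u t) (Sum.elim u' t')) (h2 : GenV M Ω u t) : GenV M Ω u' t' := by
  have h3 := h.sim_dm h1
  have h4 : SimV M Ω t t' := h.sim_comp h1 Sum.inr
  have h5 := h.sim_dm h4
  rw [rg_elim, rg_elim] at h3
  unfold GenV at h2 ⊢
  rw [← h3, ← h5]
  exact h2

theorem Rich.gen_le [Finite α] [Finite β] {u : α → ℕ} {t : β → ℕ}
    (hu : ∀ i, u i ∈ Ω ∧ M.col (u i) = Col.D) (ht : ∀ i, t i ∈ Ω) :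
    dm M Ω (rg u ∪ rg t) ≤ dm M Ω (rg t) + Nat.card α := by
  have h1 := h.dm_union_le (rg_sub ht) (rg_sub fun i => (hu i).1) (T := rg u) (by
    intro v hv
    obtain ⟨i, rfl⟩ := (rg_eq u v).1 hv
    exact (hu i).2)
  have h2 : ((rg u).card : ℤ) ≤ Nat.card α := by exact_mod_cast card_rg u
  linarith

theorem Rich.gen_comp [Finite α] [Finite β] [Finite γ] {u : α → ℕ} {t : β → ℕ}
    (hu : ∀ i, u i ∈ Ω ∧ M.col (u i) = Col.D) (ht : ∀ i, t i ∈ Ω ∧ M.col (t i) = Col.D)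
    (g : γ → β) (h2 : GenV M Ω u t) : GenV M Ω u (t ∘ g) := by
  have htΩ := rg_sub fun i => (ht i).1
  have huΩ := rg_sub fun i => (hu i).1
  have hsub : rg (t ∘ g) ⊆ rg t := rg_sub' fun i => mem_rg t (g i)
  have hgΩ : ↑(rg (t ∘ g)) ⊆ Ω := (Finset.coe_subset.2 hsub).trans htΩ
  have hugΩ : ↑(rg u ∪ rg (t ∘ g)) ⊆ Ω := by
    rw [Finset.coe_union]
    exact Set.union_subset huΩ hgΩ
  have e1 := h.gen_le hu (t := t ∘ g) (fun i => (ht _).1)
  have e2 := h.dm_sub hugΩ htΩ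
  have e3 : rg u ∪ rg (t ∘ g) ∪ rg t = rg u ∪ rg t := by
    rw [Finset.union_assoc, Finset.union_eq_right.2 hsub]
  rw [e3] at e2
  have e4 : dm M Ω (rg (t ∘ g)) ≤ M.dl (clo M Ω (rg u ∪ rg (t ∘ g)) ∩ clo M Ω (rg t)) := by
    refine Str.Cl.le (h.clo_cl hgΩ) (Str.PC.inter (h.clo_cl hugΩ).1 (h.clo_cl htΩ).1) ?_
    exact Finset.subset_inter (h.clo_mono Finset.subset_union_right hugΩ) (h.clo_mono hsub htΩ)
  unfold GenV at h2 ⊢
  rw [h2] at e2
  linarith

theorem Rich.gen_add [Finite α] [Finite β] {u : α → ℕ} {t : β → ℕ} (x : Fin 1 → ℕ)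
    (hu : ∀ i, u i ∈ Ω ∧ M.col (u i) = Col.D) (ht : ∀ i, t i ∈ Ω ∧ M.col (t i) = Col.D)
    (hx : ∀ i, x i ∈ Ω ∧ M.col (x i) = Col.D)
    (h1 : GenV M Ω u t) (h2 : GenV M Ω x (Sum.elim t u)) : GenV M Ω (Sum.elim u x) t := by
  unfold GenV at h1 h2 ⊢
  rw [rg_elim] at h2 ⊢
  have e1 : rg u ∪ rg x ∪ rg t = rg x ∪ (rg t ∪ rg u) := by
    rw [Finset.union_comm (rg u) (rg x), Finset.union_assoc, Finset.union_comm (rg u) (rg t)]
  rw [e1, h2, Finset.union_comm (rg t) (rg u), h1, Nat.card_sum]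
  push_cast
  ring

theorem Rich.gen_empty [Finite β] (u : Fin 0 → ℕ) (t : β → ℕ) (ht : ∀ i, t i ∈ Ω) :
    GenV M Ω u t := by
  have e1 : rg u = ∅ := by
    ext v
    rw [rg_eq]
    simp
  unfold GenV
  rw [e1, Finset.empty_union]
  simp

theorem Rich.gen_ext [Finite α] [Finite β] [Finite γ] {u : α → ℕ} {t : β → ℕ}
    (hu : ∀ i, u i ∈ Ω ∧ M.col (u i) = Col.D) (ht : ∀ i, t i ∈ Ω ∧ M.col (t i) = Col.D)
    (h1 : GenV M Ω u t) (e : γ → ℕ) (he : ∀ i, e i ∈ Ω ∧ M.col (e i) = Col.D) :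
    ∃ u' : α → ℕ, (∀ i, u' i ∈ Ω ∧ M.col (u' i) = Col.D) ∧ GenV M Ω u' (Sum.elim t e) ∧
      SimV M Ω (Sum.elim u' t) (Sum.elim u t) := by
  have htΩ := rg_sub fun i => (ht i).1
  have huΩ := rg_sub fun i => (hu i).1
  have heΩ := rg_sub fun i => (he i).1
  have hutΩ : ↑(rg u ∪ rg t) ⊆ Ω := by
    rw [Finset.coe_union]
    exact Set.union_subset huΩ htΩ
  have hteΩ : ↑(rg t ∪ rg e) ⊆ Ω := by
    rw [Finset.coe_union]
    exact Set.union_subset htΩ heΩ
  set B := clo M Ω (rg t) with hB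
  set A := clo M Ω (rg u ∪ rg t) with hA
  set C := clo M Ω (rg t ∪ rg e) with hC
  have hBA : B ⊆ A := h.clo_mono Finset.subset_union_right hutΩ
  have hBC : B ⊆ C := h.clo_mono Finset.subset_union_left hteΩ
  obtain ⟨j, j1, j2, j3, j4, j5, j6⟩ := h.amal2 (h.clo_cl hteΩ) (h.clo_cl hutΩ) (h.clo_cl htΩ) hBA hBC
  have huA : ∀ i, u i ∈ A := fun i => h.sub_clo hutΩ (Finset.mem_union_left _ (mem_rg u i))
  have htB : ∀ i, t i ∈ B := fun i => h.sub_clo htΩ (mem_rg t i)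
  have hu' : ∀ i, (j ∘ u) i ∈ Ω ∧ M.col ((j ∘ u) i) = Col.D := by
    intro i
    refine ⟨j2.sub (Finset.mem_coe.2 (Finset.mem_image_of_mem j (huA i))), ?_⟩
    rw [Function.comp_apply, j1.col _ (huA i)]
    exact (hu i).2
  have hu'Ω := rg_sub fun i => (hu' i).1
  have hsim : SimV M Ω (Sum.elim u t) (Sum.elim (j ∘ u) t) := by
    refine ⟨A, j, h.clo_cl hutΩ, j1, j2, ?_⟩
    rintro (i | i)
    · exact ⟨huA i, rfl⟩
    · exact ⟨hBA (htB i), j3 _ (htB i)⟩
  refine ⟨j ∘ u, hu', ?_, h.sim_symm hsim⟩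
  unfold GenV at h1 ⊢
  rw [rg_elim]
  have hall : ↑(rg (j ∘ u) ∪ (rg t ∪ rg e)) ⊆ Ω := by
    rw [Finset.coe_union]
    exact Set.union_subset hu'Ω hteΩ
  have key : clo M Ω (rg (j ∘ u) ∪ (rg t ∪ rg e)) = C ∪ A.image j := by
    apply Finset.Subset.antisymm
    · refine h.clo_le ?_ j4
      refine Finset.union_subset ?_ ?_
      · exact rg_sub' fun i => Finset.mem_union_right _ (Finset.mem_image_of_mem j (huA i))
      · exact (h.sub_clo hteΩ).trans Finset.subset_union_left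
    · refine Finset.union_subset (h.clo_mono Finset.subset_union_right hall) ?_
      obtain ⟨g, g1, g2, g3⟩ := h.sim_cl hsim
      -- the image of the closure is the closure of the image
      have h5 : M.Cl (A.image j) Ω := j2
      have h6 : A.image j = clo M Ω (rg (j ∘ u) ∪ rg t) := by
        have h7 : clo M Ω (rg (j ∘ u) ∪ rg t) ⊆ A.image j := by
          refine h.clo_le (Finset.union_subset ?_ ?_) j2
          · exact rg_sub' fun i => Finset.mem_image_of_mem j (huA i)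
          · exact rg_sub' fun i => Finset.mem_image.2 ⟨t i, hBA (htB i), j3 _ (htB i)⟩
        symm
        apply Finset.eq_of_subset_of_card_le h7
        rw [← rg_elim, ← g2, rg_elim, ← hA, Finset.card_image_of_injOn (fun a ha b hb hab =>
          g1.inj a (by rw [rg_elim]; exact ha) b (by rw [rg_elim]; exact hb) hab)]
        exact Finset.card_image_le
      rw [h6]
      exact h.clo_mono (Finset.union_subset_union_right Finset.subset_union_left) hall
  have e5 : dm M Ω (rg (j ∘ u) ∪ (rg t ∪ rg e)) = M.dl (C ∪ A.image j) := by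
    unfold dm
    rw [key]
  rw [e5, j5]
  have e6 : M.dl A = M.dl B + Nat.card α := h1
  rw [e6]
  have e7 : dm M Ω (rg t ∪ rg e) = M.dl C := rfl
  rw [e7]
  ring

theorem Rich.alg [Finite β] (u : Fin 1 → ℕ) (t : β → ℕ)
    (hu : ∀ i, u i ∈ Ω ∧ M.col (u i) = Col.D) (ht : ∀ i, t i ∈ Ω ∧ M.col (t i) = Col.D) :
    ¬ GenV M Ω u t ↔ u 0 ∈ clo M Ω (rg t) := by
  have htΩ := rg_sub fun i => (ht i).1
  have huΩ := rg_sub fun i => (hu i).1
  have hutΩ : ↑(rg u ∪ rg t) ⊆ Ω := by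
    rw [Finset.coe_union]
    exact Set.union_subset huΩ htΩ
  have e1 := h.gen_le hu (t := t) (fun i => (ht i).1)
  have e2 := h.dm_mono (S := rg t) (T := rg u ∪ rg t) Finset.subset_union_right hutΩ
  have e3 : (Nat.card (Fin 1) : ℤ) = 1 := by simp
  rw [e3] at e1
  have hu0 : rg u = {u 0} := by
    ext v
    rw [rg_eq, Finset.mem_singleton]
    constructor
    · rintro ⟨i, rfl⟩
      rw [Subsingleton.elim i 0]
    · rintro rfl
      exact ⟨0, rfl⟩
  constructor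
  · intro h1
    unfold GenV at h1
    rw [e3] at h1
    have h2 : dm M Ω (rg u ∪ rg t) = dm M Ω (rg t) := by
      rcases lt_or_eq_of_le e1 with h3 | h3
      · linarith
      · exact absurd h3 h1
    by_contra hcon
    have h4 : clo M Ω (rg t) ⊂ clo M Ω (rg u ∪ rg t) := by
      refine Finset.ssubset_iff_subset_ne.2 ⟨h.clo_mono Finset.subset_union_right hutΩ, ?_⟩
      intro h5
      apply hcon
      rw [h5]
      exact h.sub_clo hutΩ (Finset.mem_union_left _ (mem_rg u 0))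
    have h6 := (h.clo_cl htΩ).2 _ (h.clo_cl hutΩ).1 h4
    unfold dm at h2
    linarith
  · intro h1 h2
    unfold GenV at h2
    rw [e3] at h2
    have h3 : dm M Ω (rg u ∪ rg t) ≤ dm M Ω (rg t) := by
      have h4 : clo M Ω (rg u ∪ rg t) ⊆ clo M Ω (rg t) := by
        refine h.clo_le (Finset.union_subset ?_ (h.sub_clo htΩ)) (h.clo_cl htΩ)
        rw [hu0, Finset.singleton_subset_iff]
        exact h1
      exact Str.Cl.le (h.clo_cl hutΩ) (h.clo_cl htΩ).1 h4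
    linarith

theorem Rich.free [Finite α] [Finite β] [Finite γ] (a : α → ℕ) (t : β → ℕ) (e : γ → ℕ)
    (ha : ∀ i, a i ∈ Ω ∧ M.col (a i) = Col.D) (ht : ∀ i, t i ∈ Ω ∧ M.col (t i) = Col.D)
    (he : ∀ i, e i ∈ Ω ∧ M.col (e i) = Col.D) :
    ∃ t' : β → ℕ, (∀ i, t' i ∈ Ω ∧ M.col (t' i) = Col.D) ∧
      SimV M Ω (Sum.elim t' a) (Sum.elim t a) ∧
      clo M Ω (rg (Sum.elim t' a)) ∩ clo M Ω (rg (Sum.elim e a)) ⊆ clo M Ω (rg a) := by
  have htΩ := rg_sub fun i => (ht i).1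
  have haΩ := rg_sub fun i => (ha i).1
  have heΩ := rg_sub fun i => (he i).1
  have htaΩ : ↑(rg t ∪ rg a) ⊆ Ω := by
    rw [Finset.coe_union]
    exact Set.union_subset htΩ haΩ
  have heaΩ : ↑(rg e ∪ rg a) ⊆ Ω := by
    rw [Finset.coe_union]
    exact Set.union_subset heΩ haΩ
  set B := clo M Ω (rg a) with hB
  set A := clo M Ω (rg t ∪ rg a) with hA
  set C := clo M Ω (rg e ∪ rg a) with hC
  have hBA : B ⊆ A := h.clo_mono Finset.subset_union_right htaΩ
  have hBC : B ⊆ C := h.clo_mono Finset.subset_union_right heaΩ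
  obtain ⟨j, j1, j2, j3, j4, j5, j6⟩ := h.amal2 (h.clo_cl heaΩ) (h.clo_cl htaΩ) (h.clo_cl haΩ) hBA hBC
  have htA : ∀ i, t i ∈ A := fun i => h.sub_clo htaΩ (Finset.mem_union_left _ (mem_rg t i))
  have haB : ∀ i, a i ∈ B := fun i => h.sub_clo haΩ (mem_rg a i)
  have ht' : ∀ i, (j ∘ t) i ∈ Ω ∧ M.col ((j ∘ t) i) = Col.D := by
    intro i
    refine ⟨j2.sub (Finset.mem_coe.2 (Finset.mem_image_of_mem j (htA i))), ?_⟩
    rw [Function.comp_apply, j1.col _ (htA i)]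
    exact (ht i).2
  have hsim : SimV M Ω (Sum.elim t a) (Sum.elim (j ∘ t) a) := by
    refine ⟨A, j, h.clo_cl htaΩ, j1, j2, ?_⟩
    rintro (i | i)
    · exact ⟨htA i, rfl⟩
    · exact ⟨hBA (haB i), j3 _ (haB i)⟩
  refine ⟨j ∘ t, ht', h.sim_symm hsim, ?_⟩
  rw [rg_elim, rg_elim]
  intro y hy
  rw [Finset.mem_inter] at hy
  have h7 : clo M Ω (rg (j ∘ t) ∪ rg a) ⊆ A.image j := by
    refine h.clo_le (Finset.union_subset ?_ ?_) j2
    · exact rg_sub' fun i => Finset.mem_image_of_mem j (htA i)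
    · exact rg_sub' fun i => Finset.mem_image.2 ⟨a i, hBA (haB i), j3 _ (haB i)⟩
  obtain ⟨x, hx, rfl⟩ := Finset.mem_image.1 (h7 hy.1)
  have h8 := j6 x hx hy.2
  rw [j3 x h8]
  exact h8

end D

end Run7.h540
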