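import Pool.Agent.Run7.h540.D2

/-!
# Piece D3 (helper690): a generic tuple realising two copies at once
-/

set_option autoImplicit false
set_option linter.all false

namespace Run7.h540
open Classical

/-- in a sequence of injections of a finite set, two members are separated -/
theorem exists_sep (B : Finset ℕ) (g : ℕ → ℕ → ℕ)
    (hinj : ∀ n, ∀ x ∈ B, ∀ y ∈ B, g n x = g n y → x = y) :
    ∃ i j, i ≠ j ∧ ∀ x ∈ B, ∀ y ∈ B, g i x = g j y → x = y := by
  have h1 : ∀ y ∈ B, ∀ᶠ i in (Filter.hyperfilter ℕ : Filter ℕ), ∀ x ∈ B,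
      ∀ᶠ j in (Filter.hyperfilter ℕ : Filter ℕ), g i x = g j y → x = y := by
    intro y hy
    by_cases hc : ∃ c, ∀ᶠ n in (Filter.hyperfilter ℕ : Filter ℕ), g n y = c
    · obtain ⟨c, hc⟩ := hc
      filter_upwards [hc] with i hi x hx
      filter_upwards [hc] with j hj hij
      apply hinj i x hx y hy
      rw [hij, hj, hi]
    · refine Filter.Eventually.of_forall fun i x hx => ?_
      have h2 : ¬ ∀ᶠ n in (Filter.hyperfilter ℕ : Filter ℕ), g n y = g i x := fun h => hc ⟨_, h⟩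
      rw [← Ultrafilter.eventually_not] at h2
      filter_upwards [h2] with j hj hij
      exact absurd hij.symm hj
  have h2 : ∀ᶠ i in (Filter.hyperfilter ℕ : Filter ℕ), ∀ y ∈ B, ∀ x ∈ B,
      ∀ᶠ j in (Filter.hyperfilter ℕ : Filter ℕ), g i x = g j y → x = y :=
    (Filter.eventually_all_finset B).2 h1
  obtain ⟨i, hi⟩ := h2.exists
  have h3 : ∀ᶠ j in (Filter.hyperfilter ℕ : Filter ℕ), ∀ y ∈ B, ∀ x ∈ B, g i x = g j y → x = y :=
    (Filter.eventually_all_finset B).2 fun y hy => (Filter.eventually_all_finset B).2 fun x hx =>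
      hi y hy x hx
  have h4 : ∀ᶠ j in (Filter.hyperfilter ℕ : Filter ℕ), j ≠ i := by
    have : ({i}ᶜ : Set ℕ) ∈ (Filter.hyperfilter ℕ : Filter ℕ) :=
      Filter.compl_mem_hyperfilter_of_finite (Set.finite_singleton i)
    exact this
  obtain ⟨j, hj1, hj2⟩ := (h3.and h4).exists
  exact ⟨i, j, hj2.symm, fun x hx y hy => hj1 y hy x hx⟩

section D

variable {M : Str ℕ} {Ω : Set ℕ} (h : Rich M Ω) {α β γ : Type}
include h

theorem Rich.clo_image {A W S : Finset ℕ} {f : ℕ → ℕ} (hA : M.Cl A Ω) (hf : Emb M M A f)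
    (hA' : M.Cl (A.image f) Ω) (hW : M.Cl W Ω) (hSA : S ⊆ A) (hSW : ∀ x ∈ S, f x ∈ W) :
    ∀ x ∈ clo M Ω S, f x ∈ W := by
  have e1 : (A.filter fun x => f x ∈ W).image f = A.image f ∩ W := by
    ext y
    rw [Finset.mem_image, Finset.mem_inter, Finset.mem_image]
    constructor
    · rintro ⟨x, hx, rfl⟩
      rw [Finset.mem_filter] at hx
      exact ⟨⟨x, hx.1, rfl⟩, hx.2⟩
    · rintro ⟨⟨x, hx, rfl⟩, hy⟩
      exact ⟨x, Finset.mem_filter.2 ⟨hx, hy⟩, rfl⟩
  have h1 : M.Cl ((A.filter fun x => f x ∈ W).image f) Ω := by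
    rw [e1]
    exact Str.Cl.inter h.amb hA' hW
  have h2 := (h.cl_image hA hf hA' (Finset.filter_subset _ _)).1 h1
  have h3 : clo M Ω S ⊆ A.filter fun x => f x ∈ W :=
    h.clo_le (fun x hx => Finset.mem_filter.2 ⟨hSA hx, hSW x hx⟩) h2
  exact fun x hx => (Finset.mem_filter.1 (h3 hx)).2

theorem Rich.clo_self {E : Finset ℕ} (hE : M.Cl E Ω) : clo M Ω E = E :=
  Finset.Subset.antisymm (h.clo_le (Finset.Subset.refl _) hE) (h.sub_clo hE.sub)

/-- D3 -/
theorem Rich.pair [Finite α] [Finite β] (u : ℕ → α → ℕ) (t : ℕ → β → ℕ)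
    (hu : ∀ n i, u n i ∈ Ω ∧ M.col (u n i) = Col.D)
    (ht : ∀ n i, t n i ∈ Ω ∧ M.col (t n i) = Col.D) (hg : GenV M Ω (u 0) (t 0))
    (hs : ∀ i, SimV M Ω (Sum.elim (u i) (t i)) (Sum.elim (u 0) (t 0))) :
      ∃ i j : ℕ, i ≠ j ∧ ∃ u' : α → ℕ, (∀ i, u' i ∈ Ω ∧ M.col (u' i) = Col.D) ∧
        GenV M Ω u' (Sum.elim (t i) (t j)) ∧
        SimV M Ω (Sum.elim u' (t i)) (Sum.elim (u 0) (t 0)) ∧
        SimV M Ω (Sum.elim u' (t j)) (Sum.elim (u 0) (t 0)) := by
  have htΩ : ∀ n, ↑(rg (t n)) ⊆ Ω := fun n => rg_sub fun i => (ht n i).1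
  have huΩ : ∀ n, ↑(rg (u n)) ⊆ Ω := fun n => rg_sub fun i => (hu n i).1
  have hutΩ : ↑(rg (u 0) ∪ rg (t 0)) ⊆ Ω := by
    rw [Finset.coe_union]
    exact Set.union_subset (huΩ 0) (htΩ 0)
  -- the embeddings
  have hsc := fun i => h.sim_cl (h.sim_symm (hs i))
  choose g hg1 hg2 hg3 using hsc
  rw [rg_elim] at hg1 hg2
  set A := clo M Ω (rg (u 0) ∪ rg (t 0)) with hA
  set B := clo M Ω (rg (t 0)) with hB
  have hAc : M.Cl A Ω := h.clo_cl hutΩ
  have hBc : M.Cl B Ω := h.clo_cl (htΩ 0)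
  have hBA : B ⊆ A := h.clo_mono Finset.subset_union_right hutΩ
  have huA : ∀ k, u 0 k ∈ A := fun k => h.sub_clo hutΩ (Finset.mem_union_left _ (mem_rg (u 0) k))
  have htB : ∀ k, t 0 k ∈ B := fun k => h.sub_clo (htΩ 0) (mem_rg (t 0) k)
  have hgu : ∀ i k, g i (u 0 k) = u i k := fun i k => hg3 i (Sum.inl k)
  have hgt : ∀ i k, g i (t 0 k) = t i k := fun i k => hg3 i (Sum.inr k)
  have hgA : ∀ i, M.Cl (A.image (g i)) Ω := by
    intro i
    rw [hg2 i, rg_elim]
    apply h.clo_cl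
    rw [Finset.coe_union]
    exact Set.union_subset (huΩ i) (htΩ i)
  have hgB : ∀ i, M.Cl (B.image (g i)) Ω := fun i =>
    (h.cl_image hAc (hg1 i) (hgA i) hBA).2 hBc
  -- the choice of the two indices
  obtain ⟨i, j, hij, hsep⟩ := exists_sep B g (fun n x hx y hy hxy =>
    (hg1 n).inj x (hBA hx) y (hBA hy) hxy)
  refine ⟨i, j, hij, ?_⟩
  -- the common part
  set E := B.filter fun x => g i x = g j x with hE
  have hEB : E ⊆ B := Finset.filter_subset _ _
  have hgE : E.image (g i) = B.image (g i) ∩ B.image (g j) := by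
    ext y
    rw [Finset.mem_image, Finset.mem_inter, Finset.mem_image, Finset.mem_image]
    constructor
    · rintro ⟨x, hx, rfl⟩
      rw [hE, Finset.mem_filter] at hx
      exact ⟨⟨x, hx.1, rfl⟩, ⟨x, hx.1, hx.2.symm⟩⟩
    · rintro ⟨⟨x, hx, rfl⟩, ⟨y, hy, hxy⟩⟩
      have h1 := hsep x hx y hy hxy.symm
      subst h1
      exact ⟨x, Finset.mem_filter.2 ⟨hx, hxy.symm⟩, rfl⟩
  have hEc : M.Cl E Ω := by
    apply (h.cl_image hAc (hg1 i) (hgA i) (hEB.trans hBA)).1
    rw [hgE]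
    exact Str.Cl.inter h.amb (hgB i) (hgB j)
  -- the closure of the common part with `u`
  have hEuΩ : ↑(rg (u 0) ∪ E) ⊆ Ω := by
    rw [Finset.coe_union]
    exact Set.union_subset (huΩ 0) hEc.sub
  set U := clo M Ω (rg (u 0) ∪ E) with hU
  have hUc : M.Cl U Ω := h.clo_cl hEuΩ
  have hUA : U ⊆ A := by
    refine h.clo_le (Finset.union_subset ?_ (hEB.trans hBA)) hAc
    exact rg_sub' huA
  have huU : ∀ k, u 0 k ∈ U := fun k => h.sub_clo hEuΩ (Finset.mem_union_left _ (mem_rg (u 0) k))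
  have hEU : E ⊆ U := Finset.subset_union_right.trans (h.sub_clo hEuΩ)
  have dA : M.dl A = M.dl B + Nat.card α := hg
  have dU : M.dl U ≤ M.dl E + Nat.card α := by
    have h1 := h.dm_union_le hEc.sub (huΩ 0) (by
      intro v hv
      obtain ⟨i, rfl⟩ := (rg_eq (u 0) v).1 hv
      exact (hu 0 i).2)
    have h2 : ((rg (u 0)).card : ℤ) ≤ Nat.card α := by exact_mod_cast card_rg (u 0)
    have h3 : dm M Ω E = M.dl E := by
      unfold dm
      rw [h.clo_self hEc]
    rw [h3] at h1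
    have h4 : dm M Ω (rg (u 0) ∪ E) = M.dl U := rfl
    linarith
  have hUB : M.dl A + M.dl (U ∩ B) ≤ M.dl U + M.dl B := by
    have h1 := h.dm_sub hEuΩ (htΩ 0)
    have h2 : M.dl A ≤ dm M Ω (rg (u 0) ∪ E ∪ rg (t 0)) := by
      have h3 : ↑(rg (u 0) ∪ E ∪ rg (t 0)) ⊆ Ω := by
        rw [Finset.coe_union]
        exact Set.union_subset hEuΩ (htΩ 0)
      refine h.dm_mono ?_ h3
      exact Finset.union_subset_union_left Finset.subset_union_left
    have h4 : dm M Ω (rg (u 0) ∪ E) = M.dl U := rfl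
    have h5 : dm M Ω (rg (t 0)) = M.dl B := rfl
    rw [h4, h5] at h1
    linarith
  have hUBE : U ∩ B = E := by
    by_contra hne
    have h1 : E ⊂ U ∩ B :=
      Finset.ssubset_iff_subset_ne.2 ⟨Finset.subset_inter hEU hEB, fun h => hne h.symm⟩
    have h2 := hEc.2 _ (Str.PC.inter hUc.1 hBc.1) h1
    linarith
  have dU' : M.dl U = M.dl E + Nat.card α := by
    rw [hUBE] at hUB
    linarith
  have hBU : B ∩ U = E := by rw [Finset.inter_comm, hUBE]
  -- the base
  have httΩ : ↑(rg (t i) ∪ rg (t j)) ⊆ Ω := by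
    rw [Finset.coe_union]
    exact Set.union_subset (htΩ i) (htΩ j)
  set C := clo M Ω (rg (t i) ∪ rg (t j)) with hC
  have hCc : M.Cl C Ω := h.clo_cl httΩ
  have hBi : ∀ n, rg (t n) ⊆ C → ∀ x ∈ B, g n x ∈ C := by
    intro n hn
    refine h.clo_image hAc (hg1 n) (hgA n) hCc (rg_sub' fun k => hBA (htB k)) ?_
    intro x hx
    obtain ⟨k, rfl⟩ := (rg_eq (t 0) x).1 hx
    rw [hgt]
    exact hn (mem_rg (t n) k)
  have hBiC : ∀ x ∈ B, g i x ∈ C := hBi i (Finset.subset_union_left.trans (h.sub_clo httΩ))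
  have hBjC : ∀ x ∈ B, g j x ∈ C := hBi j (Finset.subset_union_right.trans (h.sub_clo httΩ))
  have hP : Prb M M C A B U (g i) (g j) := by
    refine ⟨Str.K.sub h.k hCc.1, Str.K.sub h.k hAc.1, hBc.down hBA hAc.1, hUc.down hUA hAc.1,
      (hg1 i).mono hBA, (hg1 j).mono hBA, ?_, ?_, hsep, ?_, ?_⟩
    · refine (hgB i).down ?_ hCc.1
      intro y hy
      obtain ⟨x, hx, rfl⟩ := Finset.mem_image.1 hy
      exact hBiC x hx
    · refine (hgB j).down ?_ hCc.1
      intro y hy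
      obtain ⟨x, hx, rfl⟩ := Finset.mem_image.1 hy
      exact hBjC x hx
    · intro x hx
      constructor
      · intro h1
        exact hEU (Finset.mem_filter.2 ⟨hx, h1⟩)
      · intro h1
        have h2 : x ∈ E := by
          rw [← hBU]
          exact Finset.mem_inter.2 ⟨hx, h1⟩
        exact (Finset.mem_filter.1 h2).2
    · intro F hF hUF hBF
      rw [hBU, dU']
      have hFΩ : M.PC F Ω := Str.PC.trans hF hAc.1
      have h1 : M.dl (clo M Ω F) ≤ M.dl F := Str.IsC.le h.amb hFΩ (h.isC hFΩ.1)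
      have h2 : M.dl A ≤ M.dl (clo M Ω F) := by
        refine Str.Cl.le hAc (h.clo_cl hFΩ.1).1 ?_
        refine h.clo_mono (Finset.union_subset ?_ ?_) hFΩ.1
        · exact rg_sub' fun k => hUF (huU k)
        · exact rg_sub' fun k => hBF (htB k)
      linarith
  obtain ⟨j0, j1, a1, a2, a3, a4, a5, a6, a7, a8, a9, a10, a11⟩ := h.amal hCc hP
  have hu' : ∀ k, (j0 ∘ u 0) k ∈ Ω ∧ M.col ((j0 ∘ u 0) k) = Col.D := by
    intro k
    refine ⟨a3.sub (Finset.mem_coe.2 (Finset.mem_image_of_mem j0 (huA k))), ?_⟩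
    rw [Function.comp_apply, a1.col _ (huA k)]
    exact (hu 0 k).2
  have hu'Ω := rg_sub fun k => (hu' k).1
  have hs0 : SimV M Ω (Sum.elim (u 0) (t 0)) (Sum.elim (j0 ∘ u 0) (t i)) := by
    refine ⟨A, j0, hAc, a1, a3, ?_⟩
    rintro (k | k)
    · exact ⟨huA k, rfl⟩
    · refine ⟨hBA (htB k), ?_⟩
      rw [Sum.elim_inr, Sum.elim_inr, a5 _ (htB k), hgt]
  have hs1 : SimV M Ω (Sum.elim (u 0) (t 0)) (Sum.elim (j0 ∘ u 0) (t j)) := by
    refine ⟨A, j1, hAc, a2, a4, ?_⟩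
    rintro (k | k)
    · exact ⟨huA k, (a7 _ (huU k)).symm⟩
    · refine ⟨hBA (htB k), ?_⟩
      rw [Sum.elim_inr, Sum.elim_inr, a6 _ (htB k), hgt]
  refine ⟨j0 ∘ u 0, hu', ?_, h.sim_symm hs0, h.sim_symm hs1⟩
  unfold GenV
  rw [rg_elim]
  have hall : ↑(rg (j0 ∘ u 0) ∪ (rg (t i) ∪ rg (t j))) ⊆ Ω := by
    rw [Finset.coe_union]
    exact Set.union_subset hu'Ω httΩ
  have hWc := h.clo_cl hall
  have key : clo M Ω (rg (j0 ∘ u 0) ∪ (rg (t i) ∪ rg (t j))) = C ∪ A.image j0 ∪ A.image j1 := by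
    apply Finset.Subset.antisymm
    · refine h.clo_le (Finset.union_subset ?_ ?_) a8
      · exact rg_sub' fun k => Finset.mem_union_left _
          (Finset.mem_union_right _ (Finset.mem_image_of_mem j0 (huA k)))
      · exact (h.sub_clo httΩ).trans (Finset.subset_union_left.trans Finset.subset_union_left)
    · refine Finset.union_subset (Finset.union_subset ?_ ?_) ?_
      · exact h.clo_mono Finset.subset_union_right hall
      · intro y hy
        obtain ⟨x, hx, rfl⟩ := Finset.mem_image.1 hy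
        refine h.clo_image hAc a1 a3 hWc (h.sub_clo hutΩ) ?_ x hx
        intro z hz
        rcases Finset.mem_union.1 hz with hz | hz
        · obtain ⟨k, rfl⟩ := (rg_eq (u 0) z).1 hz
          exact h.sub_clo hall (Finset.mem_union_left _ (mem_rg (j0 ∘ u 0) k))
        · obtain ⟨k, rfl⟩ := (rg_eq (t 0) z).1 hz
          rw [a5 _ (htB k), hgt]
          exact h.sub_clo hall (Finset.mem_union_right _ (Finset.mem_union_left _ (mem_rg (t i) k)))
      · intro y hy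
        obtain ⟨x, hx, rfl⟩ := Finset.mem_image.1 hy
        refine h.clo_image hAc a2 a4 hWc (h.sub_clo hutΩ) ?_ x hx
        intro z hz
        rcases Finset.mem_union.1 hz with hz | hz
        · obtain ⟨k, rfl⟩ := (rg_eq (u 0) z).1 hz
          rw [← a7 _ (huU k)]
          exact h.sub_clo hall (Finset.mem_union_left _ (mem_rg (j0 ∘ u 0) k))
        · obtain ⟨k, rfl⟩ := (rg_eq (t 0) z).1 hz
          rw [a6 _ (htB k), hgt]
          exact h.sub_clo hall (Finset.mem_union_right _ (Finset.mem_union_right _ (mem_rg (t j) k)))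
  have e5 : dm M Ω (rg (j0 ∘ u 0) ∪ (rg (t i) ∪ rg (t j))) = M.dl (C ∪ A.image j0 ∪ A.image j1) := by
    unfold dm
    rw [key]
  have e6 : dm M Ω (rg (t i) ∪ rg (t j)) = M.dl C := rfl
  rw [e5, e6, a9, hBU, dU', dA]
  ring

end D

end Run7.h540
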