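import Mathlib

/-!
Dividing, forking, stable formulas and stable forking for complete theories.
-/

namespace Run7.h540

open FirstOrder FirstOrder.Language

section

variable {L : FirstOrder.Language.{0, 0}}

/-- The tuples `b` and `c` have the same type over the set `A`. -/
def SameType {N : Type} [L.Structure N] {m : ℕ} (A : Set N) (b c : Fin m → N) : Prop :=
  ∀ (p : ℕ) (ψ : L.Formula (Fin m ⊕ Fin p)) (a : Fin p → N), (∀ i, a i ∈ A) →
    (ψ.Realize (Sum.elim b a) ↔ ψ.Realize (Sum.elim c a))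

/-- The formula `φ(x, b)` divides over `A`: in some elementary extension there is a sequence
`c 0, c 1, ...` of realisations of the type of `b` over `A` such that, for some `k`, no `k` of the
formulas `φ(x, c i)` have a common solution. -/
def Divides {N : Type} [L.Structure N] {n m : ℕ} (A : Set N)
    (φ : L.Formula (Fin n ⊕ Fin m)) (b : Fin m → N) : Prop :=
  ∃ (N' : Type) (_ : L.Structure N') (j : N ↪ₑ[L] N') (c : ℕ → Fin m → N') (k : ℕ),
    (∀ i, SameType (L := L) (j '' A) (j ∘ b) (c i)) ∧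
    ∀ s : Finset ℕ, s.card = k → ¬ ∃ x : Fin n → N', ∀ i ∈ s, φ.Realize (Sum.elim x (c i))

/-- The formula `φ(x, b)` forks over `A`: in some elementary extension it implies a finite
disjunction of formulas each of which divides over `A`. -/
def Forks {N : Type} [L.Structure N] {n m : ℕ} (A : Set N)
    (φ : L.Formula (Fin n ⊕ Fin m)) (b : Fin m → N) : Prop :=
  ∃ (N' : Type) (_ : L.Structure N') (j : N ↪ₑ[L] N') (r : ℕ) (l : Fin r → ℕ)
    (ψ : ∀ i, L.Formula (Fin n ⊕ Fin (l i))) (c : ∀ i, Fin (l i) → N'),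
    (∀ x : Fin n → N', φ.Realize (Sum.elim x (j ∘ b)) →
      ∃ i, (ψ i).Realize (Sum.elim x (c i))) ∧
    ∀ i, Divides (j '' A) (ψ i) (c i)

/-- The formula `φ(x, y)` is stable in `T`: in no model of `T` are there sequences `a i`, `b j`
such that `φ(a i, b j)` holds exactly when `i < j`. -/
def Stable (T : L.Theory) {n m : ℕ} (φ : L.Formula (Fin n ⊕ Fin m)) : Prop :=
  ∀ (N : Type) [L.Structure N], N ⊨ T → ¬ ∃ (a : ℕ → Fin n → N) (b : ℕ → Fin m → N),
    ∀ i j, φ.Realize (Sum.elim (a i) (b j)) ↔ i < j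

/-- All types in `n` variables have stable forking: if the type of `a` over `B` forks over
`A ⊆ B`, then it contains a formula which forks over `A` and is an instance of a stable
formula. -/
def StableForking (T : L.Theory) (n : ℕ) : Prop :=
  ∀ (N : Type) [L.Structure N], N ⊨ T → ∀ A B : Set N, A ⊆ B → ∀ a : Fin n → N,
    (∃ (m : ℕ) (φ : L.Formula (Fin n ⊕ Fin m)) (b : Fin m → N),
      (∀ i, b i ∈ B) ∧ φ.Realize (Sum.elim a b) ∧ Forks A φ b) →
    ∃ (m : ℕ) (φ : L.Formula (Fin n ⊕ Fin m)) (b : Fin m → N),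
      Stable T φ ∧ (∀ i, b i ∈ B) ∧ φ.Realize (Sum.elim a b) ∧ Forks A φ b

end

end Run7.h540
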