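import Mathlib

/-!
Dividing, forking and simplicity, with indiscernible sequences, and the conclusion of the stable
forking conjecture.
-/

namespace Run7.h540.SFC

open FirstOrder FirstOrder.Language Cardinal

section

variable {L : FirstOrder.Language.{0, 0}}

/-- The sequence `c 0, c 1, ...` of tuples is indiscernible over the set `A`. -/
def Indiscernible {N : Type} [L.Structure N] {m : ℕ} (A : Set N) (c : ℕ → Fin m → N) : Prop :=
  ∀ (r p : ℕ) (ψ : L.Formula ((Fin r × Fin m) ⊕ Fin p)) (a : Fin p → N), (∀ i, a i ∈ A) →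
    ∀ σ τ : Fin r → ℕ, StrictMono σ → StrictMono τ →
      (ψ.Realize (Sum.elim (fun x => c (σ x.1) x.2) a) ↔
        ψ.Realize (Sum.elim (fun x => c (τ x.1) x.2) a))

/-- The formula `φ(x, b)` divides over `A`: in some elementary extension there is a sequence,
indiscernible over `A`, whose first term is `b` and such that, for some `k`, no `k` of the
formulas `φ(x, c i)` have a common solution. -/
def Divides {N : Type} [L.Structure N] {n m : ℕ} (A : Set N)
    (φ : L.Formula (Fin n ⊕ Fin m)) (b : Fin m → N) : Prop :=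
  ∃ (N' : Type) (_ : L.Structure N') (j : N ↪ₑ[L] N') (c : ℕ → Fin m → N') (k : ℕ),
    c 0 = j ∘ b ∧ Indiscernible (L := L) (j '' A) c ∧
    ∀ s : Finset ℕ, s.card = k → ¬ ∃ x : Fin n → N', ∀ i ∈ s, φ.Realize (Sum.elim x (c i))

/-- The formula `φ(x, b)` forks over `A`: in some elementary extension it implies a finite
disjunction of formulas each of which divides over `A`. -/
def Forks {N : Type} [L.Structure N] {n m : ℕ} (A : Set N)
    (φ : L.Formula (Fin n ⊕ Fin m)) (b : Fin m → N) : Prop :=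
  ∃ (N' : Type) (_ : L.Structure N') (j : N ↪ₑ[L] N') (r : ℕ) (l : Fin r → ℕ)
    (ψ : ∀ i, L.Formula (Fin n ⊕ Fin (l i))) (c : ∀ i, Fin (l i) → N'),
    (∀ x : Fin n → N', φ.Realize (Sum.elim x (j ∘ b)) →
      ∃ i, (ψ i).Realize (Sum.elim x (c i))) ∧
    ∀ i, Divides (j '' A) (ψ i) (c i)

/-- The type of `a` over `B` forks over `A`: it contains a formula which forks over `A`. -/
def TypeForks {N : Type} [L.Structure N] {n : ℕ} (A : Set N) (a : Fin n → N) (B : Set N) : Prop :=
  ∃ (m : ℕ) (φ : L.Formula (Fin n ⊕ Fin m)) (b : Fin m → N),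
    (∀ i, b i ∈ B) ∧ φ.Realize (Sum.elim a b) ∧ Forks A φ b

/-- `T` is simple: every complete type over a set `B` does not fork over some subset of `B` of
cardinality at most `|T|`. -/
def Simple (T : L.Theory) : Prop :=
  ∀ (N : Type) [L.Structure N], N ⊨ T → ∀ (B : Set N) (n : ℕ) (a : Fin n → N),
    ∃ B₀ ⊆ B, #B₀ ≤ max ℵ₀ L.card ∧ ¬ TypeForks (L := L) B₀ a B

/-- The formula `φ(x, y)` is stable in `T`. -/
def Stable (T : L.Theory) {n m : ℕ} (φ : L.Formula (Fin n ⊕ Fin m)) : Prop :=
  ∀ (N : Type) [L.Structure N], N ⊨ T → ¬ ∃ (a : ℕ → Fin n → N) (b : ℕ → Fin m → N),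
    ∀ i j, φ.Realize (Sum.elim (a i) (b j)) ↔ i < j

/-- Forking is witnessed by stable formulas in `T`: if the type of `a` over `C ∪ b` forks over
`C`, then it contains an instance of a stable formula which forks over `C`. -/
def HasStableForking (T : L.Theory) : Prop :=
  ∀ (N : Type) [L.Structure N], N ⊨ T → ∀ (C : Set N) (n m : ℕ) (a : Fin n → N)
    (b : Fin m → N), TypeForks (L := L) C a (C ∪ Set.range b) →
      ∃ (k : ℕ) (φ : L.Formula (Fin n ⊕ Fin k)) (d : Fin k → N), Stable T φ ∧
        (∀ i, d i ∈ C ∪ Set.range b) ∧ φ.Realize (Sum.elim a d) ∧ Forks C φ d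

end

end Run7.h540.SFC
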