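import Pool.Agent.Run7.h540.D3
import Pool.Agent.Run7.h540.C
import Pool.Agent.Run7.h540.E

/-!
# Piece G (helper690): the geometry of a rich structure
-/

set_option autoImplicit false
set_option linter.all false

namespace Run7.h540
open Classical

section G

variable {M : Str ℕ} {Ω : Set ℕ} (h : Rich M Ω) {α β γ : Type}
include h

/-- embedding a finite structure -/
theorem Rich.emb_fin {W : Type} [DecidableEq W] {H : Str W} {Z : Finset W} (hZ : H.K ↑Z) :
    ∃ g : W → ℕ, Emb H M Z g ∧ M.Cl (Z.image g) Ω := by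
  obtain ⟨g, h1, _, h3⟩ := h.rich W H ∅ Z hZ (Str.K.empty hZ) (fun _ => 0)
    ⟨by simp, by simp, by simp⟩ (by
      rw [Finset.image_empty]
      exact Str.K.empty h.k)
  exact ⟨g, h1, h3⟩

theorem Rich.cl_emb {W : Type} [DecidableEq W] {H : Str W} {Z T : Finset W} {g : W → ℕ}
    (hg : Emb H M Z g) (hc : M.Cl (Z.image g) Ω) (hT : T ⊆ Z) :
    M.Cl (T.image g) Ω ↔ H.Cl T ↑Z := by
  constructor
  · intro h1
    exact (hg.cl hT).1 (h1.down (Finset.image_subset_image hT) hc.1)
  · intro h1
    exact Str.Cl.trans h.amb ((hg.cl hT).2 h1) hc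

theorem Rich.clo_emb {W : Type} [DecidableEq W] {H : Str W} {Z S C : Finset W} {g : W → ℕ}
    (hg : Emb H M Z g) (hc : M.Cl (Z.image g) Ω) (hS : H.IsC S C ↑Z) :
    clo M Ω (S.image g) = C.image g := by
  have hCZ : C ⊆ Z := Finset.coe_subset.1 hS.1.1.1
  have hSZ : S ⊆ Z := hS.2.1.trans hCZ
  have hSΩ : ↑(S.image g) ⊆ Ω := (Finset.coe_subset.2 (Finset.image_subset_image hSZ)).trans hc.sub
  apply Finset.Subset.antisymm
  · exact h.clo_le (Finset.image_subset_image hS.2.1) ((h.cl_emb hg hc hCZ).2 hS.1)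
  · have h1 : clo M Ω (S.image g) ⊆ Z.image g := h.clo_le (Finset.image_subset_image hSZ) hc
    have h2 : (Z.filter fun x => g x ∈ clo M Ω (S.image g)).image g = clo M Ω (S.image g) := by
      ext y
      rw [Finset.mem_image]
      constructor
      · rintro ⟨x, hx, rfl⟩
        exact (Finset.mem_filter.1 hx).2
      · intro hy
        obtain ⟨x, hx, rfl⟩ := Finset.mem_image.1 (h1 hy)
        exact ⟨x, Finset.mem_filter.2 ⟨hx, hy⟩, rfl⟩
    have h3 : H.Cl (Z.filter fun x => g x ∈ clo M Ω (S.image g)) ↑Z := by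
      apply (h.cl_emb hg hc (Finset.filter_subset _ _)).1
      rw [h2]
      exact h.clo_cl hSΩ
    have h4 : C ⊆ Z.filter fun x => g x ∈ clo M Ω (S.image g) := by
      apply hS.2.2 _ h3
      intro x hx
      exact Finset.mem_filter.2 ⟨hSZ hx, h.sub_clo hSΩ (Finset.mem_image_of_mem g hx)⟩
    calc C.image g ⊆ (Z.filter fun x => g x ∈ clo M Ω (S.image g)).image g :=
          Finset.image_subset_image h4
      _ = _ := h2

theorem Rich.sim_emb {W : Type} [DecidableEq W] [Nonempty W] {H : Str W} {Z : Finset W} {g g' : W → ℕ}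
    (hg : Emb H M Z g) (hc : M.Cl (Z.image g) Ω) (hg' : Emb H M Z g') (hc' : M.Cl (Z.image g') Ω)
    (s : α → W) (hs : ∀ i, s i ∈ Z) : SimV M Ω (g ∘ s) (g' ∘ s) := by
  obtain ⟨k, k1, k2, k3⟩ := hg.inv
  refine ⟨Z.image g, g' ∘ k, hc, ?_, ?_, fun i => ⟨?_, ?_⟩⟩
  · refine k2.comp ?_
    rw [k3]
    exact hg'
  · rw [← Finset.image_image, k3]
    exact hc'
  · exact Finset.mem_image_of_mem g (hs i)
  · show g' (k (g (s i))) = g' (s i)
    rw [k1 _ (hs i)]

/-- no point is related to 102 points of a free system -/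
theorem Rich.div_key {m : ℕ} {s : Finset (Fin m)} (hs : s.card = 102)
    {g : Fin m × Option (Fin 101) → ℕ} (hg : Emb (CopS m) M Finset.univ g)
    (hgc : M.Cl (Finset.univ.image g) Ω) {a : ℕ} (ha : a ∈ Ω) (hcol : M.col a = Col.X)
    (hR : ∀ i ∈ s, M.R a (g (i, none))) : False := by
  set T : Finset (Fin m × Option (Fin 101)) := s ×ˢ Finset.univ with hT
  set H : Finset ℕ := T.image g with hH
  have hHc : M.Cl H Ω := (h.cl_emb hg hgc (Finset.subset_univ T)).2 (cop_cl m s)
  have hcolg : ∀ x, M.col (g x) = (CopS m).col x := fun x => hg.col x (Finset.mem_univ _)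
  have hnoL : ∀ x ∈ H, M.col x ≠ Col.L := by
    intro x hx
    obtain ⟨y, _, rfl⟩ := Finset.mem_image.1 hx
    rw [hcolg]
    rcases y with ⟨i, _ | k⟩
    · simp [CopS]
    · simp [CopS]
  have haH : a ∉ H := by
    intro haH
    obtain ⟨y, _, hy⟩ := Finset.mem_image.1 haH
    have hsne : s.Nonempty := by
      rw [← Finset.card_pos, hs]
      norm_num
    obtain ⟨i, hi⟩ := hsne
    have h1 := (hR i hi).2.2.2
    rw [← hy, hg.adj _ (Finset.mem_univ _) _ (Finset.mem_univ _)] at h1
    obtain ⟨t, k, h2, h3⟩ := h1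
    have h4 := hcol
    rw [← hy, hcolg, h2] at h4
    simp [CopS] at h4
  -- the predimension
  have hwt : M.wt a = 101 := by
    simp [Str.wt, Str.thr, hcol]
  have hnoQ : ∀ x, ∀ l ∈ insert a H, ¬ M.Q x l := by
    intro x l hl hQ
    rcases Finset.mem_insert.1 hl with rfl | hl
    · rw [hQ.2.1] at hcol
      exact absurd hcol (by simp)
    · exact hnoL l hl hQ.2.1
  have hE : M.eE H ≤ M.eE (insert a H) := by
    apply Finset.card_le_card
    apply Finset.filter_subset_filter
    exact Finset.product_subset_product (Finset.subset_insert _ _) (Finset.subset_insert _ _)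
  have hQ : M.eQ H = 0 := by
    unfold Str.eQ
    rw [Finset.card_eq_zero, Finset.filter_eq_empty_iff]
    intro p hp
    exact hnoQ _ _ (Finset.mem_insert_of_mem (Finset.mem_product.1 hp).2)
  have htr : M.tr (insert a H) = 0 := by
    unfold Str.tr
    rw [Finset.card_eq_zero, Finset.filter_eq_empty_iff]
    rintro p hp ⟨_, h2, _⟩
    exact hnoQ _ _ (Finset.mem_product.1 (Finset.mem_product.1 hp).2).2 h2
  have hRR : M.eR H + 102 ≤ M.eR (insert a H) := by
    unfold Str.eR
    have hinj : Set.InjOn (fun i : Fin m => (a, g (i, none))) ↑s := by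
      intro i hi j hj hij
      have h1 : g (i, none) = g (j, none) := (Prod.mk.injEq _ _ _ _).mp hij |>.2
      have h2 := hg.inj _ (Finset.mem_univ _) _ (Finset.mem_univ _) h1
      exact ((Prod.mk.injEq _ _ _ _).mp h2).1
    have hcard : (s.image fun i => (a, g (i, none))).card = 102 := by
      rw [Finset.card_image_of_injOn hinj, hs]
    rw [← hcard, ← Finset.card_union_of_disjoint]
    · apply Finset.card_le_card
      intro p hp
      rcases Finset.mem_union.1 hp with hp | hp
      · rw [Finset.mem_filter, Finset.mem_product] at hp ⊢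
        exact ⟨⟨Finset.mem_insert_of_mem hp.1.1, Finset.mem_insert_of_mem hp.1.2⟩, hp.2⟩
      · obtain ⟨i, hi, rfl⟩ := Finset.mem_image.1 hp
        rw [Finset.mem_filter, Finset.mem_product]
        refine ⟨⟨Finset.mem_insert_self _ _, Finset.mem_insert_of_mem ?_⟩, hR i hi⟩
        apply Finset.mem_image_of_mem g
        rw [hT, Finset.mem_product]
        exact ⟨hi, Finset.mem_univ _⟩
    · rw [Finset.disjoint_left]
      intro p hp hp'
      obtain ⟨i, hi, rfl⟩ := Finset.mem_image.1 hp'
      rw [Finset.mem_filter, Finset.mem_product] at hp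
      exact haH hp.1.1
  have hdl : M.dl (insert a H) < M.dl H := by
    unfold Str.dl
    rw [Finset.sum_insert haH, hwt, htr, hQ]
    have e1 : (M.eE H : ℤ) ≤ M.eE (insert a H) := by exact_mod_cast hE
    have e2 : (M.eR H : ℤ) + 102 ≤ M.eR (insert a H) := by exact_mod_cast hRR
    have e3 : (0 : ℤ) ≤ M.tr H := by positivity
    have e4 : (0 : ℤ) ≤ M.eQ (insert a H) := by positivity
    push_cast
    linarith
  -- the P-closure
  have haHΩ : ↑(insert a H) ⊆ Ω := by
    rw [Finset.coe_insert]
    exact Set.insert_subset ha hHc.sub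
  obtain ⟨H', hH'⟩ := Str.exists_isP' h.amb haHΩ
  have h4 : ∀ v ∈ Ω, v ∉ insert a H → M.qd v (insert a H) ≤ 4 := by
    intro v hv hvn
    have h5 : M.qd v H ≤ M.thr v := hHc.1.2 v hv (fun hvH => hvn (Finset.mem_insert_of_mem hvH))
    have h6 : M.thr v ≤ 2 := by
      unfold Str.thr
      rcases M.col v <;> simp
    have h7 : M.qd v (insert a H) ≤ M.qd v H + 1 := by
      unfold Str.qd
      rw [Finset.filter_insert]
      split_ifs
      · exact Finset.card_insert_le _ _
      · exact Nat.le_succ _
    omega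
  have h5 := Str.dl_grow h.k.a1 h.k.a2 haHΩ h4 hH'
  have h6 : H ⊂ H' := by
    refine Finset.ssubset_iff_subset_ne.2 ⟨(Finset.subset_insert _ _).trans hH'.2.1, ?_⟩
    intro h7
    apply haH
    rw [h7]
    exact hH'.2.1 (Finset.mem_insert_self _ _)
  have h7 := hHc.2 _ hH'.1 h6
  have h8 : (0 : ℤ) ≤ 27 * ((H' \ insert a H).card : ℤ) := by positivity
  linarith

end G

section lift

variable {M : Str ℕ} {Ω : Set ℕ} {α β γ : Type}

/-- the underlying tuple -/
def vl (s : α → DV M Ω) : α → ℕ := fun i => (s i).1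

theorem vl_spec (s : α → DV M Ω) (i : α) : vl s i ∈ Ω ∧ M.col (vl s i) = Col.D := (s i).2

theorem vl_elim (s : α → DV M Ω) (t : β → DV M Ω) :
    vl (Sum.elim s t) = Sum.elim (vl s) (vl t) := by
  funext i
  rcases i with i | i <;> rfl

theorem vl_comp (s : α → DV M Ω) (g : β → α) : vl (s ∘ g) = vl s ∘ g := rfl

/-- the lift of a tuple -/
def lft (y : α → ℕ) (hy : ∀ i, y i ∈ Ω ∧ M.col (y i) = Col.D) : α → DV M Ω := fun i => ⟨y i, hy i⟩

theorem vl_lft (y : α → ℕ) (hy : ∀ i, y i ∈ Ω ∧ M.col (y i) = Col.D) :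
    vl (lft (M := M) (Ω := Ω) y hy) = y := rfl

theorem vl_inj {s t : α → DV M Ω} (hst : vl s = vl t) : s = t := by
  funext i
  exact Subtype.ext (congrFun hst i)

end lift

variable {M : Str ℕ} {Ω : Set ℕ} in
theorem Rich.geo_data (h : Rich M Ω) : ∃ pu pv qu qv : Fin 101 → DV M Ω,
    GenV M Ω (vl qu) (vl qv) ∧
    (∀ m : ℕ, ∃ u v : Fin m → Fin 101 → DV M Ω, ∀ i j : Fin m,
      (i < j → SimV M Ω (vl (Sum.elim (u i) (v j))) (vl (Sum.elim pu pv))) ∧
      (j ≤ i → SimV M Ω (vl (Sum.elim (u i) (v j))) (vl (Sum.elim qu qv)))) ∧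
    ∀ m : ℕ, ∃ v : Fin m → Fin 101 → DV M Ω, (∀ i, SimV M Ω (vl (v i)) (vl pv)) ∧
      (∀ (r : ℕ) (s t : Fin r → Fin m), Function.Injective s → Function.Injective t →
        SimV M Ω (vl (fun x : Fin r × Fin 101 => v (s x.1) x.2)) (vl (fun x => v (t x.1) x.2))) ∧
      ∀ s : Finset (Fin m), s.card = 102 →
        ¬ ∃ u : Fin 101 → DV M Ω, ∀ i ∈ s, SimV M Ω (vl (Sum.elim u (v i))) (vl (Sum.elim pu pv)) := by
  -- the two pairs
  obtain ⟨g1, hg1, hc1⟩ := h.emb_fin (pair_k True)
  obtain ⟨g2, hg2, hc2⟩ := h.emb_fin (pair_k False)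
  have hD1 : ∀ s k, g1 (s, some k) ∈ Ω ∧ M.col (g1 (s, some k)) = Col.D := by
    intro s k
    refine ⟨hc1.sub (Finset.mem_coe.2 (Finset.mem_image_of_mem g1 (Finset.mem_univ _))), ?_⟩
    rw [hg1.col _ (Finset.mem_univ _)]
    rfl
  have hD2 : ∀ s k, g2 (s, some k) ∈ Ω ∧ M.col (g2 (s, some k)) = Col.D := by
    intro s k
    refine ⟨hc2.sub (Finset.mem_coe.2 (Finset.mem_image_of_mem g2 (Finset.mem_univ _))), ?_⟩
    rw [hg2.col _ (Finset.mem_univ _)]
    rfl
  have hrg : ∀ (g : Bool × Option (Fin 101) → ℕ) (s : Bool),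
      rg (fun k : Fin 101 => g (s, some k)) =
        ((Finset.univ : Finset (Fin 101)).image fun x => (s, some x)).image g := by
    intro g s
    ext v
    rw [rg_eq, Finset.image_image, Finset.mem_image]
    simp
  have hrg2 : ∀ (g : Bool × Option (Fin 101) → ℕ),
      rg (fun k : Fin 101 => g (false, some k)) ∪ rg (fun k : Fin 101 => g (true, some k)) =
        ((Finset.univ : Finset (Bool × Fin 101)).image fun x => (x.1, some x.2)).image g := by
    intro g
    ext v
    rw [Finset.mem_union, rg_eq, rg_eq, Finset.image_image, Finset.mem_image]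
    constructor
    · rintro (⟨k, rfl⟩ | ⟨k, rfl⟩)
      · exact ⟨(false, k), Finset.mem_univ _, rfl⟩
      · exact ⟨(true, k), Finset.mem_univ _, rfl⟩
    · rintro ⟨⟨b, k⟩, _, rfl⟩
      rcases b with _ | _
      · exact Or.inl ⟨k, rfl⟩
      · exact Or.inr ⟨k, rfl⟩
  let pu : Fin 101 → DV M Ω := lft (fun k => g1 (false, some k)) (hD1 false)
  let pv : Fin 101 → DV M Ω := lft (fun k => g1 (true, some k)) (hD1 true)
  let qu : Fin 101 → DV M Ω := lft (fun k => g2 (false, some k)) (hD2 false)
  let qv : Fin 101 → DV M Ω := lft (fun k => g2 (true, some k)) (hD2 true)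
  have hgenq : GenV M Ω (vl qu) (vl qv) := by
    have e1 : rg (vl qu) ∪ rg (vl qv) =
        ((Finset.univ : Finset (Bool × Fin 101)).image fun x => (x.1, some x.2)).image g2 := hrg2 g2
    have e2 : rg (vl qv) =
        ((Finset.univ : Finset (Fin 101)).image fun x => (true, some x)).image g2 := hrg g2 true
    unfold GenV dm
    rw [e1, e2, h.clo_emb hg2 hc2 (pair_cl False), h.clo_emb hg2 hc2 (pair_half False true),
      hg2.dl (Finset.Subset.refl _), hg2.dl (Finset.subset_univ _), pair_dl, pair_half_dl]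
    simp
  have hladder : ∀ m : ℕ, ∃ u v : Fin m → Fin 101 → DV M Ω, ∀ i j : Fin m,
      (i < j → SimV M Ω (vl (Sum.elim (u i) (v j))) (vl (Sum.elim pu pv))) ∧
      (j ≤ i → SimV M Ω (vl (Sum.elim (u i) (v j))) (vl (Sum.elim qu qv))) := by
    intro m
    obtain ⟨W, _, H, Z, u, v, hK, hij⟩ := ladder_fin m
    obtain ⟨g, hg, hgc⟩ := h.emb_fin hK
    have hu : ∀ i k, g (u i k) ∈ Ω ∧ M.col (g (u i k)) = Col.D := by
      intro i k
      obtain ⟨e, e1, e2, e3, e4⟩ := hij i i
      have h1 : u i k ∈ Z := by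
        rw [← e3 k]
        exact Finset.coe_subset.1 e2.1.1 (Finset.mem_image_of_mem e (Finset.mem_univ _))
      refine ⟨hgc.sub (Finset.mem_coe.2 (Finset.mem_image_of_mem g h1)), ?_⟩
      rw [hg.col _ h1, ← e3 k, e1.col _ (Finset.mem_univ _)]
      rfl
    have hv : ∀ i k, g (v i k) ∈ Ω ∧ M.col (g (v i k)) = Col.D := by
      intro i k
      obtain ⟨e, e1, e2, e3, e4⟩ := hij i i
      have h1 : v i k ∈ Z := by
        rw [← e4 k]
        exact Finset.coe_subset.1 e2.1.1 (Finset.mem_image_of_mem e (Finset.mem_univ _))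
      refine ⟨hgc.sub (Finset.mem_coe.2 (Finset.mem_image_of_mem g h1)), ?_⟩
      rw [hg.col _ h1, ← e4 k, e1.col _ (Finset.mem_univ _)]
      rfl
    have hsim : ∀ (r : Prop) (g' : Bool × Option (Fin 101) → ℕ), Emb (PairS r) M Finset.univ g' →
        M.Cl (Finset.univ.image g') Ω → ∀ i j : Fin m, (i < j) = r →
        SimV M Ω (Sum.elim (fun k => g (u i k)) (fun k => g (v j k)))
          (Sum.elim (fun k : Fin 101 => g' (false, some k)) (fun k : Fin 101 => g' (true, some k))) := by
      intro r g' hg' hc' i j hr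
      obtain ⟨e, e1, e2, e3, e4⟩ := hij i j
      rw [hr] at e1
      have e5 : Finset.univ.image e ⊆ Z := Finset.coe_subset.1 e2.1.1
      have e6 : Emb (PairS r) M Finset.univ (g ∘ e) := e1.comp (hg.mono e5)
      have e7 : M.Cl (Finset.univ.image (g ∘ e)) Ω := by
        rw [← Finset.image_image]
        exact (h.cl_emb hg hgc e5).2 e2
      have e8 := h.sim_emb e6 e7 hg' hc' (Sum.elim (fun k : Fin 101 => ((false, some k) : Bool × Option (Fin 101)))
        (fun k : Fin 101 => (true, some k))) (fun _ => Finset.mem_univ _)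
      rw [Sum.comp_elim, Sum.comp_elim] at e8
      have e9 : (g ∘ e) ∘ (fun k : Fin 101 => ((false, some k) : Bool × Option (Fin 101))) =
          fun k => g (u i k) := by
        funext k
        show g (e (false, some k)) = _
        rw [e3]
      have e10 : (g ∘ e) ∘ (fun k : Fin 101 => ((true, some k) : Bool × Option (Fin 101))) =
          fun k => g (v j k) := by
        funext k
        show g (e (true, some k)) = _
        rw [e4]
      rw [e9, e10] at e8
      exact e8
    refine ⟨fun i => lft (fun k => g (u i k)) (hu i), fun i => lft (fun k => g (v i k)) (hv i), ?_⟩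
    intro i j
    rw [vl_elim, vl_elim, vl_elim]
    constructor
    · intro hlt
      exact hsim True g1 hg1 hc1 i j (eq_true hlt)
    · intro hle
      exact hsim False g2 hg2 hc2 i j (eq_false (not_lt.2 hle))
  have hdiv : ∀ m : ℕ, ∃ v : Fin m → Fin 101 → DV M Ω, (∀ i, SimV M Ω (vl (v i)) (vl pv)) ∧
      (∀ (r : ℕ) (s t : Fin r → Fin m), Function.Injective s → Function.Injective t →
        SimV M Ω (vl (fun x : Fin r × Fin 101 => v (s x.1) x.2)) (vl (fun x => v (t x.1) x.2))) ∧
      ∀ s : Finset (Fin m), s.card = 102 →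
        ¬ ∃ u : Fin 101 → DV M Ω, ∀ i ∈ s, SimV M Ω (vl (Sum.elim u (v i))) (vl (Sum.elim pu pv)) := by
    intro m
    obtain ⟨g, hg, hgc⟩ := h.emb_fin (cop_k m)
    have hv : ∀ i k, g (i, some k) ∈ Ω ∧ M.col (g (i, some k)) = Col.D := by
      intro i k
      refine ⟨hgc.sub (Finset.mem_coe.2 (Finset.mem_image_of_mem g (Finset.mem_univ _))), ?_⟩
      rw [hg.col _ (Finset.mem_univ _)]
      rfl
    have hgi : ∀ i : Fin m, M.Cl ((({i} : Finset (Fin m)) ×ˢ (Finset.univ : Finset (Option (Fin 101)))).image g) Ω :=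
      fun i => (h.cl_emb hg hgc (Finset.subset_univ _)).2 (cop_cl m {i})
    refine ⟨fun i => lft (fun k => g (i, some k)) (hv i), fun i => ?_, ?_, ?_⟩
    · -- one half
      have e1 : Emb (CopS m) (PairS True) (({i} : Finset (Fin m)) ×ˢ Finset.univ)
          (fun x => (true, x.2)) := by
        refine ⟨?_, ?_, ?_⟩
        · intro a ha b hb hab
          rw [Finset.mem_product, Finset.mem_singleton] at ha hb
          exact Prod.ext (ha.1.trans hb.1.symm) (Prod.mk.inj hab).2
        · rintro ⟨a, _ | k⟩ _ <;> rfl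
        · rintro ⟨a, x⟩ ha ⟨b, y⟩ hb
          rw [Finset.mem_product, Finset.mem_singleton] at ha hb
          have h1 : a = i := ha.1
          have h2 : b = i := hb.1
          subst h1
          subst h2
          show ((∃ s k, ((true, x) : Bool × Option (Fin 101)) = (s, some k) ∧ ((true, y) : Bool × Option (Fin 101)) = (s, none)) ∨
            (True ∧ ((true, x) : Bool × Option (Fin 101)) = (false, none) ∧ ((true, y) : Bool × Option (Fin 101)) = (true, none))) ↔
            ∃ s k, ((b, x) : Fin m × Option (Fin 101)) = (s, some k) ∧ ((b, y) : Fin m × Option (Fin 101)) = (s, none)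
          constructor
          · rintro (⟨s, k, h3, h4⟩ | ⟨_, h3, _⟩)
            · exact ⟨b, k, Prod.ext rfl (Prod.mk.inj h3).2, Prod.ext rfl (Prod.mk.inj h4).2⟩
            · exact absurd (Prod.mk.inj h3).1 (by simp)
          · rintro ⟨s, k, h3, h4⟩
            exact Or.inl ⟨true, k, Prod.ext rfl (Prod.mk.inj h3).2, Prod.ext rfl (Prod.mk.inj h4).2⟩
      have e2 : (({i} : Finset (Fin m)) ×ˢ (Finset.univ : Finset (Option (Fin 101)))).image
          (fun x => (true, x.2)) = (Finset.univ : Finset (Option (Fin 101))).image fun x => (true, x) := by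
        ext y
        rw [Finset.mem_image, Finset.mem_image]
        constructor
        · rintro ⟨x, _, rfl⟩
          exact ⟨x.2, Finset.mem_univ _, rfl⟩
        · rintro ⟨x, _, rfl⟩
          exact ⟨(i, x), by simp, rfl⟩
      have e3 : Emb (CopS m) M (({i} : Finset (Fin m)) ×ˢ Finset.univ) (g1 ∘ fun x => (true, x.2)) :=
        e1.comp (hg1.mono (Finset.subset_univ _))
      have e4 : M.Cl ((({i} : Finset (Fin m)) ×ˢ (Finset.univ : Finset (Option (Fin 101)))).image
          (g1 ∘ fun x => (true, x.2))) Ω := by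
        rw [← Finset.image_image, e2]
        exact (h.cl_emb hg1 hc1 (Finset.subset_univ _)).2 (pair_half True true).1
      haveI : Nonempty (Fin m × Option (Fin 101)) := ⟨(i, none)⟩
      exact h.sim_emb (hg.mono (Finset.subset_univ _)) (hgi i) e3 e4 (fun k => (i, some k)) (by simp)
    · -- indiscernibility
      intro r s t hs ht
      rcases r with _ | r
      · have e0 : (fun x : Fin 0 × Fin 101 => lft (M := M) (Ω := Ω) (fun k => g (s x.1, some k)) (hv (s x.1)) x.2) =
            fun x => lft (M := M) (Ω := Ω) (fun k => g (t x.1, some k)) (hv (t x.1)) x.2 := by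
          funext x
          exact x.1.elim0
        rw [e0]
        exact h.sim_refl _ fun x => x.1.elim0
      · have key : ∀ s : Fin (r + 1) → Fin m, Function.Injective s →
            Emb (CopS (r + 1)) M Finset.univ (g ∘ fun x => (s x.1, x.2)) ∧
            M.Cl (Finset.univ.image (g ∘ fun x : Fin (r + 1) × Option (Fin 101) => (s x.1, x.2))) Ω := by
          intro s hs
          have e1 : Emb (CopS (r + 1)) (CopS m) Finset.univ (fun x => (s x.1, x.2)) := by
            refine ⟨?_, ?_, ?_⟩
            · rintro ⟨a, x⟩ _ ⟨b, y⟩ _ hab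
              exact Prod.ext (hs (Prod.mk.inj hab).1) (Prod.mk.inj hab).2
            · rintro ⟨a, _ | k⟩ _ <;> rfl
            · rintro ⟨a, x⟩ _ ⟨b, y⟩ _
              show (∃ s' k, ((s a, x) : Fin m × Option (Fin 101)) = (s', some k) ∧
                  ((s b, y) : Fin m × Option (Fin 101)) = (s', none)) ↔
                ∃ s' k, ((a, x) : Fin (r + 1) × Option (Fin 101)) = (s', some k) ∧
                  ((b, y) : Fin (r + 1) × Option (Fin 101)) = (s', none)
              constructor
              · rintro ⟨s', k, h3, h4⟩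
                have h5 : a = b := hs ((Prod.mk.inj h3).1.trans (Prod.mk.inj h4).1.symm)
                exact ⟨a, k, Prod.ext rfl (Prod.mk.inj h3).2, Prod.ext h5.symm (Prod.mk.inj h4).2⟩
              · rintro ⟨s', k, h3, h4⟩
                have h5 : a = b := (Prod.mk.inj h3).1.trans (Prod.mk.inj h4).1.symm
                exact ⟨s a, k, Prod.ext rfl (Prod.mk.inj h3).2,
                  Prod.ext (by rw [h5]) (Prod.mk.inj h4).2⟩
          refine ⟨e1.comp (hg.mono (Finset.subset_univ _)), ?_⟩
          have e2 : (Finset.univ.image (g ∘ fun x : Fin (r + 1) × Option (Fin 101) => (s x.1, x.2))) =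
              ((Finset.univ.image s) ×ˢ (Finset.univ : Finset (Option (Fin 101)))).image g := by
            ext y
            rw [Finset.mem_image, Finset.mem_image]
            constructor
            · rintro ⟨x, _, rfl⟩
              exact ⟨(s x.1, x.2), by simp, rfl⟩
            · rintro ⟨⟨a, x⟩, hx, rfl⟩
              rw [Finset.mem_product] at hx
              obtain ⟨b, _, hb⟩ := Finset.mem_image.1 hx.1
              exact ⟨(b, x), Finset.mem_univ _, by rw [Function.comp_apply]; exact congrArg g (Prod.ext hb rfl)⟩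
          rw [e2]
          exact (h.cl_emb hg hgc (Finset.subset_univ _)).2 (cop_cl m _)
        exact h.sim_emb (key s hs).1 (key s hs).2 (key t ht).1 (key t ht).2
          (fun x : Fin (r + 1) × Fin 101 => (x.1, some x.2)) (fun _ => Finset.mem_univ _)
    · rintro s hs ⟨u, hu⟩
      have hsne : s.Nonempty := by
        rw [← Finset.card_pos, hs]
        norm_num
      obtain ⟨i0, hi0⟩ := hsne
      -- the closures in the pair
      have cpu : clo M Ω (rg (vl pu)) = ((Finset.univ : Finset (Option (Fin 101))).image fun x => (false, x)).image g1 := by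
        have e2 : rg (vl pu) =
          ((Finset.univ : Finset (Fin 101)).image fun x => (false, some x)).image g1 := hrg g1 false
        rw [e2, h.clo_emb hg1 hc1 (pair_half True false)]
      have cpv : clo M Ω (rg (vl pv)) = ((Finset.univ : Finset (Option (Fin 101))).image fun x => (true, x)).image g1 := by
        have e2 : rg (vl pv) =
          ((Finset.univ : Finset (Fin 101)).image fun x => (true, some x)).image g1 := hrg g1 true
        rw [e2, h.clo_emb hg1 hc1 (pair_half True true)]
      have cpp : clo M Ω (rg (Sum.elim (vl pu) (vl pv))) = Finset.univ.image g1 := by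
        have e2 : rg (Sum.elim (vl pu) (vl pv)) =
          ((Finset.univ : Finset (Bool × Fin 101)).image fun x => (x.1, some x.2)).image g1 := by
          rw [rg_elim]
          exact hrg2 g1
        rw [e2, h.clo_emb hg1 hc1 (pair_cl True)]
      set a := g1 (false, none) with ha
      set b := g1 (true, none) with hb
      have hau : a ∈ clo M Ω (rg (vl pu)) := by
        rw [cpu]
        exact Finset.mem_image_of_mem g1 (Finset.mem_image_of_mem _ (Finset.mem_univ _))
      have hbv : b ∈ clo M Ω (rg (vl pv)) := by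
        rw [cpv]
        exact Finset.mem_image_of_mem g1 (Finset.mem_image_of_mem _ (Finset.mem_univ _))
      have haX : M.col a = Col.X := by
        rw [ha, hg1.col _ (Finset.mem_univ _)]
        rfl
      have hbX : M.col b = Col.X := by
        rw [hb, hg1.col _ (Finset.mem_univ _)]
        rfl
      have hab : M.adj a b := by
        rw [ha, hb, hg1.adj _ (Finset.mem_univ _) _ (Finset.mem_univ _)]
        exact Or.inr ⟨trivial, rfl, rfl⟩
      have hne : a ≠ b := by
        intro hab
        have := hg1.inj _ (Finset.mem_univ _) _ (Finset.mem_univ _) hab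
        exact absurd (Prod.mk.inj this).1 (by simp)
      -- the point of `u`
      have hsu : SimV M Ω (vl pu) (vl u) := by
        have h1 := h.sim_symm (hu i0 hi0)
        rw [vl_elim, vl_elim] at h1
        exact h.sim_comp h1 Sum.inl
      obtain ⟨F, hF1, hF2, hF3⟩ := h.sim_cl hsu
      have huniq : ∀ y ∈ clo M Ω (rg (vl u)), M.col y = Col.X → y = F a := by
        intro y hy hyX
        rw [← hF2] at hy
        obtain ⟨x, hx, rfl⟩ := Finset.mem_image.1 hy
        rw [hF1.col x hx] at hyX
        congr 1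
        rw [cpu] at hx
        obtain ⟨z, hz, rfl⟩ := Finset.mem_image.1 hx
        obtain ⟨w, _, rfl⟩ := Finset.mem_image.1 hz
        rcases w with _ | k
        · rfl
        · rw [(hD1 false k).2] at hyX
          exact absurd hyX (by simp)
      have huΩ : ↑(rg (vl u)) ⊆ Ω := rg_sub fun i => (vl_spec u i).1
      have hFa : F a ∈ clo M Ω (rg (vl u)) := by
        rw [← hF2]
        exact Finset.mem_image_of_mem F hau
      refine h.div_key hs hg hgc ((h.clo_cl huΩ).sub (Finset.mem_coe.2 hFa)) ?_ (a := F a) ?_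
      · rw [hF1.col a hau]
        exact haX
      · intro i hi
        have h1 := h.sim_symm (hu i hi)
        rw [vl_elim, vl_elim] at h1
        obtain ⟨f, hf1, hf2, hf3⟩ := h.sim_cl h1
        rw [cpp] at hf1 hf2
        have huvΩ : ↑(rg (Sum.elim (vl u) (vl (lft (M := M) (Ω := Ω) (fun k => g (i, some k)) (hv i))))) ⊆ Ω := by
          apply rg_sub
          rintro (k | k)
          · exact (vl_spec u k).1
          · exact (hv i k).1
        have hfc : M.Cl ((Finset.univ.image g1).image f) Ω := by
          rw [hf2]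
          exact h.clo_cl huvΩ
        have hfa : f a ∈ clo M Ω (rg (vl u)) := by
          refine h.clo_image hc1 hf1 hfc (h.clo_cl huΩ) (S := rg (vl pu)) ?_ ?_ a hau
          · exact rg_sub' fun k => Finset.mem_image_of_mem g1 (Finset.mem_univ _)
          · intro x hx
            obtain ⟨k, rfl⟩ := (rg_eq (vl pu) x).1 hx
            rw [show f (vl pu k) = vl u k from hf3 (Sum.inl k)]
            exact h.sub_clo huΩ (mem_rg (vl u) k)
        have hfb : f b ∈ (({i} : Finset (Fin m)) ×ˢ (Finset.univ : Finset (Option (Fin 101)))).image g := by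
          refine h.clo_image hc1 hf1 hfc (hgi i) (S := rg (vl pv)) ?_ ?_ b hbv
          · exact rg_sub' fun k => Finset.mem_image_of_mem g1 (Finset.mem_univ _)
          · intro x hx
            obtain ⟨k, rfl⟩ := (rg_eq (vl pv) x).1 hx
            rw [show f (vl pv k) = g (i, some k) from hf3 (Sum.inr k)]
            exact Finset.mem_image_of_mem g (by simp)
        have ha1 : a ∈ Finset.univ.image g1 := Finset.mem_image_of_mem g1 (Finset.mem_univ _)
        have hb1 : b ∈ Finset.univ.image g1 := Finset.mem_image_of_mem g1 (Finset.mem_univ _)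
        have hfaX : M.col (f a) = Col.X := by
          rw [hf1.col a ha1]
          exact haX
        have hfbX : M.col (f b) = Col.X := by
          rw [hf1.col b hb1]
          exact hbX
        have hfa' : f a = F a := huniq _ hfa hfaX
        have hfb' : f b = g (i, none) := by
          obtain ⟨⟨j, w⟩, hw, hw2⟩ := Finset.mem_image.1 hfb
          rw [Finset.mem_product, Finset.mem_singleton] at hw
          have hji : j = i := hw.1
          subst hji
          rcases w with _ | k
          · exact hw2.symm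
          · rw [← hw2, (hv j k).2] at hfbX
            exact absurd hfbX (by simp)
        rw [← hfa', ← hfb']
        refine ⟨hfaX, hfbX, ?_, (hf1.adj a ha1 b hb1).2 hab⟩
        intro hcon
        exact hne (hf1.inj a ha1 b hb1 hcon)
  exact ⟨pu, pv, qu, qv, hgenq, hladder, hdiv⟩

variable {M : Str ℕ} {Ω : Set ℕ} in
/-- The geometry of a rich structure. -/
noncomputable def Rich.geo (h : Rich M Ω) : Geo (DV M Ω) where
  Sim := fun s t => SimV M Ω (vl s) (vl t)
  Gen := fun u t => GenV M Ω (vl u) (vl t)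
  refl := fun s => h.sim_refl _ fun i => (vl_spec s i).1
  symm := fun hst => h.sim_symm hst
  trans := fun h1 h2 => h.sim_trans h1 h2
  comp := fun g hst => h.sim_comp hst g
  eq := by
    rintro α s t ⟨A, f, hA, hf, hA', hst⟩ i j hij
    apply Subtype.ext
    have h1 := (hst i).2
    have h2 := (hst j).2
    have h3 : vl s i = vl s j := congrArg Subtype.val hij
    show vl t i = vl t j
    rw [← h1, ← h2, h3]
  forth := by
    intro α β _ _ s t hst x
    obtain ⟨y, hy, h1⟩ := h.sim_forth hst (vl x) fun i => (vl_spec x i).1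
    refine ⟨lft y fun i => ⟨(hy i).1, (hy i).2.trans (vl_spec x i).2⟩, ?_⟩
    rw [vl_elim, vl_elim, vl_lft]
    exact h1
  fin := by
    intro α _
    obtain ⟨F, hF, hF1, hF2⟩ := h.sim_fin α
    refine ⟨vl ⁻¹' F, hF.preimage fun s _ t _ hst => vl_inj hst, ?_⟩
    intro t
    obtain ⟨s, hs, hst⟩ := hF2 (vl t) fun i => (vl_spec t i).1
    have hsD : ∀ i, s i ∈ Ω ∧ M.col (s i) = Col.D := by
      intro i
      refine ⟨hF1 s hs i, ?_⟩
      obtain ⟨A, f, hA, hf, hA', hst'⟩ := hst
      rw [← hf.col _ (hst' i).1, (hst' i).2]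
      exact (vl_spec t i).2
    exact ⟨lft s hsD, hs, hst⟩
  gen_inv := by
    intro α β _ _ u u' t t' h1 h2
    rw [vl_elim, vl_elim] at h1
    exact h.gen_inv (vl_spec u) (vl_spec t) h1 h2
  gen_comp := fun {α β γ} _ _ _ {u t} g h1 => h.gen_comp (vl_spec u) (vl_spec t) g h1
  gen_add := by
    intro α β _ _ u t x h1 h2
    rw [vl_elim] at h2 ⊢
    exact h.gen_add _ (vl_spec u) (vl_spec t) (vl_spec x) h1 h2
  gen_empty := fun {β} _ u t => h.gen_empty _ _ fun i => (vl_spec t i).1
  ext := by
    intro α β γ _ _ _ u t h1 e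
    obtain ⟨u', h2, h3, h4⟩ := h.gen_ext (vl_spec u) (vl_spec t) h1 (vl e) (vl_spec e)
    refine ⟨lft u' h2, ?_, ?_⟩
    · rw [vl_elim, vl_lft]
      exact h3
    · rw [vl_elim, vl_elim, vl_lft]
      exact h4
  pair := by
    intro α β _ _ u t h1 h2
    obtain ⟨i, j, hij, u', h3, h4, h5, h6⟩ := h.pair (fun n => vl (u n)) (fun n => vl (t n))
      (fun n => vl_spec (u n)) (fun n => vl_spec (t n)) h1 (fun n => by
        have h7 := h2 n
        rw [vl_elim, vl_elim] at h7
        exact h7)
    refine ⟨i, j, hij, lft u' h3, ?_, ?_, ?_⟩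
    · rw [vl_elim, vl_lft]
      exact h4
    · rw [vl_elim, vl_elim, vl_lft]
      exact h5
    · rw [vl_elim, vl_elim, vl_lft]
      exact h6
  alg := by
    intro β _ u t h1
    have h2 : ∀ x : Fin 1 → DV M Ω, SimV M Ω (vl (Sum.elim x t)) (vl (Sum.elim u t)) →
        vl x 0 ∈ clo M Ω (rg (vl t)) := by
      intro x hx
      rw [vl_elim, vl_elim] at hx
      apply (h.alg (vl x) (vl t) (vl_spec x) (vl_spec t)).1
      intro h3
      exact h1 (h.gen_inv (vl_spec x) (vl_spec t) hx h3)
    have h3 : Set.InjOn (fun x : Fin 1 → DV M Ω => vl x 0)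
        {x : Fin 1 → DV M Ω | SimV M Ω (vl (Sum.elim x t)) (vl (Sum.elim u t))} := by
      intro x _ y _ hxy
      apply vl_inj
      funext i
      rw [Subsingleton.elim i 0]
      exact hxy
    refine Set.Finite.of_finite_image ?_ h3
    refine (clo M Ω (rg (vl t))).finite_toSet.subset ?_
    rintro _ ⟨x, hx, rfl⟩
    exact h2 x hx
  free := by
    intro α β γ _ _ _ a t e
    obtain ⟨t', h1, h2, h3⟩ := h.free (vl a) (vl t) (vl e) (vl_spec a) (vl_spec t) (vl_spec e)
    refine ⟨lft t' h1, ?_, ?_⟩
    · rw [vl_elim, vl_elim, vl_lft]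
      exact h2
    · intro x hx1 hx2
      rw [vl_elim, vl_lft] at hx1
      rw [vl_elim] at hx2
      have h4 := (h.alg (vl x) (Sum.elim t' (vl a)) (vl_spec x) (by
        rintro (i | i)
        · exact h1 i
        · exact vl_spec a i)).1 hx1
      have h5 := (h.alg (vl x) (Sum.elim (vl e) (vl a)) (vl_spec x) (by
        rintro (i | i)
        · exact vl_spec e i
        · exact vl_spec a i)).1 hx2
      exact (h.alg (vl x) (vl a) (vl_spec x) (vl_spec a)).2 (h3 (Finset.mem_inter.2 ⟨h4, h5⟩))
  pu := h.geo_data.choose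
  pv := h.geo_data.choose_spec.choose
  qu := h.geo_data.choose_spec.choose_spec.choose
  qv := h.geo_data.choose_spec.choose_spec.choose_spec.choose
  gen_q := h.geo_data.choose_spec.choose_spec.choose_spec.choose_spec.1
  ladder := h.geo_data.choose_spec.choose_spec.choose_spec.choose_spec.2.1
  div := fun m => by
    obtain ⟨v, h1, _, h3⟩ := h.geo_data.choose_spec.choose_spec.choose_spec.choose_spec.2.2 m
    exact ⟨v, h1, h3⟩

theorem exists_geo : ∃ D : Type, Nonempty (Geo D) := by
  obtain ⟨M, Ω, h⟩ := exists_rich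
  exact ⟨DV M Ω, ⟨h.geo⟩⟩

end Run7.h540
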