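import Pool.Agent.Run7.h540.S1
import Pool.Agent.Run7.h540.DefsI

/-! The version with indiscernible sequences, and the stable forking conjecture. -/

namespace Run7.h540

open FirstOrder FirstOrder.Language Filter Cardinal

section general

variable {L : FirstOrder.Language.{0, 0}} {N : Type} [L.Structure N]

theorem SFC.Indiscernible.sameType {m : ℕ} {A : Set N} {c : ℕ → Fin m → N}
    (h : SFC.Indiscernible (L := L) A c) (i : ℕ) : SameType (L := L) A (c 0) (c i) := by
  intro p ψ a ha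
  have h1 := h 1 p (ψ.relabel (Sum.map (fun y => ((0 : Fin 1), y)) id)) a ha (fun _ => 0)
    (fun _ => i) (Subsingleton.strictMono _) (Subsingleton.strictMono _)
  rw [Formula.realize_relabel, Formula.realize_relabel] at h1
  have e : ∀ b : Fin m → N, ∀ (f : Fin 1 × Fin m → N), (∀ y, f (0, y) = b y) →
      Sum.elim f a ∘ Sum.map (fun y => ((0 : Fin 1), y)) id = Sum.elim b a := by
    intro b f hf
    funext y
    rcases y with y | y
    · exact hf y
    · rfl
  rw [e (c 0) _ fun y => rfl, e (c i) _ fun y => rfl] at h1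
  exact h1

theorem SFC.Divides.toDivides {n m : ℕ} {A : Set N} {φ : L.Formula (Fin n ⊕ Fin m)}
    {b : Fin m → N} (h : SFC.Divides A φ b) : Run7.h540.Divides A φ b := by
  obtain ⟨N', i, j, c, k, h0, hI, hk⟩ := h
  refine ⟨N', i, j, c, k, fun t => ?_, hk⟩
  rw [← h0]
  exact hI.sameType t

theorem SFC.Forks.toForks {n m : ℕ} {A : Set N} {φ : L.Formula (Fin n ⊕ Fin m)}
    {b : Fin m → N} (h : SFC.Forks A φ b) : Run7.h540.Forks A φ b := by
  obtain ⟨N', i, j, r, l, ψ, c, h1, h2⟩ := h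
  exact ⟨N', i, j, r, l, ψ, c, h1, fun t => (h2 t).toDivides⟩

theorem SFC.Divides.forks {n m : ℕ} {A : Set N} {φ : L.Formula (Fin n ⊕ Fin m)}
    {b : Fin m → N} (h : SFC.Divides A φ b) : SFC.Forks A φ b := by
  refine ⟨N, inferInstance, ElementaryEmbedding.refl L N, 1, fun _ => m, fun _ => φ, fun _ => b,
    ?_, ?_⟩
  · intro x hx
    exact ⟨0, hx⟩
  · intro _
    have e : (ElementaryEmbedding.refl L N) '' A = A := Set.image_id A
    rw [e]
    exact h

theorem divI_crit [Nonempty N] {n m : ℕ} (φ : L.Formula (Fin n ⊕ Fin m))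
    (b : Fin m → N) (k : ℕ)
    (h : ∀ M : ℕ, ∃ c : Fin M → Fin m → N, (∀ hM : 0 < M, c ⟨0, hM⟩ = b) ∧
      (∀ (r : ℕ) (σ τ : Fin r → Fin M), StrictMono σ → StrictMono τ →
        STp (L := L) (fun x : Fin r × Fin m => c (σ x.1) x.2) (fun x => c (τ x.1) x.2)) ∧
      ∀ s : Finset (Fin M), s.card = k → ¬ ∃ x : Fin n → N, ∀ i ∈ s, φ.Realize (Sum.elim x (c i))) :
    SFC.Divides ∅ φ b := by
  classical
  let U : Ultrafilter ℕ := Ultrafilter.of atTop
  have hU : (U : Filter ℕ) ≤ atTop := Ultrafilter.of_le _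
  choose C hC0 hC1 hC2 using h
  let cc : ℕ → Fin m → ℕ → N := fun i r p => if hi : i < p then C p ⟨i, hi⟩ r else b r
  refine ⟨UP U N, inferInstance, diag U, fun i r => cls U (cc i r), k, ?_, ?_, ?_⟩
  · funext r
    show cls U (cc 0 r) = cls U (fun _ => b r)
    congr 1
    funext p
    show (if hi : 0 < p then C p ⟨0, hi⟩ r else b r) = b r
    split
    · rename_i hi
      rw [hC0 p hi]
    · rfl
  · intro r p ψ a ha σ τ hσ hτ
    rw [Set.image_empty] at ha
    have hp : IsEmpty (Fin p) := ⟨fun i => ha i⟩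
    have key : ∀ ρ : Fin r → ℕ, (ψ.Realize (Sum.elim (fun x : Fin r × Fin m =>
        cls U (cc (ρ x.1) x.2)) a) ↔ ∀ᶠ q : ℕ in (U : Filter ℕ), ψ.Realize
          (Sum.elim (fun x : Fin r × Fin m => cc (ρ x.1) x.2 q) (fun i => (hp.false i).elim))) := by
      intro ρ
      have e1 : Sum.elim (fun x : Fin r × Fin m => cls U (cc (ρ x.1) x.2)) a =
          fun s => cls U ((Sum.elim (fun x : Fin r × Fin m => cc (ρ x.1) x.2)
            (fun i => (hp.false i).elim) : (Fin r × Fin m) ⊕ Fin p → ℕ → N) s) := by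
        funext s
        rcases s with s | s
        · rfl
        · exact (hp.false s).elim
      rw [e1, los]
      apply eventually_congr
      refine Eventually.of_forall fun q => ?_
      have e2 : (fun s => (Sum.elim (fun x : Fin r × Fin m => cc (ρ x.1) x.2)
            (fun i => (hp.false i).elim) : (Fin r × Fin m) ⊕ Fin p → ℕ → N) s q) =
          Sum.elim (fun x : Fin r × Fin m => cc (ρ x.1) x.2 q) (fun i => (hp.false i).elim) := by
        funext s
        rcases s with s | s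
        · rfl
        · exact (hp.false s).elim
      rw [e2]
    show ψ.Realize (Sum.elim (fun x : Fin r × Fin m => cls U (cc (σ x.1) x.2)) a) ↔
      ψ.Realize (Sum.elim (fun x : Fin r × Fin m => cls U (cc (τ x.1) x.2)) a)
    rw [key σ, key τ]
    apply eventually_congr
    have hev : ∀ᶠ q : ℕ in (U : Filter ℕ), (∀ i, σ i < q) ∧ ∀ i, τ i < q := by
      apply hU
      filter_upwards [eventually_gt_atTop (Finset.univ.sup σ),
        eventually_gt_atTop (Finset.univ.sup τ)] with q h1 h2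
      exact ⟨fun i => lt_of_le_of_lt (Finset.le_sup (f := σ) (Finset.mem_univ i)) h1,
        fun i => lt_of_le_of_lt (Finset.le_sup (f := τ) (Finset.mem_univ i)) h2⟩
    filter_upwards [hev] with q hq
    have h3 := hC1 q r (fun i => ⟨σ i, hq.1 i⟩) (fun i => ⟨τ i, hq.2 i⟩)
      (fun i j hij => hσ hij) (fun i j hij => hτ hij)
    have h4 := h3.comp (Sum.elim id (fun i => (hp.false i).elim) :
      (Fin r × Fin m) ⊕ Fin p → Fin r × Fin m)
    have e3 : ∀ ρ : Fin r → ℕ, ∀ hρ : ∀ i, ρ i < q, (fun x : Fin r × Fin m =>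
        C q ⟨ρ x.1, hρ x.1⟩ x.2) ∘ (Sum.elim id (fun i => (hp.false i).elim) :
          (Fin r × Fin m) ⊕ Fin p → Fin r × Fin m) =
        Sum.elim (fun x : Fin r × Fin m => cc (ρ x.1) x.2 q) (fun i => (hp.false i).elim) := by
      intro ρ hρ
      funext s
      rcases s with s | s
      · simp [cc, hρ]
      · exact (hp.false s).elim
    rw [e3 σ hq.1, e3 τ hq.2] at h4
    exact h4 ψ
  · rintro s hs ⟨x, hx⟩
    choose x' hx' using fun r => cls_surj U (x r)
    have h1 : ∀ i ∈ s, ∀ᶠ q : ℕ in (U : Filter ℕ), φ.Realize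
        (fun r => (Sum.elim x' (cc i) : (Fin n ⊕ Fin m) → ℕ → N) r q) := by
      intro i hi
      rw [← los]
      have h2 := hx i hi
      have e1 : Sum.elim x (fun r => cls U (cc i r)) =
          fun s => cls U ((Sum.elim x' (cc i) : (Fin n ⊕ Fin m) → ℕ → N) s) := by
        funext s
        rcases s with s | s
        · exact (hx' s).symm
        · rfl
      rwa [e1] at h2
    have h2 : ∀ᶠ q : ℕ in (U : Filter ℕ), ∀ i ∈ s, φ.Realize
        (fun r => (Sum.elim x' (cc i) : (Fin n ⊕ Fin m) → ℕ → N) r q) :=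
      (Filter.eventually_all_finset s).2 h1
    have h3 : ∀ᶠ q : ℕ in (U : Filter ℕ), ∀ i ∈ s, i < q := by
      apply hU
      filter_upwards [eventually_gt_atTop (s.sup id)] with q hq
      intro i hi
      exact lt_of_le_of_lt (Finset.le_sup (f := id) hi) hq
    obtain ⟨q, hq2, hq3⟩ := (h2.and h3).exists
    refine hC2 q (s.attachFin hq3) (by rw [Finset.card_attachFin, hs]) ⟨fun r => x' r q, ?_⟩
    intro i hi
    have hi' : (i : ℕ) ∈ s := (Finset.mem_attachFin hq3).1 hi
    have h4 := hq2 i hi'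
    have e : (fun r => (Sum.elim x' (cc i) : (Fin n ⊕ Fin m) → ℕ → N) r q) =
        Sum.elim (fun r => x' r q) (C q i) := by
      funext s
      rcases s with s | s
      · rfl
      · simp [cc]
    rwa [e] at h4

end general

/-- Geometries in which the failing type has a free indiscernible sequence. -/
structure Geo2 (D : Type) extends RGeo D where
  div2 : ∀ m : ℕ, ∃ v : Fin m → Fin 101 → D, (∀ i, Sim (v i) pv) ∧
    (∀ (r : ℕ) (σ τ : Fin r → Fin m), Function.Injective σ → Function.Injective τ →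
      Sim (fun x : Fin r × Fin 101 => v (σ x.1) x.2) (fun x => v (τ x.1) x.2)) ∧
    ∀ s : Finset (Fin m), s.card = 102 →
      ¬ ∃ u : Fin 101 → D, ∀ i ∈ s, Sim (Sum.elim u (v i)) (Sum.elim pu pv)

section

variable {D : Type} (P : Geo2 D)

theorem Geo2.simple : SFC.Simple P.T := by
  intro N _ hN B n a
  obtain ⟨B0, hB0, hfin, h⟩ := P.supersimple N hN n a B
  refine ⟨B0, hB0, ?_, ?_⟩
  · exact ((Cardinal.lt_aleph0_iff_set_finite.2 hfin).le).trans (le_max_left _ _)
  · rintro ⟨m, φ, b, hb, hφ, hf⟩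
    exact h m φ b hb hφ hf.toForks

theorem Geo2.divides (pu pv : Fin 101 → P.Car) (hpu : pu = P.pu) (hpv : pv = P.pv) :
    SFC.Divides ∅ (P.rho (Sum.elim pu pv)) pv := by
  have := P.nonempty
  have hdiv : ∀ m : ℕ, ∃ v : Fin m → Fin 101 → P.Car, (∀ i, P.S (v i) pv) ∧
      (∀ (r : ℕ) (σ τ : Fin r → Fin m), Function.Injective σ → Function.Injective τ →
        P.S (fun x : Fin r × Fin 101 => v (σ x.1) x.2) (fun x => v (τ x.1) x.2)) ∧
      ∀ s : Finset (Fin m), s.card = 102 →
      ¬ ∃ u : Fin 101 → P.Car, ∀ i ∈ s, P.S (Sum.elim u (v i)) (Sum.elim pu pv) := by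
    rw [hpu, hpv]
    exact P.div2
  apply divI_crit _ pv 102
  intro M
  rcases Nat.eq_zero_or_pos M with rfl | hM
  · refine ⟨fun i => i.elim0, fun h => absurd h (lt_irrefl _), ?_, ?_⟩
    · intro r σ τ _ _
      have hr : IsEmpty (Fin r) := ⟨fun i => (σ i).elim0⟩
      have e : (fun x : Fin r × Fin 101 => (fun i : Fin 0 => (i.elim0 : Fin 101 → P.Car)) (σ x.1) x.2)
          = (fun x => (fun i : Fin 0 => (i.elim0 : Fin 101 → P.Car)) (τ x.1) x.2) := by
        funext x
        exact (hr.false x.1).elim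
      rw [e]
      exact STp.rfl' _
    · intro s hs
      have : s.card ≤ 0 := by simpa using Finset.card_le_univ s
      omega
  obtain ⟨v, hv1, hv2, hv3⟩ := hdiv M
  obtain ⟨y, hy⟩ : ∃ y : Fin M × Fin 101 → P.Car,
      P.S (Sum.elim (v ⟨0, hM⟩) (fun x : Fin M × Fin 101 => v x.1 x.2)) (Sum.elim pv y) :=
    P.forth (hv1 ⟨0, hM⟩) _
  have hy2 : P.S (fun x : Fin M × Fin 101 => v x.1 x.2) y := hy.comp Sum.inr
  refine ⟨fun i k => y (i, k), ?_, ?_, ?_⟩
  · intro _
    funext k
    exact (P.eq hy (i := Sum.inl k) (j := Sum.inr (⟨0, hM⟩, k)) rfl).symm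
  · intro r σ τ hσ hτ
    have h1 : P.S (fun x : Fin r × Fin 101 => v (σ x.1) x.2) (fun x => y (σ x.1, x.2)) :=
      hy2.comp (fun x : Fin r × Fin 101 => (σ x.1, x.2))
    have h2 : P.S (fun x : Fin r × Fin 101 => v (τ x.1) x.2) (fun x => y (τ x.1, x.2)) :=
      hy2.comp (fun x : Fin r × Fin 101 => (τ x.1, x.2))
    exact P.inv ((h1.symm.trans (hv2 r σ τ hσ.injective hτ.injective)).trans h2)
  · rintro s hs ⟨x, hx⟩
    obtain ⟨u, hu⟩ : ∃ u : Fin 101 → P.Car,
        P.S (Sum.elim y x) (Sum.elim (fun x : Fin M × Fin 101 => v x.1 x.2) u) :=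
      P.forth hy2.symm x
    apply hv3 s hs
    refine ⟨u, fun i hi => ?_⟩
    have h1 : P.S (Sum.elim x (fun k => y (i, k))) (Sum.elim u (v i)) := by
      have := hu.comp (Sum.elim Sum.inr (fun k => Sum.inl (i, k)) : Fin 101 ⊕ Fin 101 → _)
      convert this using 1
      · funext z
        rcases z with z | z <;> rfl
      · funext z
        rcases z with z | z <;> rfl
    have h2 := (P.rho_car _ _).1 (hx i hi)
    exact (h2.trans h1).symm

theorem Geo2.notSF : ¬ SFC.HasStableForking P.T := by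
  intro h
  obtain ⟨pu, hpu⟩ : ∃ pu : Fin 101 → P.Car, pu = P.pu := ⟨_, rfl⟩
  obtain ⟨pv, hpv⟩ : ∃ pv : Fin 101 → P.Car, pv = P.pv := ⟨_, rfl⟩
  obtain ⟨k, φ, d, hst, hd, hφ, hf⟩ := h P.Car P.model ∅ 101 101 pu pv
    ⟨101, P.rho (Sum.elim pu pv), pv, fun i => Or.inr ⟨i, rfl⟩,
      (P.rho_car _ _).2 (Geo.S.rfl' P.toGeo _), (P.divides pu pv hpu hpv).forks⟩
  refine (P.witness2 pu pv hpu hpv).2 k φ d (fun i => ?_) hst hφ hf.toForks
  rcases hd i with h | h
  · exact h.elim
  · exact h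

include P in
theorem Geo2.main : ∃ (L : FirstOrder.Language.{0, 0}) (T : L.Theory), T.IsComplete ∧
    SFC.Simple T ∧ ¬ SFC.HasStableForking T :=
  ⟨lang D, P.T, P.isComplete, P.simple, P.notSF⟩

end

end Run7.h540
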