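import Pool.Agent.Run7.h540.Geo
import Pool.Agent.Run7.h540.Defs

/-! The language and the theory attached to a geometry. -/

namespace Run7.h540

open FirstOrder FirstOrder.Language

/-- One relation symbol for every tuple: it names the class of the tuple. -/
def lang (D : Type) : FirstOrder.Language.{0, 0} := ⟨fun _ => Empty, fun n => Fin n → D⟩

/-- The carrier. -/
def Geo.Car {D : Type} (_ : Geo D) : Type := D

instance Geo.instStr {D : Type} (P : Geo D) : (lang D).Structure P.Car where
  funMap := fun {_} f => f.elim
  RelMap := fun {_} r t => P.Sim r t

/-- The theory. -/
def Geo.T {D : Type} (P : Geo D) : (lang D).Theory := (lang D).completeTheory P.Car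

/-- Equality of types over the empty set, for tuples of two structures. -/
def STp {L : FirstOrder.Language.{0, 0}} {N N' : Type} [L.Structure N] [L.Structure N']
    {α : Type} (s : α → N) (t : α → N') : Prop :=
  ∀ φ : L.Formula α, φ.Realize s ↔ φ.Realize t

end Run7.h540
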