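import Pool.Agent.Run7.h540.M1

/-! Piece M3: dividing and stability by ultraproducts. -/

namespace Run7.h540

open FirstOrder FirstOrder.Language Filter

section general

variable {L : FirstOrder.Language.{0, 0}} {N : Type} [L.Structure N]

/-- the ultrapower -/
abbrev UP {I : Type} (U : Ultrafilter I) (N : Type) : Type := (U : Filter I).Product (fun _ => N)

/-- the class of a function -/
def cls {I : Type} (U : Ultrafilter I) {N : Type} (x : I → N) : UP U N :=
  ((x : I → N) : (U : Filter I).Product (fun _ => N))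

theorem cls_surj {I : Type} (U : Ultrafilter I) {N : Type} (y : UP U N) :
    ∃ x : I → N, cls U x = y := Quotient.exists_rep y

/-- Łoś for ultrapowers. -/
theorem los [Nonempty N] {I : Type} (U : Ultrafilter I) {β : Type} (φ : L.Formula β)
    (x : β → I → N) :
    (φ.Realize fun i => cls U (x i)) ↔
      ∀ᶠ a : I in (U : Filter I), φ.Realize fun i => x i a :=
  Ultraproduct.realize_formula_cast (u := U) (M := fun _ => N) φ x

/-- the diagonal embedding -/
noncomputable def diag [Nonempty N] {I : Type} (U : Ultrafilter I) :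
    N ↪ₑ[L] UP U N where
  toFun x := cls U (fun _ => x)
  map_formula' := by
    intro n φ x
    have h := los U φ (fun i _ => x i)
    rw [eventually_const] at h
    exact h

theorem div_crit [Nonempty N] {n m : ℕ} (A : Set N) (φ : L.Formula (Fin n ⊕ Fin m))
    (b : Fin m → N) (k : ℕ)
    (h : ∀ (p : ℕ) (a : Fin p → N), (∀ i, a i ∈ A) → ∀ M : ℕ, ∃ c : Fin M → Fin m → N,
      (∀ i, STp (L := L) (Sum.elim (c i) a) (Sum.elim b a)) ∧
      ∀ s : Finset (Fin M), s.card = k → ¬ ∃ x : Fin n → N, ∀ i ∈ s, φ.Realize (Sum.elim x (c i))) :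
    Divides A φ b := by
  classical
  let I : Type := Finset A × ℕ
  let U : Ultrafilter I := Ultrafilter.of atTop
  have hU : (U : Filter I) ≤ atTop := Ultrafilter.of_le _
  let aF : ∀ F : Finset A, Fin F.card → N := fun F i => ((F.equivFin.symm i : F) : A)
  have haF : ∀ F : Finset A, ∀ i, aF F i ∈ A := fun F i => ((F.equivFin.symm i : F) : A).2
  choose C hC1 hC2 using fun p : I => h p.1.card (aF p.1) (haF p.1) p.2
  let cc : ℕ → Fin m → I → N := fun i r p => if hi : i < p.2 then C p ⟨i, hi⟩ r else b r
  refine ⟨UP U N, inferInstance, diag U, fun i r => cls U (cc i r), k, ?_, ?_⟩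
  · intro i p ψ a ha
    choose a' ha' ha'' using ha
    have e1 : Sum.elim (diag (L := L) U ∘ b) a = fun s => cls U ((Sum.elim (fun r _ => b r)
        (fun i _ => a' i) : (Fin m ⊕ Fin p) → I → N) s) := by
      funext s
      rcases s with s | s
      · rfl
      · exact (ha'' s).symm
    have e2 : Sum.elim (fun r => cls U (cc i r)) a =
        fun s => cls U ((Sum.elim (cc i) (fun i _ => a' i) : (Fin m ⊕ Fin p) → I → N) s) := by
      funext s
      rcases s with s | s
      · rfl
      · exact (ha'' s).symm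
    rw [e1]
    change _ ↔ ψ.Realize (Sum.elim (fun r => cls U (cc i r)) a)
    rw [e2, los, los]
    let F0 : Finset A := Finset.univ.image (fun r : Fin p => (⟨a' r, ha' r⟩ : A))
    have hev : ∀ᶠ q : I in (U : Filter I), F0 ⊆ q.1 ∧ i < q.2 := by
      apply hU
      filter_upwards [eventually_ge_atTop ((F0, i + 1) : I)] with q hq
      exact ⟨hq.1, hq.2⟩
    apply eventually_congr
    filter_upwards [hev] with q hq
    have hg : ∀ r : Fin p, ∃ t : Fin q.1.card, aF q.1 t = a' r := by
      intro r
      have hr : (⟨a' r, ha' r⟩ : A) ∈ q.1 :=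
        hq.1 (Finset.mem_image.2 ⟨r, Finset.mem_univ _, rfl⟩)
      refine ⟨q.1.equivFin ⟨_, hr⟩, ?_⟩
      simp [aF]
    choose g hg using hg
    have hS := (hC1 q ⟨i, hq.2⟩).comp (Sum.map id g)
    have e3 : Sum.elim (C q ⟨i, hq.2⟩) (aF q.1) ∘ Sum.map id g =
        fun s => (Sum.elim (cc i) (fun i _ => a' i) : (Fin m ⊕ Fin p) → I → N) s q := by
      funext s
      rcases s with s | s
      · simp [cc, hq.2]
      · simp [hg]
    have e4 : Sum.elim b (aF q.1) ∘ Sum.map id g =
        fun s => (Sum.elim (fun r _ => b r) (fun i _ => a' i) : (Fin m ⊕ Fin p) → I → N) s q := by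
      funext s
      rcases s with s | s
      · simp
      · simp [hg]
    rw [e3, e4] at hS
    exact (hS ψ).symm
  · rintro s hs ⟨x, hx⟩
    choose x' hx' using fun r => cls_surj U (x r)
    have h1 : ∀ i ∈ s, ∀ᶠ q : I in (U : Filter I), φ.Realize
        (fun r => (Sum.elim x' (cc i) : (Fin n ⊕ Fin m) → I → N) r q) := by
      intro i hi
      rw [← los]
      have h2 := hx i hi
      have e1 : Sum.elim x (fun r => cls U (cc i r)) =
          fun s => cls U ((Sum.elim x' (cc i) : (Fin n ⊕ Fin m) → I → N) s) := by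
        funext s
        rcases s with s | s
        · exact (hx' s).symm
        · rfl
      rwa [e1] at h2
    have h2 : ∀ᶠ q : I in (U : Filter I), ∀ i ∈ s, φ.Realize
        (fun r => (Sum.elim x' (cc i) : (Fin n ⊕ Fin m) → I → N) r q) :=
      (Filter.eventually_all_finset s).2 h1
    have h3 : ∀ᶠ q : I in (U : Filter I), ∀ i ∈ s, i < q.2 := by
      apply hU
      filter_upwards [eventually_ge_atTop ((∅, s.sup id + 1) : I)] with q hq
      intro i hi
      exact lt_of_lt_of_le (Nat.lt_succ_of_le (Finset.le_sup (f := id) hi)) hq.2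
    obtain ⟨q, hq2, hq3⟩ := (h2.and h3).exists
    refine hC2 q (s.attachFin hq3) (by rw [Finset.card_attachFin, hs]) ⟨fun r => x' r q, ?_⟩
    intro i hi
    have hi' : (i : ℕ) ∈ s := (Finset.mem_attachFin hq3).1 hi
    have h4 := hq2 i hi'
    have e : (fun r => (Sum.elim x' (cc i) : (Fin n ⊕ Fin m) → I → N) r q) =
        Sum.elim (fun r => x' r q) (C q i) := by
      funext s
      rcases s with s | s
      · rfl
      · simp [cc]
    rwa [e] at h4

theorem Divides.forks {n m : ℕ} {A : Set N} {φ : L.Formula (Fin n ⊕ Fin m)}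
    {b : Fin m → N} (h : Divides A φ b) : Forks A φ b := by
  refine ⟨N, inferInstance, ElementaryEmbedding.refl L N, 1, fun _ => m, fun _ => φ, fun _ => b,
    ?_, ?_⟩
  · intro x hx
    exact ⟨0, hx⟩
  · intro _
    have e : (ElementaryEmbedding.refl L N) '' A = A := Set.image_id A
    rw [e]
    exact h

/-- finite ladders in a structure give an infinite ladder in a model of its theory -/
theorem not_stable [Nonempty N] {n m : ℕ} (φ : L.Formula (Fin n ⊕ Fin m))
    (h : ∀ M : ℕ, ∃ (a : Fin M → Fin n → N) (b : Fin M → Fin m → N),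
      ∀ i j, φ.Realize (Sum.elim (a i) (b j)) ↔ i < j) :
    ¬ Stable (L.completeTheory N) φ := by
  classical
  intro hst
  choose a b hab using h
  obtain ⟨z⟩ := ‹Nonempty N›
  let U : Ultrafilter ℕ := Ultrafilter.of atTop
  have hU : (U : Filter ℕ) ≤ atTop := Ultrafilter.of_le _
  let A : ℕ → Fin n → ℕ → N := fun i r M => if hi : i < M then a M ⟨i, hi⟩ r else z
  let B : ℕ → Fin m → ℕ → N := fun i r M => if hi : i < M then b M ⟨i, hi⟩ r else z
  have hmod : UP U N ⊨ L.completeTheory N :=
    ((diag (L := L) U).theory_model_iff _).1 inferInstance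
  refine hst (UP U N) hmod ⟨fun i r => cls U (A i r), fun i r => cls U (B i r), ?_⟩
  intro i j
  have e1 : Sum.elim (fun r => cls U (A i r)) (fun r => cls U (B j r)) =
      fun s => cls U ((Sum.elim (A i) (B j) : (Fin n ⊕ Fin m) → ℕ → N) s) := by
    funext s
    rcases s with s | s <;> rfl
  change φ.Realize (Sum.elim (fun r => cls U (A i r)) (fun r => cls U (B j r))) ↔ _
  rw [e1, los]
  have hev : ∀ᶠ M : ℕ in (U : Filter ℕ), (φ.Realize
      (fun s => (Sum.elim (A i) (B j) : (Fin n ⊕ Fin m) → ℕ → N) s M) ↔ i < j) := by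
    apply hU
    filter_upwards [eventually_gt_atTop i, eventually_gt_atTop j] with M hi hj
    have e : (fun s => (Sum.elim (A i) (B j) : (Fin n ⊕ Fin m) → ℕ → N) s M) =
        Sum.elim (a M ⟨i, hi⟩) (b M ⟨j, hj⟩) := by
      funext s
      rcases s with s | s
      · simp [A, hi]
      · simp [B, hj]
    rw [e, hab]
    exact Iff.rfl
  rw [eventually_congr hev, eventually_const]

end general

end Run7.h540
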