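import Pool.Agent.Run7.h540.G
import Pool.Agent.Run7.h540.M

namespace Run7.h540

open FirstOrder FirstOrder.Language

theorem main : ∃ (L : FirstOrder.Language.{0, 0}) (T : L.Theory), T.IsComplete ∧
    StableForking T 1 ∧ ¬ ∀ n, StableForking T n := by
  obtain ⟨D, ⟨P⟩⟩ := exists_geo
  exact P.main

end Run7.h540
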