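import Pool.Agent.Run7.h540.D3

/-!
# The relative rank in rich structures: independence over a base
-/

set_option autoImplicit false
set_option linter.all false

namespace Run7.h540
open Classical

/-- the relative dimension of `u` over `t` -/
noncomputable def rkV (M : Str ℕ) (Ω : Set ℕ) {α β : Type} (u : α → ℕ) (t : β → ℕ) : ℤ :=
  dm M Ω (rg u ∪ rg t) - dm M Ω (rg t)

section D

variable {M : Str ℕ} {Ω : Set ℕ} (h : Rich M Ω) {α β γ : Type}
include h

theorem Rich.rk_nonneg [Finite α] [Finite β] {u : α → ℕ} {t : β → ℕ} (hu : ∀ i, u i ∈ Ω)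
    (ht : ∀ i, t i ∈ Ω) : 0 ≤ rkV M Ω u t := by
  unfold rkV
  have := h.dm_mono (S := rg t) (T := rg u ∪ rg t) Finset.subset_union_right (by
    rw [Finset.coe_union]
    exact Set.union_subset (rg_sub hu) (rg_sub ht))
  linarith

theorem Rich.rk_le [Finite α] [Finite β] {u : α → ℕ} {t : β → ℕ}
    (hu : ∀ i, u i ∈ Ω ∧ M.col (u i) = Col.D) (ht : ∀ i, t i ∈ Ω) :
    rkV M Ω u t ≤ Nat.card α := by
  unfold rkV
  have := h.gen_le hu ht
  linarith

theorem genV_iff {M : Str ℕ} {Ω : Set ℕ} {u : α → ℕ} {t : β → ℕ} :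
    GenV M Ω u t ↔ rkV M Ω u t = Nat.card α := by
  unfold GenV rkV
  constructor <;> intro h <;> linarith

theorem Rich.rk_inv [Finite α] [Finite β] {u u' : α → ℕ} {t t' : β → ℕ}
    (h1 : SimV M Ω (Sum.elim u t) (Sum.elim u' t')) : rkV M Ω u t = rkV M Ω u' t' := by
  have h3 := h.sim_dm h1
  have h4 : SimV M Ω t t' := h.sim_comp h1 Sum.inr
  have h5 := h.sim_dm h4
  rw [rg_elim, rg_elim] at h3
  unfold rkV
  rw [← h3, ← h5]

theorem Rich.rk_comp [Finite α] [Finite β] [Finite γ] {u : α → ℕ} {t : β → ℕ}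
    (hu : ∀ i, u i ∈ Ω) (ht : ∀ i, t i ∈ Ω) (g : γ → β) :
    rkV M Ω u t ≤ rkV M Ω u (t ∘ g) := by
  have htΩ := rg_sub ht
  have huΩ := rg_sub hu
  have hsub : rg (t ∘ g) ⊆ rg t := rg_sub' fun i => mem_rg t (g i)
  have hgΩ : ↑(rg (t ∘ g)) ⊆ Ω := (Finset.coe_subset.2 hsub).trans htΩ
  have hugΩ : ↑(rg u ∪ rg (t ∘ g)) ⊆ Ω := by
    rw [Finset.coe_union]
    exact Set.union_subset huΩ hgΩ
  have e2 := h.dm_sub hugΩ htΩ
  have e3 : rg u ∪ rg (t ∘ g) ∪ rg t = rg u ∪ rg t := by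
    rw [Finset.union_assoc, Finset.union_eq_right.2 hsub]
  rw [e3] at e2
  have e4 : dm M Ω (rg (t ∘ g)) ≤ M.dl (clo M Ω (rg u ∪ rg (t ∘ g)) ∩ clo M Ω (rg t)) := by
    refine Str.Cl.le (h.clo_cl hgΩ) (Str.PC.inter (h.clo_cl hugΩ).1 (h.clo_cl htΩ).1) ?_
    exact Finset.subset_inter (h.clo_mono Finset.subset_union_right hugΩ) (h.clo_mono hsub htΩ)
  unfold rkV
  linarith

theorem Rich.rk_ext [Finite α] [Finite β] [Finite γ] {u : α → ℕ} {t : β → ℕ}
    (hu : ∀ i, u i ∈ Ω ∧ M.col (u i) = Col.D) (ht : ∀ i, t i ∈ Ω ∧ M.col (t i) = Col.D)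
    (e : γ → ℕ) (he : ∀ i, e i ∈ Ω ∧ M.col (e i) = Col.D) :
    ∃ u' : α → ℕ, (∀ i, u' i ∈ Ω ∧ M.col (u' i) = Col.D) ∧
      rkV M Ω u' (Sum.elim t e) = rkV M Ω u t ∧
      SimV M Ω (Sum.elim u' t) (Sum.elim u t) := by
  have htΩ := rg_sub fun i => (ht i).1
  have huΩ := rg_sub fun i => (hu i).1
  have heΩ := rg_sub fun i => (he i).1
  have hutΩ : ↑(rg u ∪ rg t) ⊆ Ω := by
    rw [Finset.coe_union]
    exact Set.union_subset huΩ htΩ
  have hteΩ : ↑(rg t ∪ rg e) ⊆ Ω := by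
    rw [Finset.coe_union]
    exact Set.union_subset htΩ heΩ
  set B := clo M Ω (rg t) with hB
  set A := clo M Ω (rg u ∪ rg t) with hA
  set C := clo M Ω (rg t ∪ rg e) with hC
  have hBA : B ⊆ A := h.clo_mono Finset.subset_union_right hutΩ
  have hBC : B ⊆ C := h.clo_mono Finset.subset_union_left hteΩ
  obtain ⟨j, j1, j2, j3, j4, j5, j6⟩ := h.amal2 (h.clo_cl hteΩ) (h.clo_cl hutΩ) (h.clo_cl htΩ) hBA hBC
  have huA : ∀ i, u i ∈ A := fun i => h.sub_clo hutΩ (Finset.mem_union_left _ (mem_rg u i))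
  have htB : ∀ i, t i ∈ B := fun i => h.sub_clo htΩ (mem_rg t i)
  have hu' : ∀ i, (j ∘ u) i ∈ Ω ∧ M.col ((j ∘ u) i) = Col.D := by
    intro i
    refine ⟨j2.sub (Finset.mem_coe.2 (Finset.mem_image_of_mem j (huA i))), ?_⟩
    rw [Function.comp_apply, j1.col _ (huA i)]
    exact (hu i).2
  have hu'Ω := rg_sub fun i => (hu' i).1
  have hsim : SimV M Ω (Sum.elim u t) (Sum.elim (j ∘ u) t) := by
    refine ⟨A, j, h.clo_cl hutΩ, j1, j2, ?_⟩
    rintro (i | i)
    · exact ⟨huA i, rfl⟩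
    · exact ⟨hBA (htB i), j3 _ (htB i)⟩
  refine ⟨j ∘ u, hu', ?_, h.sim_symm hsim⟩
  unfold rkV
  rw [rg_elim]
  have hall : ↑(rg (j ∘ u) ∪ (rg t ∪ rg e)) ⊆ Ω := by
    rw [Finset.coe_union]
    exact Set.union_subset hu'Ω hteΩ
  have key : clo M Ω (rg (j ∘ u) ∪ (rg t ∪ rg e)) = C ∪ A.image j := by
    apply Finset.Subset.antisymm
    · refine h.clo_le ?_ j4
      refine Finset.union_subset ?_ ?_
      · exact rg_sub' fun i => Finset.mem_union_right _ (Finset.mem_image_of_mem j (huA i))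
      · exact (h.sub_clo hteΩ).trans Finset.subset_union_left
    · refine Finset.union_subset (h.clo_mono Finset.subset_union_right hall) ?_
      obtain ⟨g, g1, g2, g3⟩ := h.sim_cl hsim
      -- the image of the closure is the closure of the image
      have h5 : M.Cl (A.image j) Ω := j2
      have h6 : A.image j = clo M Ω (rg (j ∘ u) ∪ rg t) := by
        have h7 : clo M Ω (rg (j ∘ u) ∪ rg t) ⊆ A.image j := by
          refine h.clo_le (Finset.union_subset ?_ ?_) j2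
          · exact rg_sub' fun i => Finset.mem_image_of_mem j (huA i)
          · exact rg_sub' fun i => Finset.mem_image.2 ⟨t i, hBA (htB i), j3 _ (htB i)⟩
        symm
        apply Finset.eq_of_subset_of_card_le h7
        rw [← rg_elim, ← g2, rg_elim, ← hA, Finset.card_image_of_injOn (fun a ha b hb hab =>
          g1.inj a (by rw [rg_elim]; exact ha) b (by rw [rg_elim]; exact hb) hab)]
        exact Finset.card_image_le
      rw [h6]
      exact h.clo_mono (Finset.union_subset_union_right Finset.subset_union_left) hall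
  have e5 : dm M Ω (rg (j ∘ u) ∪ (rg t ∪ rg e)) = M.dl (C ∪ A.image j) := by
    unfold dm
    rw [key]
  rw [e5, j5]
  have e7 : dm M Ω (rg t ∪ rg e) = M.dl C := rfl
  have e8 : dm M Ω (rg u ∪ rg t) = M.dl A := rfl
  have e9 : dm M Ω (rg t) = M.dl B := rfl
  rw [e7, e8, e9]
  ring

/-- independent amalgamation of two copies over a common base -/
theorem Rich.rk_pair [Finite α] [Finite β] [Finite γ] (u : ℕ → α → ℕ) (t : ℕ → β → ℕ) (o : γ → β)
    (hu : ∀ n i, u n i ∈ Ω ∧ M.col (u n i) = Col.D)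
    (ht : ∀ n i, t n i ∈ Ω ∧ M.col (t n i) = Col.D)
    (ho : ∀ n k, t n (o k) = t 0 (o k))
    (hg : rkV M Ω (u 0) (t 0) = rkV M Ω (u 0) (t 0 ∘ o))
    (hs : ∀ i, SimV M Ω (Sum.elim (u i) (t i)) (Sum.elim (u 0) (t 0))) :
      ∃ i j : ℕ, i ≠ j ∧ ∃ u' : α → ℕ, (∀ i, u' i ∈ Ω ∧ M.col (u' i) = Col.D) ∧
        rkV M Ω u' (Sum.elim (t i) (t j)) = rkV M Ω (u 0) (t 0) ∧
        SimV M Ω (Sum.elim u' (t i)) (Sum.elim (u 0) (t 0)) ∧
        SimV M Ω (Sum.elim u' (t j)) (Sum.elim (u 0) (t 0)) := by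
  have htΩ : ∀ n, ↑(rg (t n)) ⊆ Ω := fun n => rg_sub fun i => (ht n i).1
  have huΩ : ∀ n, ↑(rg (u n)) ⊆ Ω := fun n => rg_sub fun i => (hu n i).1
  have hutΩ : ↑(rg (u 0) ∪ rg (t 0)) ⊆ Ω := by
    rw [Finset.coe_union]
    exact Set.union_subset (huΩ 0) (htΩ 0)
  -- the embeddings
  have hsc := fun i => h.sim_cl (h.sim_symm (hs i))
  choose g hg1 hg2 hg3 using hsc
  rw [rg_elim] at hg1 hg2
  set A := clo M Ω (rg (u 0) ∪ rg (t 0)) with hA
  set B := clo M Ω (rg (t 0)) with hB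
  have hAc : M.Cl A Ω := h.clo_cl hutΩ
  have hBc : M.Cl B Ω := h.clo_cl (htΩ 0)
  have hBA : B ⊆ A := h.clo_mono Finset.subset_union_right hutΩ
  have huA : ∀ k, u 0 k ∈ A := fun k => h.sub_clo hutΩ (Finset.mem_union_left _ (mem_rg (u 0) k))
  have htB : ∀ k, t 0 k ∈ B := fun k => h.sub_clo (htΩ 0) (mem_rg (t 0) k)
  have hgu : ∀ i k, g i (u 0 k) = u i k := fun i k => hg3 i (Sum.inl k)
  have hgt : ∀ i k, g i (t 0 k) = t i k := fun i k => hg3 i (Sum.inr k)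
  have hgA : ∀ i, M.Cl (A.image (g i)) Ω := by
    intro i
    rw [hg2 i, rg_elim]
    apply h.clo_cl
    rw [Finset.coe_union]
    exact Set.union_subset (huΩ i) (htΩ i)
  have hgB : ∀ i, M.Cl (B.image (g i)) Ω := fun i =>
    (h.cl_image hAc (hg1 i) (hgA i) hBA).2 hBc
  -- the closure of the base
  have haΩ : ↑(rg (t 0 ∘ o)) ⊆ Ω := rg_sub fun i => (ht 0 (o i)).1
  set K := clo M Ω (rg (t 0 ∘ o)) with hK
  have hKc : M.Cl K Ω := h.clo_cl haΩ
  have haB : rg (t 0 ∘ o) ⊆ rg (t 0) := rg_sub' fun i => mem_rg (t 0) (o i)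
  have hKB : K ⊆ B := h.clo_mono haB (htΩ 0)
  have hgK : ∀ n, ∀ x ∈ K, g n x ∈ K := by
    intro n
    refine h.clo_image hAc (hg1 n) (hgA n) hKc ?_ ?_
    · exact haB.trans (rg_sub' fun k => hBA (htB k))
    · intro x hx
      obtain ⟨k, rfl⟩ := (rg_eq (t 0 ∘ o) x).1 hx
      rw [Function.comp_apply, hgt, ho]
      exact h.sub_clo haΩ (mem_rg (t 0 ∘ o) k)
  obtain ⟨ν, hν, hν'⟩ : ∃ ν : ℕ → ℕ, StrictMono ν ∧ ∀ n, ∀ x ∈ K, g (ν n) x = g (ν 0) x := by
    obtain ⟨y, hy⟩ := Finite.exists_infinite_fiber (fun n : ℕ =>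
      ((fun x : K => (⟨g n x.1, hgK n x.1 x.2⟩ : K)) : K → K))
    have hinf : (Set.ofPred fun n => ((fun x : K => (⟨g n x.1, hgK n x.1 x.2⟩ : K)) : K → K) =
      y).Infinite := Set.infinite_coe_iff.1 hy
    refine ⟨Nat.nth (fun n => ((fun x : K => (⟨g n x.1, hgK n x.1 x.2⟩ : K)) : K → K) = y),
      Nat.nth_strictMono hinf, ?_⟩
    intro n x hx
    have q1 := Nat.nth_mem_of_infinite hinf n
    have q2 := Nat.nth_mem_of_infinite hinf 0
    have q3 := congrArg Subtype.val (congrFun (q1.trans q2.symm) ⟨x, hx⟩)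
    exact q3
  -- the choice of the two indices
  obtain ⟨i0, j0, hij0, hsep0⟩ := exists_sep B (fun n => g (ν n)) (fun n x hx y hy hxy =>
    (hg1 (ν n)).inj x (hBA hx) y (hBA hy) hxy)
  obtain ⟨i, j, hij, hsep, hgKij⟩ : ∃ i j, i ≠ j ∧ (∀ x ∈ B, ∀ y ∈ B, g i x = g j y → x = y) ∧
      ∀ x ∈ K, g i x = g j x :=
    ⟨ν i0, ν j0, fun hh => hij0 (hν.injective hh), hsep0, fun x hx =>
      (hν' i0 x hx).trans (hν' j0 x hx).symm⟩
  clear hij0 hsep0
  refine ⟨i, j, hij, ?_⟩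
  -- the common part
  set E := B.filter fun x => g i x = g j x with hE
  have hEB : E ⊆ B := Finset.filter_subset _ _
  have hgE : E.image (g i) = B.image (g i) ∩ B.image (g j) := by
    ext y
    rw [Finset.mem_image, Finset.mem_inter, Finset.mem_image, Finset.mem_image]
    constructor
    · rintro ⟨x, hx, rfl⟩
      rw [hE, Finset.mem_filter] at hx
      exact ⟨⟨x, hx.1, rfl⟩, ⟨x, hx.1, hx.2.symm⟩⟩
    · rintro ⟨⟨x, hx, rfl⟩, ⟨y, hy, hxy⟩⟩
      have h1 := hsep x hx y hy hxy.symm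
      subst h1
      exact ⟨x, Finset.mem_filter.2 ⟨hx, hxy.symm⟩, rfl⟩
  have hEc : M.Cl E Ω := by
    apply (h.cl_image hAc (hg1 i) (hgA i) (hEB.trans hBA)).1
    rw [hgE]
    exact Str.Cl.inter h.amb (hgB i) (hgB j)
  -- the closure of the common part with `u`
  have hEuΩ : ↑(rg (u 0) ∪ E) ⊆ Ω := by
    rw [Finset.coe_union]
    exact Set.union_subset (huΩ 0) hEc.sub
  set U := clo M Ω (rg (u 0) ∪ E) with hU
  have hUc : M.Cl U Ω := h.clo_cl hEuΩ
  have hUA : U ⊆ A := by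
    refine h.clo_le (Finset.union_subset ?_ (hEB.trans hBA)) hAc
    exact rg_sub' huA
  have huU : ∀ k, u 0 k ∈ U := fun k => h.sub_clo hEuΩ (Finset.mem_union_left _ (mem_rg (u 0) k))
  have hEU : E ⊆ U := Finset.subset_union_right.trans (h.sub_clo hEuΩ)
  set r : ℤ := rkV M Ω (u 0) (t 0) with hr
  have dA : M.dl A = M.dl B + r := by
    have h1 : r = M.dl A - M.dl B := rfl
    rw [h1]
    ring
  have hKE : K ⊆ E := fun x hx => Finset.mem_filter.2 ⟨hKB hx, hgKij x hx⟩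
  have haE : rg (t 0 ∘ o) ⊆ E := (h.sub_clo haΩ).trans hKE
  have dU : M.dl U ≤ M.dl E + r := by
    have huaΩ : ↑(rg (u 0) ∪ rg (t 0 ∘ o)) ⊆ Ω := by
      rw [Finset.coe_union]
      exact Set.union_subset (huΩ 0) haΩ
    have h1 := h.dm_sub huaΩ hEc.sub
    have h3 : dm M Ω E = M.dl E := by
      unfold dm
      rw [h.clo_self hEc]
    have h4 : dm M Ω (rg (u 0) ∪ E) = M.dl U := rfl
    have h5 : rg (u 0) ∪ rg (t 0 ∘ o) ∪ E = rg (u 0) ∪ E := by
      rw [Finset.union_assoc, Finset.union_eq_right.2 haE]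
    rw [h5, h4, h3, h.clo_self hEc] at h1
    have h6 : M.dl K ≤ M.dl (clo M Ω (rg (u 0) ∪ rg (t 0 ∘ o)) ∩ E) := by
      refine Str.Cl.le hKc (Str.PC.inter (h.clo_cl huaΩ).1 hEc.1) ?_
      exact Finset.subset_inter (h.clo_mono Finset.subset_union_right huaΩ) hKE
    have h7 : r = dm M Ω (rg (u 0) ∪ rg (t 0 ∘ o)) - M.dl K := hg
    linarith
  have hUB : M.dl A + M.dl (U ∩ B) ≤ M.dl U + M.dl B := by
    have h1 := h.dm_sub hEuΩ (htΩ 0)
    have h2 : M.dl A ≤ dm M Ω (rg (u 0) ∪ E ∪ rg (t 0)) := by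
      have h3 : ↑(rg (u 0) ∪ E ∪ rg (t 0)) ⊆ Ω := by
        rw [Finset.coe_union]
        exact Set.union_subset hEuΩ (htΩ 0)
      refine h.dm_mono ?_ h3
      exact Finset.union_subset_union_left Finset.subset_union_left
    have h4 : dm M Ω (rg (u 0) ∪ E) = M.dl U := rfl
    have h5 : dm M Ω (rg (t 0)) = M.dl B := rfl
    rw [h4, h5] at h1
    linarith
  have hUBE : U ∩ B = E := by
    by_contra hne
    have h1 : E ⊂ U ∩ B :=
      Finset.ssubset_iff_subset_ne.2 ⟨Finset.subset_inter hEU hEB, fun h => hne h.symm⟩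
    have h2 := hEc.2 _ (Str.PC.inter hUc.1 hBc.1) h1
    linarith
  have dU' : M.dl U = M.dl E + r := by
    rw [hUBE] at hUB
    linarith
  have hBU : B ∩ U = E := by rw [Finset.inter_comm, hUBE]
  -- the base
  have httΩ : ↑(rg (t i) ∪ rg (t j)) ⊆ Ω := by
    rw [Finset.coe_union]
    exact Set.union_subset (htΩ i) (htΩ j)
  set C := clo M Ω (rg (t i) ∪ rg (t j)) with hC
  have hCc : M.Cl C Ω := h.clo_cl httΩ
  have hBi : ∀ n, rg (t n) ⊆ C → ∀ x ∈ B, g n x ∈ C := by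
    intro n hn
    refine h.clo_image hAc (hg1 n) (hgA n) hCc (rg_sub' fun k => hBA (htB k)) ?_
    intro x hx
    obtain ⟨k, rfl⟩ := (rg_eq (t 0) x).1 hx
    rw [hgt]
    exact hn (mem_rg (t n) k)
  have hBiC : ∀ x ∈ B, g i x ∈ C := hBi i (Finset.subset_union_left.trans (h.sub_clo httΩ))
  have hBjC : ∀ x ∈ B, g j x ∈ C := hBi j (Finset.subset_union_right.trans (h.sub_clo httΩ))
  have hP : Prb M M C A B U (g i) (g j) := by
    refine ⟨Str.K.sub h.k hCc.1, Str.K.sub h.k hAc.1, hBc.down hBA hAc.1, hUc.down hUA hAc.1,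
      (hg1 i).mono hBA, (hg1 j).mono hBA, ?_, ?_, hsep, ?_, ?_⟩
    · refine (hgB i).down ?_ hCc.1
      intro y hy
      obtain ⟨x, hx, rfl⟩ := Finset.mem_image.1 hy
      exact hBiC x hx
    · refine (hgB j).down ?_ hCc.1
      intro y hy
      obtain ⟨x, hx, rfl⟩ := Finset.mem_image.1 hy
      exact hBjC x hx
    · intro x hx
      constructor
      · intro h1
        exact hEU (Finset.mem_filter.2 ⟨hx, h1⟩)
      · intro h1
        have h2 : x ∈ E := by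
          rw [← hBU]
          exact Finset.mem_inter.2 ⟨hx, h1⟩
        exact (Finset.mem_filter.1 h2).2
    · intro F hF hUF hBF
      rw [hBU, dU']
      have hFΩ : M.PC F Ω := Str.PC.trans hF hAc.1
      have h1 : M.dl (clo M Ω F) ≤ M.dl F := Str.IsC.le h.amb hFΩ (h.isC hFΩ.1)
      have h2 : M.dl A ≤ M.dl (clo M Ω F) := by
        refine Str.Cl.le hAc (h.clo_cl hFΩ.1).1 ?_
        refine h.clo_mono (Finset.union_subset ?_ ?_) hFΩ.1
        · exact rg_sub' fun k => hUF (huU k)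
        · exact rg_sub' fun k => hBF (htB k)
      linarith
  obtain ⟨j0, j1, a1, a2, a3, a4, a5, a6, a7, a8, a9, a10, a11⟩ := h.amal hCc hP
  have hu' : ∀ k, (j0 ∘ u 0) k ∈ Ω ∧ M.col ((j0 ∘ u 0) k) = Col.D := by
    intro k
    refine ⟨a3.sub (Finset.mem_coe.2 (Finset.mem_image_of_mem j0 (huA k))), ?_⟩
    rw [Function.comp_apply, a1.col _ (huA k)]
    exact (hu 0 k).2
  have hu'Ω := rg_sub fun k => (hu' k).1
  have hs0 : SimV M Ω (Sum.elim (u 0) (t 0)) (Sum.elim (j0 ∘ u 0) (t i)) := by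
    refine ⟨A, j0, hAc, a1, a3, ?_⟩
    rintro (k | k)
    · exact ⟨huA k, rfl⟩
    · refine ⟨hBA (htB k), ?_⟩
      rw [Sum.elim_inr, Sum.elim_inr, a5 _ (htB k), hgt]
  have hs1 : SimV M Ω (Sum.elim (u 0) (t 0)) (Sum.elim (j0 ∘ u 0) (t j)) := by
    refine ⟨A, j1, hAc, a2, a4, ?_⟩
    rintro (k | k)
    · exact ⟨huA k, (a7 _ (huU k)).symm⟩
    · refine ⟨hBA (htB k), ?_⟩
      rw [Sum.elim_inr, Sum.elim_inr, a6 _ (htB k), hgt]
  refine ⟨j0 ∘ u 0, hu', ?_, h.sim_symm hs0, h.sim_symm hs1⟩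
  change rkV M Ω (j0 ∘ u 0) (Sum.elim (t i) (t j)) = r
  unfold rkV
  rw [rg_elim]
  have hall : ↑(rg (j0 ∘ u 0) ∪ (rg (t i) ∪ rg (t j))) ⊆ Ω := by
    rw [Finset.coe_union]
    exact Set.union_subset hu'Ω httΩ
  have hWc := h.clo_cl hall
  have key : clo M Ω (rg (j0 ∘ u 0) ∪ (rg (t i) ∪ rg (t j))) = C ∪ A.image j0 ∪ A.image j1 := by
    apply Finset.Subset.antisymm
    · refine h.clo_le (Finset.union_subset ?_ ?_) a8
      · exact rg_sub' fun k => Finset.mem_union_left _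
          (Finset.mem_union_right _ (Finset.mem_image_of_mem j0 (huA k)))
      · exact (h.sub_clo httΩ).trans (Finset.subset_union_left.trans Finset.subset_union_left)
    · refine Finset.union_subset (Finset.union_subset ?_ ?_) ?_
      · exact h.clo_mono Finset.subset_union_right hall
      · intro y hy
        obtain ⟨x, hx, rfl⟩ := Finset.mem_image.1 hy
        refine h.clo_image hAc a1 a3 hWc (h.sub_clo hutΩ) ?_ x hx
        intro z hz
        rcases Finset.mem_union.1 hz with hz | hz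
        · obtain ⟨k, rfl⟩ := (rg_eq (u 0) z).1 hz
          exact h.sub_clo hall (Finset.mem_union_left _ (mem_rg (j0 ∘ u 0) k))
        · obtain ⟨k, rfl⟩ := (rg_eq (t 0) z).1 hz
          rw [a5 _ (htB k), hgt]
          exact h.sub_clo hall (Finset.mem_union_right _ (Finset.mem_union_left _ (mem_rg (t i) k)))
      · intro y hy
        obtain ⟨x, hx, rfl⟩ := Finset.mem_image.1 hy
        refine h.clo_image hAc a2 a4 hWc (h.sub_clo hutΩ) ?_ x hx
        intro z hz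
        rcases Finset.mem_union.1 hz with hz | hz
        · obtain ⟨k, rfl⟩ := (rg_eq (u 0) z).1 hz
          rw [← a7 _ (huU k)]
          exact h.sub_clo hall (Finset.mem_union_left _ (mem_rg (j0 ∘ u 0) k))
        · obtain ⟨k, rfl⟩ := (rg_eq (t 0) z).1 hz
          rw [a6 _ (htB k), hgt]
          exact h.sub_clo hall (Finset.mem_union_right _ (Finset.mem_union_right _ (mem_rg (t j) k)))
  have e5 : dm M Ω (rg (j0 ∘ u 0) ∪ (rg (t i) ∪ rg (t j))) = M.dl (C ∪ A.image j0 ∪ A.image j1) := by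
    unfold dm
    rw [key]
  have e6 : dm M Ω (rg (t i) ∪ rg (t j)) = M.dl C := rfl
  rw [e5, e6, a9, hBU, dU', dA]
  ring

end D

end Run7.h540
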