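import Pool.Agent.Run7.h540.G
import Pool.Agent.Run7.h540.Sgeo
import Pool.Agent.Run7.h540.I

/-!
# The geometry with rank of a rich structure (helper690)
-/

set_option autoImplicit false
set_option linter.all false

namespace Run7.h540
open Classical

variable {M : Str ℕ} {Ω : Set ℕ}

/-- The geometry with rank of a rich structure. -/
noncomputable def Rich.rgeo (h : Rich M Ω) : RGeo (DV M Ω) where
  toGeo := h.geo
  rk := fun u t => (rkV M Ω (vl u) (vl t)).toNat
  rk_le := fun {α β} _ _ u t =>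
    Int.toNat_le.2 (h.rk_le (vl_spec u) fun i => (vl_spec t i).1)
  rk_inv := by
    intro α β _ _ u u' t t' h1
    have h2 : SimV M Ω (vl (Sum.elim u t)) (vl (Sum.elim u' t')) := h1
    rw [vl_elim, vl_elim] at h2
    show (rkV M Ω (vl u) (vl t)).toNat = (rkV M Ω (vl u') (vl t')).toNat
    rw [h.rk_inv h2]
  rk_comp := fun {α β γ} _ _ _ u t g =>
    Int.toNat_le_toNat (h.rk_comp (fun i => (vl_spec u i).1) (fun i => (vl_spec t i).1) g)
  rk_ext := by
    intro α β γ _ _ _ u t e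
    obtain ⟨u', h1, h2, h3⟩ := h.rk_ext (vl_spec u) (vl_spec t) (vl e) (vl_spec e)
    refine ⟨lft u' h1, ?_, ?_⟩
    · show (rkV M Ω (vl (lft u' h1)) (vl (Sum.elim t e))).toNat = (rkV M Ω (vl u) (vl t)).toNat
      rw [vl_elim, vl_lft, h2]
    · show SimV M Ω (vl (Sum.elim (lft u' h1) t)) (vl (Sum.elim u t))
      rw [vl_elim, vl_elim, vl_lft]
      exact h3
  rk_pair := by
    intro α β γ _ _ _ u t o ho hrk hs
    have hn : ∀ {α β : Type} [Finite α] [Finite β] (u : α → DV M Ω) (t : β → DV M Ω),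
        0 ≤ rkV M Ω (vl u) (vl t) := fun u t =>
      h.rk_nonneg (fun i => (vl_spec u i).1) fun i => (vl_spec t i).1
    have hrk' : rkV M Ω (vl (u 0)) (vl (t 0)) = rkV M Ω (vl (u 0)) (vl (t 0) ∘ o) := by
      have h1 : (rkV M Ω (vl (u 0)) (vl (t 0))).toNat = (rkV M Ω (vl (u 0)) (vl (t 0 ∘ o))).toNat :=
        hrk
      have h2 := hn (u 0) (t 0)
      have h3 := hn (u 0) (t 0 ∘ o)
      rw [vl_comp] at h1 h3
      omega
    obtain ⟨i, j, hij, u', h3, h4, h5, h6⟩ := h.rk_pair (fun n => vl (u n)) (fun n => vl (t n)) o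
      (fun n => vl_spec (u n)) (fun n => vl_spec (t n))
      (fun n k => congrArg Subtype.val (ho n k)) hrk' (fun n => by
        have h7 : SimV M Ω (vl (Sum.elim (u n) (t n))) (vl (Sum.elim (u 0) (t 0))) := hs n
        rw [vl_elim, vl_elim] at h7
        exact h7)
    refine ⟨i, j, hij, lft u' h3, ?_, ?_, ?_⟩
    · show (rkV M Ω (vl (lft u' h3)) (vl (Sum.elim (t i) (t j)))).toNat =
        (rkV M Ω (vl (u 0)) (vl (t 0))).toNat
      rw [vl_elim, vl_lft, h4]
    · show SimV M Ω (vl (Sum.elim (lft u' h3) (t i))) (vl (Sum.elim (u 0) (t 0)))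
      rw [vl_elim, vl_elim, vl_lft]
      exact h5
    · show SimV M Ω (vl (Sum.elim (lft u' h3) (t j))) (vl (Sum.elim (u 0) (t 0)))
      rw [vl_elim, vl_elim, vl_lft]
      exact h6

/-- The geometry with rank and indiscernible sequences of a rich structure. -/
noncomputable def Rich.geo2 (h : Rich M Ω) : Geo2 (DV M Ω) where
  toRGeo := h.rgeo
  div2 := h.geo_data.choose_spec.choose_spec.choose_spec.choose_spec.2.2

theorem exists_geo2 : ∃ D : Type, Nonempty (Geo2 D) := by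
  obtain ⟨M, Ω, h⟩ := exists_rich
  exact ⟨DV M Ω, ⟨h.geo2⟩⟩

theorem exists_rgeo : ∃ D : Type, Nonempty (RGeo D) := by
  obtain ⟨M, Ω, h⟩ := exists_rich
  exact ⟨DV M Ω, ⟨h.rgeo⟩⟩

end Run7.h540
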